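import Mathlib

/-!
Krull dimension of finitely generated algebras over a field via transcendence degree.
-/

namespace Pool.Agent.Helper87.KrullDim

open MvPolynomial Ideal Algebra

variable {k A : Type*} [Field k] [CommRing A] [Algebra k A]

/-- Krull dimension of an algebra integral over a polynomial subring. -/
theorem ringKrullDim_of_noether {s : ℕ} (g : MvPolynomial (Fin s) k →ₐ[k] A)
    (hg : Function.Injective g) (hi : g.IsIntegral) : ringKrullDim A = s := by
  have hdim : ringKrullDim (MvPolynomial (Fin s) k) = s := by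
    rw [MvPolynomial.ringKrullDim_of_isNoetherianRing, ringKrullDim_eq_zero_of_field]
    simp
  rw [← hdim]
  let _ : Algebra (MvPolynomial (Fin s) k) A := g.toRingHom.toAlgebra
  have hint : Algebra.IsIntegral (MvPolynomial (Fin s) k) A := ⟨hi⟩
  have hinj : Function.Injective (algebraMap (MvPolynomial (Fin s) k) A) := hg
  apply le_antisymm
  · refine Order.krullDim_le_of_strictMono
      (PrimeSpectrum.comap (algebraMap (MvPolynomial (Fin s) k) A)) ?_
    intro P Q hPQ
    exact Ideal.IsIntegral.comap_lt_comap (R := MvPolynomial (Fin s) k) hPQ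
  · refine iSup_le fun l => ?_
    obtain ⟨Q, -, hQ, hQ2⟩ := Ideal.exists_ideal_over_prime_of_isIntegral (R := MvPolynomial (Fin s) k)
      (S := A) (RelSeries.head l).asIdeal ⊥ (by
        rw [← RingHom.ker_eq_comap_bot, (RingHom.injective_iff_ker_eq_bot _).mp hinj]
        exact bot_le)
    have : Q.LiesOver (RelSeries.head l).asIdeal := ⟨hQ2.symm⟩
    obtain ⟨L, hL, -, -⟩ := Ideal.exists_ltSeries_of_hasGoingUp l Q
    rw [← hL]
    exact le_iSup (fun l : LTSeries (PrimeSpectrum A) => (l.length : WithBot ℕ∞)) L

/-- For an injective map from a polynomial ring there is a prime of the target over zero. -/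
theorem exists_prime_injective {R S : Type*} [CommRing R] [IsDomain R] [CommRing S]
    (f : R →+* S) (hf : Function.Injective f) :
    ∃ P : Ideal S, P.IsPrime ∧ Function.Injective ((Ideal.Quotient.mk P).comp f) := by
  have hd : Disjoint ((⊥ : Ideal S) : Set S) ((nonZeroDivisors R).map f : Submonoid S) := by
    rw [Set.disjoint_left]
    rintro x hx ⟨y, hy, hyx⟩
    have hx0 : x = 0 := by simpa using hx
    rw [hx0] at hyx
    have : y = 0 := hf (by rw [map_zero]; exact hyx)
    exact (nonZeroDivisors.ne_zero hy) this
  obtain ⟨P, hP, -, hdis⟩ := Ideal.exists_le_prime_disjoint ⊥ _ hd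
  refine ⟨P, hP, ?_⟩
  rw [injective_iff_map_eq_zero]
  intro a ha
  by_contra hne
  have h1 : f a ∈ P := by
    rw [RingHom.comp_apply] at ha
    exact Ideal.Quotient.eq_zero_iff_mem.mp ha
  have h2 : f a ∈ ((nonZeroDivisors R).map f : Submonoid S) :=
    ⟨a, mem_nonZeroDivisors_of_ne_zero hne, rfl⟩
  exact Set.disjoint_left.mp hdis h1 h2

theorem card_le_of_algebraic {K : Type*} [CommRing K] [IsDomain K] [Algebra k K] {s : ℕ}
    (z : Fin s → K) (hz : AlgebraicIndependent k z) (t : Set K) (n : ℕ) (ht : t.encard ≤ n)
    (h : ∀ i, IsAlgebraic (Algebra.adjoin k t) (z i)) : s ≤ n := by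
  let M := AlgebraicIndependent.matroid k K
  have hI : M.Indep (Set.range z) := by
    rw [AlgebraicIndependent.matroid_indep_iff]
    exact hz.coe_range
  have hcl : Set.range z ⊆ M.closure t := by
    rintro _ ⟨i, rfl⟩
    rw [AlgebraicIndependent.matroid_closure_eq]
    exact h i
  have h1 : (Set.range z).encard ≤ M.eRk (M.closure t) := hI.encard_le_eRk_of_subset hcl
  rw [Matroid.eRk_closure_eq] at h1
  have h2 := (h1.trans (M.eRk_le_encard t)).trans ht
  have h3 : (Set.range z).encard = s := by
    rw [← Set.image_univ, hz.injective.injOn.encard_image, Set.encard_univ]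
    simp
  rw [h3] at h2
  exact_mod_cast h2

/-- Upper bound for the Krull dimension of a finitely generated subalgebra. -/
theorem ringKrullDim_le {B : Type*} [CommRing B] [Algebra k B] [Nontrivial A]
    [Algebra.FiniteType k A] (i : A →ₐ[k] B) (hi : Function.Injective i) (t : Set B) (n : ℕ)
    (ht : t.encard ≤ n)
    (h : ∀ (P : Ideal B) [P.IsPrime], ∀ a : A,
      IsAlgebraic (Algebra.adjoin k ((Ideal.Quotient.mk P) '' t)) (Ideal.Quotient.mk P (i a))) :
    ringKrullDim A ≤ n := by
  obtain ⟨s, g, hg, hint⟩ := exists_integral_inj_algHom_of_fg k A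
  rw [ringKrullDim_of_noether g hg hint]
  obtain ⟨P, hP, hinj⟩ := exists_prime_injective ((i.comp g).toRingHom) (hi.comp hg)
  have hle : s ≤ n := by
    refine card_le_of_algebraic (k := k) (K := B ⧸ P)
      (fun j => Ideal.Quotient.mk P (i (g (MvPolynomial.X j)))) ?_ ((Ideal.Quotient.mk P) '' t) n
      ((Set.encard_image_le _ _).trans ht) (fun j => h P _)
    have e : (MvPolynomial.aeval (fun j => Ideal.Quotient.mk P (i (g (MvPolynomial.X j)))) :
        MvPolynomial (Fin s) k →ₐ[k] (B ⧸ P)) = (Ideal.Quotient.mkₐ k P).comp (i.comp g) := by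
      ext j
      simp
    have : Function.Injective (MvPolynomial.aeval (fun j => Ideal.Quotient.mk P (i (g (MvPolynomial.X j)))) :
        MvPolynomial (Fin s) k →ₐ[k] (B ⧸ P)) := by
      rw [e]
      exact hinj
    exact this
  exact_mod_cast hle

/-- Lower bound for the Krull dimension of a finitely generated algebra. -/
theorem le_ringKrullDim [Nontrivial A] [Algebra.FiniteType k A] {n : ℕ} (f : Fin n → A)
    (hf : AlgebraicIndependent k f) : (n : WithBot ℕ∞) ≤ ringKrullDim A := by
  obtain ⟨s, g, hg, hint⟩ := exists_integral_inj_algHom_of_fg k A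
  rw [ringKrullDim_of_noether g hg hint]
  obtain ⟨P, hP, hinj⟩ := exists_prime_injective ((MvPolynomial.aeval f :
    MvPolynomial (Fin n) k →ₐ[k] A).toRingHom) hf
  have hle : n ≤ s := by
    refine card_le_of_algebraic (k := k) (K := A ⧸ P) (fun j => Ideal.Quotient.mk P (f j)) ?_
      (Set.range fun j => Ideal.Quotient.mk P (g (MvPolynomial.X j))) s ?_ (fun j => ?_)
    · have e : (MvPolynomial.aeval (fun j => Ideal.Quotient.mk P (f j)) :
          MvPolynomial (Fin n) k →ₐ[k] (A ⧸ P))
          = (Ideal.Quotient.mkₐ k P).comp (MvPolynomial.aeval f) := by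
        ext j
        simp
      have : Function.Injective (MvPolynomial.aeval (fun j => Ideal.Quotient.mk P (f j)) :
          MvPolynomial (Fin n) k →ₐ[k] (A ⧸ P)) := by
        rw [e]
        exact hinj
      exact this
    · rw [← Set.image_univ]
      refine (Set.encard_image_le _ _).trans ?_
      rw [Set.encard_univ]
      simp
    · -- integrality
      obtain ⟨p, hp, hp0⟩ := hint (f j)
      set S := Algebra.adjoin k (Set.range fun j => Ideal.Quotient.mk P (g (MvPolynomial.X j)))
        with hS
      have hmem : ∀ a : MvPolynomial (Fin s) k, Ideal.Quotient.mk P (g a) ∈ S := by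
        intro a
        induction a using MvPolynomial.induction_on with
        | C a =>
          have : Ideal.Quotient.mk P (g (MvPolynomial.C a)) = algebraMap k (A ⧸ P) a := by
            have h1 : g (MvPolynomial.C a) = algebraMap k A a := g.commutes a
            rw [h1]
            rfl
          rw [this]
          exact S.algebraMap_mem a
        | add p q hp hq => rw [map_add, map_add]; exact S.add_mem hp hq
        | mul_X p i hp =>
          rw [map_mul, map_mul]
          exact S.mul_mem hp (Algebra.subset_adjoin ⟨i, rfl⟩)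
      let φ : MvPolynomial (Fin s) k →+* S :=
        ((Ideal.Quotient.mk P).comp g.toRingHom).codRestrict S.toSubring hmem
      have : IsIntegral S (Ideal.Quotient.mk P (f j)) := by
        refine ⟨p.map φ, hp.map φ, ?_⟩
        rw [Polynomial.eval₂_map]
        have e2 : (algebraMap S (A ⧸ P)).comp φ = (Ideal.Quotient.mk P).comp g.toRingHom := rfl
        rw [e2, ← Polynomial.hom_eval₂]
        have : Polynomial.eval₂ g.toRingHom (f j) p = 0 := hp0
        rw [this, map_zero]
      exact this.isAlgebraic
  exact_mod_cast hle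

end Pool.Agent.Helper87.KrullDim
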