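import Pool.Agent.Helper87.Hyp6TContr

/-!
# Singular simplices of the quotient by a free action

A group acting as deck transformations acts freely on singular simplices, and the singular
simplices of the quotient are the orbits.
-/

namespace Pool.Agent.Helper87.Hyp6T

open CategoryTheory Finsupp Simplicial Limits

/-- singular simplices as continuous maps -/
noncomputable def sgEquiv (X : Type) [TopologicalSpace X] (n : ℕ) :
    (Sg X) _⦋n⦌ ≃ C(stdSimplex ℝ (Fin (n + 1)), X) :=
  TopCat.toSSetObjEquiv (TopCat.of X) (Opposite.op ⦋n⦌)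

theorem sgEquiv_map {X Y : Type} [TopologicalSpace X] [TopologicalSpace Y] (f : C(X, Y)) (n : ℕ)
    (σ : (Sg X) _⦋n⦌) : sgEquiv Y n ((Sg.map f).app _ σ) = f.comp (sgEquiv X n σ) := rfl

section Act

variable {Γ : Type} [Group Γ] (X : Type) [TopologicalSpace X] [MulAction Γ X]
  [ContinuousConstSMul Γ X]

/-- the translation by a group element -/
def tr (g : Γ) : C(X, X) := ⟨(g • ·), continuous_const_smul g⟩

theorem tr_one : tr X (1 : Γ) = ContinuousMap.id X := by
  ext x
  simp [tr]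

theorem tr_mul (g h : Γ) : tr X (g * h) = (tr X g).comp (tr X h) := by
  ext x
  simp [tr, mul_smul]

/-- the action on singular simplices -/
@[implicit_reducible]
noncomputable def sgAct (Γ : Type) [Group Γ] (X : Type) [TopologicalSpace X] [MulAction Γ X]
    [ContinuousConstSMul Γ X] (n : ℕ) : MulAction Γ ((Sg X) _⦋n⦌) where
  smul g σ := (Sg.map (tr X g)).app _ σ
  one_smul σ := by
    change (Sg.map (tr X (1 : Γ))).app _ σ = σ
    rw [tr_one, Sg.map_id]
    rfl
  mul_smul g h σ := by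
    change (Sg.map (tr X (g * h))).app _ σ = (Sg.map (tr X g)).app _ ((Sg.map (tr X h)).app _ σ)
    rw [tr_mul, Sg.map_comp]
    rfl

end Act

instance simplex_sc (n : ℕ) : ContractibleSpace (stdSimplex ℝ (Fin (n + 1))) :=
  (convex_stdSimplex ℝ (Fin (n + 1))).contractibleSpace ⟨_, single_mem_stdSimplex ℝ (0 : Fin (n+1))⟩

instance simplex_lpc (n : ℕ) : LocallyPathConnectedSpace (stdSimplex ℝ (Fin (n + 1))) :=
  (convex_stdSimplex ℝ (Fin (n + 1))).locallyPathConnectedSpace

section Cov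

variable {Γ : Type} [Group Γ] {X : Type} [TopologicalSpace X] [MulAction Γ X]
  {Y : Type} [TopologicalSpace Y] (q : C(X, Y)) (hq : IsQuotientCoveringMap q Γ)

include hq

theorem sg_surj (n : ℕ) : Function.Surjective ((Sg.map q).app (Opposite.op ⦋n⦌)) := by
  intro τ
  let a₀ : stdSimplex ℝ (Fin (n + 1)) := Classical.arbitrary _
  obtain ⟨e₀, he⟩ := hq.surjective (sgEquiv Y n τ a₀)
  obtain ⟨F, ⟨-, hF⟩, -⟩ := hq.isCoveringMap.existsUnique_continuousMap_lifts
    (sgEquiv Y n τ) a₀ e₀ he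
  refine ⟨(sgEquiv X n).symm F, (sgEquiv Y n).injective ?_⟩
  rw [sgEquiv_map, Equiv.apply_symm_apply]
  ext a
  exact congrFun hF a

theorem sg_fib [ContinuousConstSMul Γ X] (n : ℕ) (σ τ : (Sg X) _⦋n⦌) :
    (Sg.map q).app (Opposite.op ⦋n⦌) σ = (Sg.map q).app (Opposite.op ⦋n⦌) τ ↔
      ∃ g : Γ, (Sg.map (tr X g)).app (Opposite.op ⦋n⦌) σ = τ := by
  constructor
  · intro h
    let a₀ : stdSimplex ℝ (Fin (n + 1)) := Classical.arbitrary _
    have h1 : q.comp (sgEquiv X n σ) = q.comp (sgEquiv X n τ) := by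
      rw [← sgEquiv_map, ← sgEquiv_map, h]
    have h2 : q (sgEquiv X n τ a₀) = q (sgEquiv X n σ a₀) :=
      (congrArg (fun f => f a₀) h1).symm
    obtain ⟨g, hg⟩ := hq.apply_eq_iff_mem_orbit.1 h2
    refine ⟨g, (sgEquiv X n).injective ?_⟩
    obtain ⟨F, -, hF⟩ := hq.isCoveringMap.existsUnique_continuousMap_lifts
      (q.comp (sgEquiv X n τ)) a₀ (sgEquiv X n τ a₀) rfl
    rw [sgEquiv_map]
    rw [hF (sgEquiv X n τ) ⟨rfl, rfl⟩]
    refine hF _ ⟨hg, ?_⟩
    rw [← h1]
    ext a
    exact hq.map_smul g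
  · rintro ⟨g, rfl⟩
    apply (sgEquiv Y n).injective
    rw [sgEquiv_map, sgEquiv_map, sgEquiv_map]
    ext a
    exact (hq.map_smul g).symm

theorem sg_free [ContinuousConstSMul Γ X] (n : ℕ) (g : Γ) (σ : (Sg X) _⦋n⦌)
    (h : (Sg.map (tr X g)).app (Opposite.op ⦋n⦌) σ = σ) : g = 1 := by
  let a₀ : stdSimplex ℝ (Fin (n + 1)) := Classical.arbitrary _
  have h1 : (tr X g).comp (sgEquiv X n σ) = sgEquiv X n σ := by
    rw [← sgEquiv_map, h]
  have h2 : g • (sgEquiv X n σ a₀) = sgEquiv X n σ a₀ := congrArg (fun f => f a₀) h1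
  have := hq.isCancelSMul
  exact IsCancelSMul.right_cancel _ _ (sgEquiv X n σ a₀) (by rw [h2, one_smul])

/-- the singular resolution -/
noncomputable def singRes [ContinuousConstSMul Γ X] [ContractibleSpace X] : FreeRes Γ where
  A n := (Sg X) _⦋n⦌
  act n := sgAct Γ X n
  D n := dS (Sg X) n
  equi n g z := dS_natural (Sg.map (tr X g)) n z
  free n g a h := sg_free q hq n g a h
  exact n z := exact_sing X n z
  exact0 z := exact0_sing X z
  ne := ⟨(sgEquiv X 0).symm (ContinuousMap.const _ (Classical.arbitrary X))⟩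
  Q n := (Sg Y) _⦋n⦌
  p n := (Sg.map q).app (Opposite.op ⦋n⦌)
  psurj n := sg_surj q hq n
  pfib n a b := sg_fib q hq n a b
  DQ n := dS (Sg Y) n
  pD n z := dS_natural (Sg.map q) n z

/-- the singular chain complex of the quotient is the complex of orbits -/
noncomputable def singIso [ContinuousConstSMul Γ X] [ContractibleSpace X] :
    ((AlgebraicTopology.singularChainComplexFunctor (ModuleCat.{0} ℚ)).obj
      (ModuleCat.of ℚ ℚ)).obj (TopCat.of Y) ≅ (singRes q hq).cc :=
  HomologicalComplex.Hom.isoOfComponents (fun n => cIso (Sg Y) n) (by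
    rintro i j hij
    obtain rfl : j + 1 = i := hij
    rw [FreeRes.cc_d]
    exact cIso_d (Sg Y) j)

end Cov

end Pool.Agent.Helper87.Hyp6T
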