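import Mathlib

/-!
# Euler characteristic of a bounded finite-dimensional chain complex
-/

namespace Pool.Agent.Helper87.Hyp6T

open CategoryTheory Module

theorem shortComplex_finrank (S : ShortComplex (ModuleCat.{0} ℚ)) [Module.Finite ℚ S.X₂] :
    Module.Finite ℚ S.homology ∧
    finrank ℚ S.homology + finrank ℚ (LinearMap.range S.f.hom) +
      finrank ℚ (LinearMap.range S.g.hom) = finrank ℚ S.X₂ := by
  have e : S.homology ≃ₗ[ℚ] (LinearMap.ker S.g.hom ⧸ LinearMap.range S.moduleCatToCycles) :=
    (S.moduleCatHomologyIso).toLinearEquiv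
  have h1 : finrank ℚ (LinearMap.ker S.g.hom ⧸ LinearMap.range S.moduleCatToCycles) +
      finrank ℚ (LinearMap.range S.moduleCatToCycles) = finrank ℚ (LinearMap.ker S.g.hom) :=
    Submodule.finrank_quotient_add_finrank _
  have h2 : finrank ℚ (LinearMap.range S.moduleCatToCycles) =
      finrank ℚ (LinearMap.range S.f.hom) := by
    have h3 : (LinearMap.range S.moduleCatToCycles).map (LinearMap.ker S.g.hom).subtype =
        LinearMap.range S.f.hom := by
      rw [← LinearMap.range_comp]
      rfl
    rw [← h3]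
    exact (LinearEquiv.finrank_eq (Submodule.equivMapOfInjective _
      (Submodule.subtype_injective _) _))
  have h4 := LinearMap.finrank_range_add_finrank_ker S.g.hom
  refine ⟨Module.Finite.equiv e.symm, ?_⟩
  rw [e.finrank_eq]
  omega

theorem cc_finrank_zero (C : ChainComplex (ModuleCat.{0} ℚ) ℕ)
    [Module.Finite ℚ (C.X 0)] :
    Module.Finite ℚ (C.homology 0) ∧
    finrank ℚ (C.homology 0) + finrank ℚ (LinearMap.range (C.d 1 0).hom) = finrank ℚ (C.X 0) := by
  have i := C.homologyIsoSc' 1 0 0 (ChainComplex.prev _ _) ChainComplex.next_nat_zero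
  have hf : Module.Finite ℚ (C.sc' 1 0 0).X₂ := by
    change Module.Finite ℚ (C.X 0)
    infer_instance
  obtain ⟨h1, h2⟩ := shortComplex_finrank (C.sc' 1 0 0)
  have e := i.toLinearEquiv
  refine ⟨Module.Finite.equiv e.symm, ?_⟩
  rw [e.finrank_eq]
  have h3 : (C.sc' 1 0 0).g.hom = 0 := by
    change (C.d 0 0).hom = 0
    rw [C.shape 0 0 (by simp)]
    rfl
  rw [h3, LinearMap.range_zero, finrank_bot] at h2
  exact h2

theorem cc_finrank_succ (C : ChainComplex (ModuleCat.{0} ℚ) ℕ) (n : ℕ)
    [Module.Finite ℚ (C.X (n + 1))] :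
    Module.Finite ℚ (C.homology (n + 1)) ∧
    finrank ℚ (C.homology (n + 1)) + finrank ℚ (LinearMap.range (C.d (n + 2) (n + 1)).hom) +
      finrank ℚ (LinearMap.range (C.d (n + 1) n).hom) = finrank ℚ (C.X (n + 1)) := by
  have i := C.homologyIsoSc' (n + 2) (n + 1) n (ChainComplex.prev _ _)
    (ChainComplex.next_nat_succ _)
  have hf : Module.Finite ℚ (C.sc' (n + 2) (n + 1) n).X₂ := by
    change Module.Finite ℚ (C.X (n + 1))
    infer_instance
  obtain ⟨h1, h2⟩ := shortComplex_finrank (C.sc' (n + 2) (n + 1) n)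
  have e := i.toLinearEquiv
  refine ⟨Module.Finite.equiv e.symm, ?_⟩
  rw [e.finrank_eq]
  exact h2

/-- Euler characteristic of a bounded finite-dimensional chain complex -/
theorem cc_euler (C : ChainComplex (ModuleCat.{0} ℚ) ℕ) (hf : ∀ n, Module.Finite ℚ (C.X n))
    (N : ℕ) (hN : ∀ n, N < n → Subsingleton (C.X n)) :
    (∀ i, Module.Finite ℚ (C.homology i)) ∧ (∀ i, N < i → Subsingleton (C.homology i)) ∧
    ∑ i ∈ Finset.range (N + 1), (-1 : ℤ) ^ i * finrank ℚ (C.homology i) =
      ∑ i ∈ Finset.range (N + 1), (-1 : ℤ) ^ i * finrank ℚ (C.X i) := by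
  have hfin : ∀ i, Module.Finite ℚ (C.homology i) := by
    intro i
    rcases i with - | i
    · exact (cc_finrank_zero C).1
    · exact (cc_finrank_succ C i).1
  refine ⟨hfin, ?_, ?_⟩
  · intro i hi
    obtain ⟨j, rfl⟩ : ∃ j, i = j + 1 := ⟨i - 1, by omega⟩
    have h1 := (cc_finrank_succ C j).2
    have h2 : finrank ℚ (C.X (j + 1)) = 0 := by
      have := hN _ hi
      exact finrank_zero_of_subsingleton
    have h3 : finrank ℚ (C.homology (j + 1)) = 0 := by omega
    have := hfin (j + 1)
    exact finrank_zero_iff.1 h3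
  · have key : ∀ M : ℕ, ∑ i ∈ Finset.range (M + 1), (-1 : ℤ) ^ i * finrank ℚ (C.homology i) =
        ∑ i ∈ Finset.range (M + 1), (-1 : ℤ) ^ i * finrank ℚ (C.X i) -
          (-1 : ℤ) ^ M * finrank ℚ (LinearMap.range (C.d (M + 1) M).hom) := by
      intro M
      induction M with
      | zero =>
        have h : finrank ℚ (C.homology 0) + finrank ℚ (LinearMap.range (C.d (0 + 1) 0).hom) =
            finrank ℚ (C.X 0) := (cc_finrank_zero C).2
        simp only [Finset.sum_range_succ, Finset.sum_range_zero, pow_zero, one_mul]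
        omega
      | succ M ih =>
        rw [Finset.sum_range_succ, ih, Finset.sum_range_succ _ (M + 1)]
        have h := (cc_finrank_succ C M).2
        have h' : (finrank ℚ (C.X (M + 1)) : ℤ) = finrank ℚ (C.homology (M + 1)) +
            finrank ℚ (LinearMap.range (C.d (M + 2) (M + 1)).hom) +
              finrank ℚ (LinearMap.range (C.d (M + 1) M).hom) := by
          rw [← h]
          push_cast
          ring
        rw [h']
        ring
    rw [key N]
    have h0 : finrank ℚ (LinearMap.range (C.d (N + 1) N).hom) = 0 := by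
      have := hN (N + 1) (by omega)
      have h1 : (C.d (N + 1) N).hom = 0 := by
        apply LinearMap.ext
        intro z
        rw [Subsingleton.elim z 0, map_zero, map_zero]
      rw [h1, LinearMap.range_zero, finrank_bot]
    rw [h0]
    simp

end Pool.Agent.Helper87.Hyp6T
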