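import Pool.Agent.Helper63.Hyp6.Defs
import Pool.Agent.Helper87.Hyp6TCov
import Pool.Agent.Helper87.Hyp6TEuler

/-!
# The Euler characteristic of the quotient of a contractible space by a free action
-/

namespace Pool.Agent.Helper87.Hyp6T

open CategoryTheory Finsupp Module Pool.Agent.Helper63.Hyp6

/-- MODULE T (topology): Euler characteristic of a quotient of a contractible space from any
bounded, finite, free resolution by permutation modules. -/
theorem hasEulerChar_of_free_complex
    {X : Type} [TopologicalSpace X] [ContractibleSpace X]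
    {Γ : Type} [Group Γ] [MulAction Γ X] [ContinuousConstSMul Γ X]
    (hX : ∀ x : X, ∃ U ∈ nhds x, ∀ g : Γ, ((g • ·) '' U ∩ U).Nonempty → g = 1)
    (K : ℕ → Type) [∀ k, MulAction Γ (K k)]
    (hfree : ∀ k (g : Γ) (a : K k), g • a = a → g = 1)
    (d : ∀ k, (K (k + 1) →₀ ℚ) →ₗ[ℚ] (K k →₀ ℚ))
    (hequiv : ∀ k (g : Γ) (z : K (k + 1) →₀ ℚ),
      d k (z.mapDomain (g • ·)) = (d k z).mapDomain (g • ·))
    (hexact : ∀ k (z : K (k + 1) →₀ ℚ), d k z = 0 ↔ ∃ y, d (k + 1) y = z)
    (haug : ∀ z : K 0 →₀ ℚ, (z.sum fun _ c => c) = 0 ↔ ∃ y, d 0 y = z)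
    (hne : Nonempty (K 0))
    (N : ℕ) (hN : ∀ k, N < k → IsEmpty (K k))
    (hfin : ∀ k, Finite (MulAction.orbitRel.Quotient Γ (K k)))
    {Y : Type} [TopologicalSpace Y] (q : X → Y) (hq : Topology.IsQuotientMap q)
    (hqo : ∀ x y, q x = q y ↔ ∃ g : Γ, g • x = y) :
    HasEulerChar Y (∑ k ∈ Finset.range (N + 1),
      (-1 : ℤ) ^ k * Nat.card (MulAction.orbitRel.Quotient Γ (K k))) := by
  classical
  let Q : C(X, Y) := ⟨q, hq.continuous⟩
  have hQ : IsQuotientCoveringMap Q Γ :=
    { hq, (inferInstance : ContinuousConstSMul Γ X) with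
      apply_eq_iff_mem_orbit := by
        intro e₁ e₂
        constructor
        · intro h
          obtain ⟨g, hg⟩ := (hqo e₂ e₁).1 h.symm
          exact ⟨g, hg⟩
        · rintro ⟨g, hg⟩
          exact ((hqo e₂ e₁).2 ⟨g, hg⟩).symm
      disjoint := hX }
  have hp : ∀ k (a b : K k), (Quotient.mk _ a : MulAction.orbitRel.Quotient Γ (K k)) =
      Quotient.mk _ b ↔ ∃ g : Γ, g • a = b := by
    intro k a b
    rw [Quotient.eq, MulAction.orbitRel_apply]
    constructor
    · rintro ⟨g, hg⟩
      refine ⟨g⁻¹, ?_⟩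
      rw [← hg]
      simp
    · rintro ⟨g, hg⟩
      refine ⟨g⁻¹, ?_⟩
      rw [← hg]
      simp
  choose DQ hDQ using fun k => exists_descend (Γ := Γ)
    (fun a => (Quotient.mk _ a : MulAction.orbitRel.Quotient Γ (K (k + 1))))
    (fun a => (Quotient.mk _ a : MulAction.orbitRel.Quotient Γ (K k)))
    Quotient.mk_surjective (fun a b h => (hp _ a b).1 h)
    (fun g b => ((hp _ b (g • b)).2 ⟨g, rfl⟩).symm) (d k) (hequiv k)
  let R : FreeRes Γ :=
    { A := K
      act := inferInstance
      D := d
      equi := hequiv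
      free := hfree
      exact := hexact
      exact0 := fun z => by rw [aug_eq_sum]; exact haug z
      ne := hne
      Q := fun k => MulAction.orbitRel.Quotient Γ (K k)
      p := fun k a => Quotient.mk _ a
      psurj := fun k => Quotient.mk_surjective
      pfib := hp
      DQ := DQ
      pD := hDQ }
  obtain ⟨E⟩ := FreeRes.nonempty_homotopyEquiv (singRes Q hQ) R
  have hR : ∀ n, Module.Finite ℚ (R.cc.X n) := by
    intro n
    change Module.Finite ℚ (MulAction.orbitRel.Quotient Γ (K n) →₀ ℚ)
    have := hfin n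
    infer_instance
  have hR' : ∀ n, N < n → Subsingleton (R.cc.X n) := by
    intro n hn
    change Subsingleton (MulAction.orbitRel.Quotient Γ (K n) →₀ ℚ)
    have := hN n hn
    have : IsEmpty (MulAction.orbitRel.Quotient Γ (K n)) := ⟨fun a => by
      induction a using Quotient.inductionOn with
      | h a => exact isEmptyElim a⟩
    infer_instance
  obtain ⟨h1, h2, h3⟩ := cc_euler R.cc hR N hR'
  have e : ∀ n, homology Y n ≃ₗ[ℚ] R.cc.homology n := fun n =>
    ((HomologicalComplex.homologyFunctor _ _ n).mapIso (singIso Q hQ) ≪≫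
      E.toHomologyIso n).toLinearEquiv
  refine ⟨fun i => ?_, N, fun i hi => ?_, ?_⟩
  · have := h1 i
    exact Module.Finite.equiv (e i).symm
  · have := h2 i hi
    exact (e i).toEquiv.subsingleton
  · have h4 : ∀ i, finrank ℚ (homology Y i) = finrank ℚ (R.cc.homology i) := fun i =>
      (e i).finrank_eq
    simp only [h4]
    rw [h3]
    refine Finset.sum_congr rfl fun i _ => ?_
    congr 2
    change finrank ℚ (MulAction.orbitRel.Quotient Γ (K i) →₀ ℚ) = _
    have := hfin i
    have := Fintype.ofFinite (MulAction.orbitRel.Quotient Γ (K i))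
    rw [finrank_finsupp_self, Nat.card_eq_fintype_card]

end Pool.Agent.Helper87.Hyp6T

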