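import Pool.Agent.Helper87.Hyp6Lor

/-!
# A fundamental set of finite volume for the reflection group of the 27 walls
-/

namespace Pool.Agent.Helper87.Hyp6V

open Pool.Agent.Helper63.Hyp6
open scoped Matrix

abbrev MZ := Matrix (Fin 7) (Fin 7) ℤ

/-- The finite group of integral Lorentz matrices fixing the centre. -/
def G0 : Set MZ := {A | (∀ x y, lorZ (A *ᵥ x) (A *ᵥ y) = lorZ x y) ∧ A *ᵥ cc = cc}

/-- integral Gram matrix -/
def JZ : MZ := Matrix.diagonal (fun i => if i = 0 then -1 else 1)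

lemma lorZ_eq (x y : Fin 7 → ℤ) : lorZ x y = x ⬝ᵥ (JZ *ᵥ y) := by
  unfold lorZ JZ dotProduct
  simp only [Matrix.mulVec_diagonal]
  rw [Fin.sum_univ_succ (n := 6)]
  simp only [if_true]
  have : ∀ i : Fin 6, (if i.succ = (0 : Fin 7) then (-1 : ℤ) else 1) = 1 := fun i => by
    rw [if_neg (Fin.succ_ne_zero i)]
  simp only [this]
  ring_nf

lemma JZ_mul_JZ : JZ * JZ = 1 := by
  unfold JZ
  rw [Matrix.diagonal_mul_diagonal, ← Matrix.diagonal_one]
  congr 1
  funext i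
  by_cases h : i = 0 <;> simp [h]

lemma gram {A : MZ} (h : ∀ x y, lorZ (A *ᵥ x) (A *ᵥ y) = lorZ x y) : Aᵀ * JZ * A = JZ := by
  ext i j
  have h2 := h (Pi.single i 1) (Pi.single j 1)
  rw [lorZ_eq, lorZ_eq, Matrix.mulVec_mulVec, ← Matrix.vecMul_transpose,
    ← Matrix.dotProduct_mulVec, Matrix.mulVec_mulVec, Matrix.mulVec_single_one,
    Matrix.mulVec_single_one] at h2
  rw [single_one_dotProduct, single_one_dotProduct] at h2
  simpa [Matrix.mul_assoc] using h2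

/-- the inverse -/
def inv' (A : MZ) : MZ := JZ * Aᵀ * JZ

lemma inv'_mul {A : MZ} (hA : A ∈ G0) : inv' A * A = 1 := by
  unfold inv'
  rw [Matrix.mul_assoc, Matrix.mul_assoc, ← Matrix.mul_assoc Aᵀ, gram hA.1, JZ_mul_JZ]

lemma mul_inv' {A : MZ} (hA : A ∈ G0) : A * inv' A = 1 :=
  mul_eq_one_comm.1 (inv'_mul hA)

lemma inv'_mem {A : MZ} (hA : A ∈ G0) : inv' A ∈ G0 := by
  constructor
  · intro x y
    rw [← hA.1, Matrix.mulVec_mulVec, Matrix.mulVec_mulVec, mul_inv' hA, Matrix.one_mulVec,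
      Matrix.one_mulVec]
  · conv_lhs => rw [← hA.2]
    rw [Matrix.mulVec_mulVec, inv'_mul hA, Matrix.one_mulVec]

lemma mul_mem {A B : MZ} (hA : A ∈ G0) (hB : B ∈ G0) : A * B ∈ G0 := by
  constructor
  · intro x y
    rw [← Matrix.mulVec_mulVec, ← Matrix.mulVec_mulVec, hA.1, hB.1]
  · rw [← Matrix.mulVec_mulVec, hB.2, hA.2]

lemma one_mem : (1 : MZ) ∈ G0 := ⟨fun x y => by simp, by simp⟩

/-- Bounded vectors. -/
lemma bound_vec {w : Fin 7 → ℤ} {a b : ℤ} (ha : lorZ w w = a) (hb : lorZ w cc = b)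
    (ha2 : a ≤ 1) (hb1 : -3 ≤ b) (hb2 : b ≤ 3) (i : Fin 7) : |w i| ≤ 20 := by
  have cs : (∑ i : Fin 6, w i.succ) ^ 2 ≤ 6 * ∑ i : Fin 6, w i.succ ^ 2 := by
    have := sq_sum_le_card_mul_sum_sq (s := (Finset.univ : Finset (Fin 6)))
      (f := fun i : Fin 6 => w i.succ)
    simpa using this
  rw [lorZ_cc] at hb
  unfold lorZ at ha
  simp only [← pow_two] at ha
  have h0 : |w 0| ≤ 19 := by
    have h1 : ∑ i : Fin 6, w i.succ = b + 3 * w 0 := by linarith
    have h2 : ∑ i : Fin 6, w i.succ ^ 2 = a + w 0 ^ 2 := by linarith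
    rw [h1, h2] at cs
    rw [abs_le]
    constructor <;> nlinarith
  refine Fin.cases (by linarith) (fun j => ?_) i
  have h10 : w j.succ ^ 2 ≤ ∑ i : Fin 6, w i.succ ^ 2 :=
    Finset.single_le_sum (f := fun i : Fin 6 => w i.succ ^ 2)
      (fun i _ => sq_nonneg _) (Finset.mem_univ j)
  have h11 := abs_le.1 h0
  rw [abs_le]
  constructor <;> nlinarith

lemma entry_bound {A : MZ} (hA : A ∈ G0) (i j : Fin 7) : |A i j| ≤ 20 := by
  have h1 : A i j = (A *ᵥ Pi.single j 1) i := by rw [Matrix.mulVec_single_one]; rfl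
  rw [h1]
  have h2 : lorZ (A *ᵥ Pi.single j 1) (A *ᵥ Pi.single j 1) =
      lorZ (Pi.single j 1) (Pi.single j 1) := hA.1 _ _
  have h3 : lorZ (A *ᵥ Pi.single j 1) cc = lorZ (Pi.single j 1) cc := by
    conv_lhs => rw [← hA.2]
    exact hA.1 _ _
  have h4 : lorZ (Pi.single j 1) (Pi.single j 1) = if j = 0 then -1 else 1 := by
    rw [lorZ_eq]
    unfold JZ
    rw [single_one_dotProduct, Matrix.mulVec_single_one]
    simp
  have h5 : lorZ (Pi.single j 1) cc = if j = 0 then -3 else 1 := by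
    rw [lorZ_eq, single_one_dotProduct]
    unfold JZ
    rw [Matrix.mulVec_diagonal]
    refine Fin.cases ?_ (fun k => ?_) j
    · simp [cc]
    · simp [cc]
  rw [h4] at h2
  rw [h5] at h3
  refine bound_vec h2 h3 ?_ ?_ ?_ i <;> split_ifs <;> norm_num

lemma finite_G0 : G0.Finite := by
  have h : (Set.Icc (fun _ _ => -20 : Fin 7 → Fin 7 → ℤ) (fun _ _ => 20)).Finite :=
    Set.finite_Icc _ _
  refine h.subset ?_
  intro A hA
  exact ⟨fun i j => (abs_le.1 (entry_bound hA i j)).1, fun i j => (abs_le.1 (entry_bound hA i j)).2⟩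

/-- the real matrix -/
def mR (A : MZ) : Matrix (Fin 7) (Fin 7) ℝ := A.map (Int.cast : ℤ → ℝ)

lemma mR_mul (A B : MZ) : mR (A * B) = mR A * mR B := by
  unfold mR
  exact Matrix.map_mul_intCast A B

lemma mR_one : mR 1 = 1 := by
  unfold mR
  exact Matrix.map_one _ (by simp) (by simp)

lemma mR_mulVec (A : MZ) (w : Fin 7 → ℤ) : mR A *ᵥ toR w = toR (A *ᵥ w) := by
  funext i
  simp [mR, toR, Matrix.mulVec, dotProduct]

lemma lor_mR {A : MZ} (hA : A ∈ G0) (x y : Fin 7 → ℝ) :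
    lor (mR A *ᵥ x) (mR A *ᵥ y) = lor x y := by
  have h1 : (mR A)ᵀ * JJ * mR A = JJ := by
    have h2 := congrArg mR (gram hA.1)
    rw [mR_mul, mR_mul] at h2
    have h3 : mR JZ = JJ := by
      unfold mR JZ JJ
      ext i j
      simp only [Matrix.map_apply, Matrix.diagonal_apply]
      split_ifs <;> simp
    have h4 : mR Aᵀ = (mR A)ᵀ := rfl
    rwa [h3, h4] at h2
  rw [lor_eq, lor_eq, Matrix.mulVec_mulVec, ← Matrix.vecMul_transpose, ← Matrix.dotProduct_mulVec,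
    Matrix.mulVec_mulVec, ← Matrix.mul_assoc, h1]

/-- the future cone is preserved -/
lemma pos_mR {A : MZ} (hA : A ∈ G0) {x : Fin 7 → ℝ} (hx : lor x x < 0) (hx0 : 0 < x 0) :
    0 < (mR A *ᵥ x) 0 := by
  have h1 : lor (toR cc) (toR cc) < 0 := by rw [lor_toR, lorZ_cc_cc]; norm_num
  have h2 : 0 < toR cc 0 := by simp [toR, cc]
  have h3 : lor (toR cc) x < 0 := by
    have h4 := lor_le (x := toR cc) hx hx0
    have h5 : 0 < toR cc 0 - Real.sqrt (∑ i : Fin 6, toR cc i.succ * toR cc i.succ) := by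
      rw [sub_pos, Real.sqrt_lt' h2]
      simp [toR, cc]; norm_num
    have := mul_pos h5 hx0
    linarith
  refine pos_of_lor h1 h2 (by rw [lor_mR hA]; exact hx) ?_
  have h6 : toR cc = mR A *ᵥ toR cc := by rw [mR_mulVec, hA.2]
  rw [h6, lor_mR hA]
  exact h3

/-- The vector `e_0 + e_i + e_j + e_k`. -/
def al (i j k : Fin 6) : Fin 7 → ℤ :=
  Fin.cons 1 (fun l => if l = i ∨ l = j ∨ l = k then 1 else 0)

lemma sum_al {M : Type*} [AddCommMonoid M] (f : Fin 6 → M) {i j k : Fin 6} (hij : i ≠ j)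
    (hik : i ≠ k) (hjk : j ≠ k) :
    (∑ l : Fin 6, if l = i ∨ l = j ∨ l = k then f l else 0) = f i + f j + f k := by
  rw [← Finset.sum_filter]
  have : (Finset.univ.filter fun l : Fin 6 => l = i ∨ l = j ∨ l = k) = {i, j, k} := by
    ext l; simp
  rw [this, Finset.sum_insert (by simp [hij, hik]), Finset.sum_insert (by simp [hjk]),
    Finset.sum_singleton, add_assoc]

lemma lorZ_al {i j k : Fin 6} (hij : i ≠ j) (hik : i ≠ k) (hjk : j ≠ k) (x : Fin 7 → ℤ) :
    lorZ x (al i j k) = -x 0 + (x i.succ + x j.succ + x k.succ) := by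
  unfold lorZ al
  simp only [Fin.cons_zero, Fin.cons_succ, mul_one, mul_ite, mul_zero]
  rw [sum_al (fun l : Fin 6 => x l.succ) hij hik hjk]

lemma lor_al {i j k : Fin 6} (hij : i ≠ j) (hik : i ≠ k) (hjk : j ≠ k) (x : Fin 7 → ℝ) :
    lor x (toR (al i j k)) = -x 0 + (x i.succ + x j.succ + x k.succ) := by
  unfold lor al toR
  simp only [Fin.cons_zero, Fin.cons_succ, Int.cast_one, mul_one, Int.cast_ite, Int.cast_zero,
    mul_ite, mul_zero]
  rw [sum_al (fun l : Fin 6 => x l.succ) hij hik hjk]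

/-- The reflection in `al i j k`. -/
def Ral (i j k : Fin 6) : MZ := fun a b => (if a = b then 1 else 0) -
  al i j k a * (if b = 0 then -1 else 1) * al i j k b

lemma Ral_mulVec {i j k : Fin 6} (x : Fin 7 → ℤ) :
    Ral i j k *ᵥ x = fun a => x a - lorZ x (al i j k) * al i j k a := by
  funext a
  rw [lorZ_eq]
  unfold JZ
  simp only [Matrix.mulVec, dotProduct, Ral, Matrix.diagonal_apply, sub_mul, Finset.sum_sub_distrib]
  congr 1
  · simp
  · rw [Finset.sum_mul]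
    refine Finset.sum_congr rfl fun b _ => ?_
    simp
    split_ifs <;> ring

lemma lorZ_sub_mul (x y z : Fin 7 → ℤ) (c : ℤ) :
    lorZ (fun a => x a - c * z a) y = lorZ x y - c * lorZ z y := by
  unfold lorZ
  simp only [sub_mul, Finset.sum_sub_distrib, mul_add, Finset.mul_sum]
  have : ∀ i : Fin 6, c * z i.succ * y i.succ = c * (z i.succ * y i.succ) := fun i => by ring
  simp only [this]
  ring

lemma lorZ_comm (x y : Fin 7 → ℤ) : lorZ x y = lorZ y x := by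
  unfold lorZ
  rw [mul_comm (x 0)]
  congr 1
  exact Finset.sum_congr rfl fun i _ => mul_comm _ _

lemma Ral_mem {i j k : Fin 6} (hij : i ≠ j) (hik : i ≠ k) (hjk : j ≠ k) : Ral i j k ∈ G0 := by
  have haa : lorZ (al i j k) (al i j k) = 2 := by
    rw [lorZ_al hij hik hjk]; simp [al]
  have hac : lorZ cc (al i j k) = 0 := by
    rw [lorZ_al hij hik hjk]; simp [cc]
  constructor
  · intro x y
    rw [Ral_mulVec, Ral_mulVec, lorZ_sub_mul, lorZ_comm x, lorZ_sub_mul,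
      lorZ_comm (al i j k) (fun a => y a - lorZ y (al i j k) * al i j k a), lorZ_sub_mul, haa,
      lorZ_comm (al i j k) x, lorZ_comm y x]
    ring
  · rw [Ral_mulVec, hac]
    simp

lemma toR_Ral {i j k : Fin 6} (x : Fin 7 → ℝ) :
    (mR (Ral i j k) *ᵥ x) = fun a => x a - lor x (toR (al i j k)) * (al i j k a : ℝ) := by
  funext a
  rw [lor_eq]
  unfold JJ
  simp only [Matrix.mulVec, dotProduct, Ral, mR, toR, Matrix.map_apply, Matrix.diagonal_apply]
  push_cast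
  simp only [sub_mul, Finset.sum_sub_distrib]
  congr 1
  · simp
  · rw [Finset.sum_mul]
    refine Finset.sum_congr rfl fun b _ => ?_
    simp
    split_ifs <;> ring

/-- The chamber. -/
def Del : Set H6 := {y | (∀ i : Fin 6, 0 ≤ y.1 i.succ) ∧
  ∀ i j k : Fin 6, i ≠ j → i ≠ k → j ≠ k → y.1 i.succ + y.1 j.succ + y.1 k.succ ≤ y.1 0}

/-- The action on `H6`. -/
noncomputable def act {A : MZ} (hA : A ∈ G0) (x : H6) : H6 :=
  ⟨mR A *ᵥ x.1, by rw [lor_mR hA]; exact x.2.1,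
    pos_mR hA (by rw [x.2.1]; norm_num) x.2.2⟩

lemma wall_neg (i : Fin 6) : IsWall (Fin.cons 0 (fun l => if l = i then -1 else 0)) := by
  constructor
  · simp
  · simp

lemma lor_wall_neg (i : Fin 6) (x : Fin 7 → ℝ) :
    lor x (toR (Fin.cons 0 (fun l => if l = i then -1 else 0))) = -x i.succ := by
  unfold lor toR
  simp

/-- Step (b): the polytope is covered by translates of the chamber. -/
lemma exists_chamber (x : H6) (hx : ∀ v, IsWall v → lor x.1 (toR v) ≤ 0) :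
    ∃ (A : MZ) (hA : A ∈ G0), act hA x ∈ Del := by
  obtain ⟨A, hA, hmin⟩ := Set.exists_min_image G0 (fun A => (mR A *ᵥ x.1) 0) finite_G0 ⟨1, one_mem⟩
  refine ⟨A, hA, ?_, ?_⟩
  · intro i
    set v : Fin 7 → ℤ := Fin.cons 0 (fun l => if l = i then -1 else 0) with hv
    have hw : IsWall (inv' A *ᵥ v) := by
      have h1 : lorZ (inv' A *ᵥ v) (inv' A *ᵥ v) = 1 := by
        rw [(inv'_mem hA).1]; exact (wall_neg i).norm
      have h2 : lorZ (inv' A *ᵥ v) cc = -1 := by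
        rw [← (inv'_mem hA).2, (inv'_mem hA).1]; exact (wall_neg i).center
      exact ⟨h1, by rw [← lorZ_cc]; exact h2⟩
    have h3 := hx _ hw
    rw [← mR_mulVec, ← lor_mR hA, Matrix.mulVec_mulVec, ← mR_mul, mul_inv' hA, mR_one,
      Matrix.one_mulVec, hv, lor_wall_neg] at h3
    show 0 ≤ (mR A *ᵥ x.1) i.succ
    linarith
  · intro i j k hij hik hjk
    have h1 := hmin _ (mul_mem (Ral_mem hij hik hjk) hA)
    simp only [mR_mul] at h1
    rw [← Matrix.mulVec_mulVec, toR_Ral, lor_al hij hik hjk] at h1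
    simp only [al, Fin.cons_zero, Int.cast_one, mul_one] at h1
    show (mR A *ᵥ x.1) i.succ + (mR A *ᵥ x.1) j.succ + (mR A *ᵥ x.1) k.succ ≤ (mR A *ᵥ x.1) 0
    linarith

/-- Sorted estimate. -/
lemma sorted_est {p : Fin 6 → ℝ} (hp : Antitone p) (h0 : ∀ i, 0 ≤ p i) {z t : ℝ} (hz : 0 ≤ z)
    (hz3 : p 0 + p 1 + p 2 ≤ z) (ht : 0 ≤ t) (ht1 : t ≤ 1) (hz2 : z ^ 2 = t + ∑ i, p i ^ 2) :
    (∀ j, j ≠ 0 → p 0 * p j ≤ 1 ∧ p j ≤ 1) ∧ p 0 ≤ z ∧ z ^ 2 ≤ p 0 ^ 2 + 4 := by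
  have a01 : p 1 ≤ p 0 := hp (by decide)
  have a12 : p 2 ≤ p 1 := hp (by decide)
  have a23 : p 3 ≤ p 2 := hp (by decide)
  have a24 : p 4 ≤ p 2 := hp (by decide)
  have a25 : p 5 ≤ p 2 := hp (by decide)
  have b0 := h0 0
  have b1 := h0 1
  have b2 := h0 2
  have b3 := h0 3
  have b4 := h0 4
  have b5 := h0 5
  rw [Fin.sum_univ_six] at hz2
  have e1 : (p 0 + p 1 + p 2) ^ 2 ≤ z ^ 2 := pow_le_pow_left₀ (by positivity) hz3 2
  have c3 : p 3 ^ 2 ≤ p 2 ^ 2 := pow_le_pow_left₀ b3 a23 2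
  have c4 : p 4 ^ 2 ≤ p 2 ^ 2 := pow_le_pow_left₀ b4 a24 2
  have c5 : p 5 ^ 2 ≤ p 2 ^ 2 := pow_le_pow_left₀ b5 a25 2
  have d1 : p 2 ^ 2 ≤ p 0 * p 2 := by nlinarith
  have d2 : p 2 ^ 2 ≤ p 1 * p 2 := by nlinarith
  have d3 : p 2 ^ 2 ≤ p 0 * p 1 := by nlinarith
  have e2 : 2 * (p 0 * p 1) ≤ 1 := by nlinarith
  have e3 : p 1 ^ 2 ≤ p 0 * p 1 := by nlinarith
  have hj : ∀ j, j ≠ 0 → p j ≤ p 1 := by
    intro j hj
    apply hp
    rw [Fin.le_def]
    have : j.val ≠ 0 := fun h => hj (Fin.ext h)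
    show 1 ≤ j.val
    omega
  refine ⟨fun j hj0 => ?_, by linarith, ?_⟩
  · have := hj j hj0
    refine ⟨?_, ?_⟩
    · nlinarith
    · nlinarith
  · nlinarith

lemma cone_Del_subset : cone Del ⊆ ⋃ m : Fin 6, Reg m := by
  rintro v ⟨t, ht0, ht1, y, ⟨hy1, hy2⟩, rfl⟩
  set v : Fin 7 → ℝ := t • y.1 with hv
  -- sort
  set q : Fin 6 → ℝ := fun i => -v i.succ with hq
  set σ := Tuple.sort q with hσ
  have hmono : Monotone (q ∘ σ) := Tuple.monotone_sort q
  set p : Fin 6 → ℝ := fun i => v (σ i).succ with hp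
  have hanti : Antitone p := by
    intro i j hij
    have := hmono hij
    simp only [Function.comp_apply, hq] at this
    simp only [hp]
    linarith
  have hv0 : ∀ i : Fin 6, 0 ≤ v i.succ := fun i => by
    simp only [hv, Pi.smul_apply, smul_eq_mul]
    exact mul_nonneg ht0.le (hy1 i)
  have hz : 0 ≤ v 0 := by
    simp only [hv, Pi.smul_apply, smul_eq_mul]
    exact mul_nonneg ht0.le y.2.2.le
  have h3 : ∀ i j k : Fin 6, i ≠ j → i ≠ k → j ≠ k → v i.succ + v j.succ + v k.succ ≤ v 0 := by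
    intro i j k hij hik hjk
    have := mul_le_mul_of_nonneg_left (hy2 i j k hij hik hjk) ht0.le
    simp only [hv, Pi.smul_apply, smul_eq_mul]
    linarith
  have hnorm : v 0 ^ 2 = t ^ 2 + ∑ i, p i ^ 2 := by
    have h4 : ∑ i, p i ^ 2 = ∑ i : Fin 6, v i.succ ^ 2 :=
      Equiv.sum_comp σ (fun i : Fin 6 => v i.succ ^ 2)
    rw [h4]
    have h5 := y.2.1
    unfold lor at h5
    simp only [hv, Pi.smul_apply, smul_eq_mul, mul_pow]
    rw [← Finset.mul_sum]
    simp only [← pow_two] at h5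
    nlinarith
  have hne : ∀ i j : Fin 6, i ≠ j → σ i ≠ σ j := fun i j h h' => h (σ.injective h')
  obtain ⟨e1, e2, e3⟩ := sorted_est hanti (fun i => hv0 _) hz
    (h3 _ _ _ (hne 0 1 (by decide)) (hne 0 2 (by decide)) (hne 1 2 (by decide)))
    (by positivity) (by nlinarith) hnorm
  rw [Set.mem_iUnion]
  refine ⟨σ 0, hv0, ?_, e2, e3⟩
  intro j hj
  have h6 : σ.symm j ≠ 0 := fun h => hj (by rw [← h, Equiv.apply_symm_apply])
  have h7 := e1 _ h6
  simp only [hp, Equiv.apply_symm_apply] at h7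
  exact h7

lemma volume_cone_Del : MeasureTheory.volume (cone Del) < ⊤ := by
  refine (MeasureTheory.measure_mono cone_Del_subset).trans_lt ?_
  refine (MeasureTheory.measure_iUnion_le _).trans_lt ?_
  rw [tsum_fintype]
  exact ENNReal.sum_lt_top.2 fun m _ => volume_Reg m

/-- The fundamental set. -/
def Dom : Set H6 := {x | ∃ (A : MZ) (hA : A ∈ G0), act hA x ∈ Del}

lemma isIsometry_inv {A : MZ} (hA : A ∈ G0) : IsIsometry (mR (inv' A)) := by
  refine ⟨lor_mR (inv'_mem hA), ?_⟩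
  have h1 : lor (Pi.single 0 1) (Pi.single 0 1) < 0 := by
    rw [lor_eq, single_one_dotProduct]
    unfold JJ
    simp
  have h2 := pos_mR (inv'_mem hA) h1 (by simp)
  rw [Matrix.mulVec_single_one] at h2
  exact h2

lemma volume_cone_Dom : MeasureTheory.volume (cone Dom) < ⊤ := by
  classical
  have hfin := finite_G0
  have h1 : cone Dom ⊆ ⋃ A ∈ hfin.toFinset, cone {x : H6 | ∃ hA : A ∈ G0, act hA x ∈ Del} := by
    rintro v ⟨t, ht0, ht1, y, ⟨A, hA, hy⟩, rfl⟩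
    rw [Set.mem_iUnion₂]
    exact ⟨A, hfin.mem_toFinset.2 hA, t, ht0, ht1, y, ⟨hA, hy⟩, rfl⟩
  refine (MeasureTheory.measure_mono h1).trans_lt ?_
  refine (MeasureTheory.measure_biUnion_finset_le _ _).trans_lt ?_
  refine ENNReal.sum_lt_top.2 fun A hA' => ?_
  have hA : A ∈ G0 := hfin.mem_toFinset.1 hA'
  refine (volume_cone_image (mR (inv' A)) (isIsometry_inv hA) Del _ ?_).trans_lt volume_cone_Del
  rintro y ⟨_, hy⟩
  refine ⟨act hA y, hy, ?_⟩
  show mR (inv' A) *ᵥ (mR A *ᵥ y.1) = y.1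
  rw [Matrix.mulVec_mulVec, ← mR_mul, inv'_mul hA, mR_one, Matrix.one_mulVec]

/-- MODULE V (finite covolume): every point of H6 is moved by a product of the 27 wall
reflections into a set of finite volume. -/
theorem exists_fundamental_set :
    ∃ D : Set H6, MeasureTheory.volume (cone D) < ⊤ ∧
      ∀ x : H6, ∃ l : List (Fin 7 → ℤ), (∀ v ∈ l, IsWall v) ∧
        ∃ y ∈ D, l.foldr refl x.1 = y.1 := by
  refine ⟨Dom, volume_cone_Dom, fun x => ?_⟩
  obtain ⟨l, hl, h⟩ := exists_polytope x.2.1 x.2.2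
  have h1 := foldr_H6 hl (a := -1) (by norm_num) x.2.1 x.2.2
  refine ⟨l, hl, ⟨l.foldr refl x.1, h1⟩, ?_, rfl⟩
  exact exists_chamber ⟨l.foldr refl x.1, h1⟩ h

end Pool.Agent.Helper87.Hyp6V
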