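import Pool.Agent.Helper87.AGGlue

/-!
# The Darboux atlas of the glued space and the involution
-/

namespace Pool.Agent.Helper87.AG

open scoped ContDiff ComplexConjugate Topology
open Set Topology

noncomputable section

/-- `gl` as a homeomorphism. -/
def glH (b : Bool) : (ℂ × ℂ) ≃ₜ (ℂ × ℂ) where
  toFun := gl b
  invFun := gl b
  left_inv := gl_gl b
  right_inv := gl_gl b
  continuous_toFun := continuous_gl b
  continuous_invFun := continuous_gl b

namespace GlueData

variable (D : GlueData)

instance : Nonempty D.W := D.ne.to_subtype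

/-- The inclusion as a partial homeomorphism. -/
def incH (b : Bool) : OpenPartialHomeomorph D.W D.M :=
  (D.isOpenEmbedding_inc b).toOpenPartialHomeomorph (D.inc b)

/-- The coercion as a partial homeomorphism. -/
def valH : OpenPartialHomeomorph D.W (ℂ × ℂ) :=
  D.hW.isOpenEmbedding_subtypeVal.toOpenPartialHomeomorph Subtype.val

/-- The two charts. -/
def chart (b : Bool) : OpenPartialHomeomorph D.M (ℂ × ℂ) :=
  ((D.incH b).symm.trans D.valH).transHomeomorph (glH b)

lemma chart_source (b : Bool) : (D.chart b).source = range (D.inc b) := by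
  simp only [chart, OpenPartialHomeomorph.transHomeomorph_source,
    OpenPartialHomeomorph.trans_source, OpenPartialHomeomorph.symm_source]
  simp [incH, valH]

lemma chart_inc (b : Bool) (x : D.W) : D.chart b (D.inc b x) = gl b x := by
  have h1 : (D.incH b).symm (D.inc b x) = x :=
    (D.isOpenEmbedding_inc b).toOpenPartialHomeomorph_left_inv
  simp only [chart, OpenPartialHomeomorph.transHomeomorph_apply, OpenPartialHomeomorph.coe_trans,
    Function.comp_apply]
  rw [h1]
  rfl

lemma inc_mem_source (b : Bool) (x : D.W) : D.inc b x ∈ (D.chart b).source := by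
  rw [chart_source]; exact mem_range_self x

lemma chart_target (b : Bool) : (D.chart b).target = {y | gl b y ∈ D.W} := by
  have h1 : (D.chart b).target = D.chart b '' (D.chart b).source :=
    (OpenPartialHomeomorph.image_source_eq_target _).symm
  rw [h1, chart_source]
  ext y
  constructor
  · rintro ⟨_, ⟨x, rfl⟩, rfl⟩
    rw [chart_inc]
    show gl b (gl b x) ∈ D.W
    rw [gl_gl]; exact x.2
  · intro hy
    refine ⟨D.inc b ⟨gl b y, hy⟩, mem_range_self _, ?_⟩
    rw [chart_inc]
    exact gl_gl b y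

lemma chart_symm (b : Bool) {y : ℂ × ℂ} (hy : gl b y ∈ D.W) :
    (D.chart b).symm y = D.inc b ⟨gl b y, hy⟩ := by
  have h1 : D.chart b (D.inc b ⟨gl b y, hy⟩) = y := by
    rw [chart_inc]; exact gl_gl b y
  conv_lhs => rw [← h1]
  exact (D.chart b).left_inv (D.inc_mem_source b _)

lemma inc_mem_source_not {b : Bool} {x : D.W} (h : D.inc b x ∈ (D.chart (!b)).source) :
    (x : ℂ × ℂ) ∈ D.N := by
  rw [chart_source] at h
  obtain ⟨y, hy⟩ := h
  exact (D.inc_eq_inc_not.1 hy.symm).1

lemma inc_eq_of_mem_N {b : Bool} {x : D.W} (h : (x : ℂ × ℂ) ∈ D.N) :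
    D.inc b x = D.inc (!b) ⟨D.T x, D.hNW (D.hT h)⟩ :=
  D.inc_eq_inc_not.2 ⟨h, rfl⟩

lemma chart_not_inc {b : Bool} {x : D.W} (h : (x : ℂ × ℂ) ∈ D.N) :
    D.chart (!b) (D.inc b x) = gl (!b) (D.T x) := by
  rw [D.inc_eq_of_mem_N h, chart_inc]

/-- The coordinate change between the two charts. -/
def chg (b : Bool) (y : ℂ × ℂ) : ℂ × ℂ := gl (!b) (D.T (gl b y))

lemma isOpen_pre (b : Bool) {S : Set (ℂ × ℂ)} (hS : IsOpen S) : IsOpen (gl b ⁻¹' S) :=
  hS.preimage (continuous_gl b)

lemma pulls_T_gl (b b' : Bool) :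
    Pulls (sg b' * (-1 * sg b)) (gl b ⁻¹' D.N) (fun y => gl b' (D.T (gl b y))) := by
  have h1 : Pulls (-1 * sg b) (gl b ⁻¹' D.N) (fun y => D.T (gl b y)) :=
    D.anti.comp ((pulls_gl b).mono (subset_univ _)) (isOpen_pre b D.hN) D.hN
      (fun y hy => hy)
  exact (pulls_gl b').comp h1 (isOpen_pre b D.hN) isOpen_univ (fun _ _ => mem_univ _)

lemma pulls_id (s : Set (ℂ × ℂ)) : Pulls 1 s (fun y => y) := by
  refine ⟨contDiff_id.contDiffOn, fun x _ u v => ?_⟩
  simp

lemma sg_not (b : Bool) : sg (!b) * (-1 * sg b) = 1 := by cases b <;> simp [sg]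

lemma eq_or_not (b b' : Bool) : b' = b ∨ b' = !b := by cases b <;> cases b' <;> simp

lemma compat (b b' : Bool) :
    Pulls 1 ((D.chart b).symm.trans (D.chart b')).source
      ((D.chart b).symm.trans (D.chart b')) := by
  have hopen : IsOpen ((D.chart b).symm.trans (D.chart b')).source :=
    ((D.chart b).symm.trans (D.chart b')).open_source
  have hsrc : ∀ y ∈ ((D.chart b).symm.trans (D.chart b')).source,
      ∃ hy : gl b y ∈ D.W, D.inc b ⟨gl b y, hy⟩ ∈ (D.chart b').source := by
    intro y hy
    rw [OpenPartialHomeomorph.trans_source, OpenPartialHomeomorph.symm_source, chart_target] at hy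
    refine ⟨hy.1, ?_⟩
    rw [← chart_symm]
    exact hy.2
  rcases eq_or_not b b' with rfl | rfl
  · refine (pulls_id _).congr hopen fun y hy => ?_
    obtain ⟨h1, h2⟩ := hsrc y hy
    rw [OpenPartialHomeomorph.coe_trans, Function.comp_apply, D.chart_symm _ h1, chart_inc]
    exact gl_gl _ y
  · have h3 : Pulls 1 ((D.chart b).symm.trans (D.chart (!b))).source
        (fun y => gl (!b) (D.T (gl b y))) := by
      have := D.pulls_T_gl b (!b)
      rw [sg_not] at this
      refine this.mono fun y hy => ?_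
      obtain ⟨h1, h2⟩ := hsrc y hy
      exact D.inc_mem_source_not h2
    refine h3.congr hopen fun y hy => ?_
    obtain ⟨h1, h2⟩ := hsrc y hy
    rw [OpenPartialHomeomorph.coe_trans, Function.comp_apply, D.chart_symm _ h1]
    exact D.chart_not_inc (D.inc_mem_source_not h2)

/-- The Darboux atlas. -/
def atlas : DarbouxAtlas D.M where
  charts := range D.chart
  cover := by
    intro p
    obtain ⟨b, x, rfl⟩ := D.exists_inc p
    exact ⟨_, ⟨b, rfl⟩, D.inc_mem_source b x⟩
  compat := by
    rintro _ ⟨b, rfl⟩ _ ⟨b', rfl⟩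
    exact D.compat b b'

lemma swap_anti : IsAntisymplecticInvolution D.atlas D.swap := by
  refine ⟨D.continuous_swap, D.swap_swap, ?_⟩
  rintro _ ⟨b, rfl⟩ _ ⟨b', rfl⟩
  have hopen : IsOpen ((D.chart b).target ∩ (D.chart b).symm ⁻¹' (D.swap ⁻¹' (D.chart b').source)) :=
    (D.chart b).symm.isOpen_inter_preimage ((D.chart b').open_source.preimage D.continuous_swap)
  have hsrc : ∀ y ∈ ((D.chart b).target ∩ (D.chart b).symm ⁻¹' (D.swap ⁻¹' (D.chart b').source)),
      ∃ hy : gl b y ∈ D.W, D.inc (!b) ⟨gl b y, hy⟩ ∈ (D.chart b').source := by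
    intro y hy
    have h1 : gl b y ∈ D.W := by
      have := hy.1
      rwa [chart_target] at this
    refine ⟨h1, ?_⟩
    have h2 := hy.2
    rw [mem_preimage, mem_preimage, D.chart_symm _ h1, swap_inc] at h2
    exact h2
  rcases eq_or_not b b' with rfl | rfl
  · have h3 : Pulls (-1) ((D.chart b').target ∩
        (D.chart b').symm ⁻¹' (D.swap ⁻¹' (D.chart b').source))
        (fun y => gl b' (D.T (gl b' y))) := by
      have := D.pulls_T_gl b' b'
      have hs : sg b' * (-1 * sg b') = -1 := by cases b' <;> simp [sg]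
      rw [hs] at this
      refine this.mono fun y hy => ?_
      obtain ⟨h1, h2⟩ := hsrc y hy
      exact D.inc_mem_source_not (b := !b') (by rwa [Bool.not_not])
    refine h3.congr hopen fun y hy => ?_
    obtain ⟨h1, h2⟩ := hsrc y hy
    have h4 : gl b' y ∈ D.N := D.inc_mem_source_not (b := !b') (x := ⟨gl b' y, h1⟩)
      (by rwa [Bool.not_not])
    show D.chart b' (D.swap ((D.chart b').symm y)) = _
    rw [D.chart_symm _ h1, swap_inc]
    have h5 := D.chart_not_inc (b := !b') (x := ⟨gl b' y, h1⟩) h4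
    rw [Bool.not_not] at h5
    exact h5
  · have h3 : Pulls (-1) ((D.chart b).target ∩
        (D.chart b).symm ⁻¹' (D.swap ⁻¹' (D.chart (!b)).source))
        (fun y => gl (!b) (gl b y)) := by
      have h4 := ((pulls_gl (!b)).comp (pulls_gl b) isOpen_univ isOpen_univ
        (fun _ _ => mem_univ _))
      have hs : sg (!b) * sg b = -1 := by cases b <;> simp [sg]
      rw [hs] at h4
      exact h4.mono (subset_univ _)
    refine h3.congr hopen fun y hy => ?_
    obtain ⟨h1, h2⟩ := hsrc y hy
    show D.chart (!b) (D.swap ((D.chart b).symm y)) = _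
    rw [D.chart_symm _ h1, swap_inc, chart_inc]

end GlueData

end

end Pool.Agent.Helper87.AG
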