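import Pool.Agent.Helper87.AGMain

/-!
# Connectedness of the glued space
-/

namespace Pool.Agent.Helper87.AG

open scoped ContDiff ComplexConjugate Topology
open Set

noncomputable section

lemma isPreconnected_annulus {A : Set ℝ} (hA : A.OrdConnected) (h0 : A ⊆ Ici 0) :
    IsPreconnected {z : ℂ | nsq z ∈ A} := by
  have h1 : IsPreconnected (A ×ˢ (univ : Set ℝ)) := hA.isPreconnected.prod isPreconnected_univ
  let f : ℝ × ℝ → ℂ := fun p => (Real.sqrt p.1 : ℂ) * Complex.exp ((p.2 : ℂ) * Complex.I)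
  have hf : Continuous f := by
    unfold f
    fun_prop
  have h2 : {z : ℂ | nsq z ∈ A} = f '' (A ×ˢ (univ : Set ℝ)) := by
    ext z
    constructor
    · intro hz
      refine ⟨(nsq z, z.arg), ⟨hz, mem_univ _⟩, ?_⟩
      show (Real.sqrt (nsq z) : ℂ) * Complex.exp ((z.arg : ℂ) * Complex.I) = z
      rw [nsq_eq_norm, Real.sqrt_sq (norm_nonneg z)]
      exact Complex.norm_mul_exp_arg_mul_I z
    · rintro ⟨⟨s, θ⟩, ⟨hs, _⟩, rfl⟩
      show nsq ((Real.sqrt s : ℂ) * Complex.exp ((θ : ℂ) * Complex.I)) ∈ A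
      rw [nsq_mul, nsq_exp, nsq_real, Real.sq_sqrt (h0 hs), mul_one]
      exact hs
  rw [h2]
  exact h1.image _ hf.continuousOn

lemma isPreconnected_rect {A B : Set ℝ} (hA : A.OrdConnected) (hB : B.OrdConnected)
    (hA0 : A ⊆ Ici 0) (hB0 : B ⊆ Ici 0) :
    IsPreconnected {y : ℂ × ℂ | nsq y.1 ∈ A ∧ nsq y.2 ∈ B} :=
  (isPreconnected_annulus hA hA0).prod (isPreconnected_annulus hB hB0)

lemma mem_sqrt {s k : ℝ} (hs : 0 ≤ s) (hk : 0 ≤ k) :
    nsq ((Real.sqrt s : ℝ) : ℂ) = s ∧ nsq ((Real.sqrt k : ℝ) : ℂ) = k := by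
  rw [nsq_real, nsq_real, Real.sq_sqrt hs, Real.sq_sqrt hk]
  exact ⟨rfl, rfl⟩

/-- `W` before the shear. -/
def W₀ : Set (ℂ × ℂ) := {y | (nsq y.1, nsq y.2) ∉ Cl}

lemma isPreconnected_W₀ : IsPreconnected W₀ := by
  have r1 := isPreconnected_rect (A := Ico 0 (3 / 2)) (B := Ioo (1 / 2) (3 / 2)) ordConnected_Ico
    ordConnected_Ioo (fun x hx => hx.1) (fun x hx => by
      have := hx.1; simp only [mem_Ici]; linarith)
  have r2 := isPreconnected_rect (A := Ioo 1 (3 / 2)) (B := Ici 0) ordConnected_Ioo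
    ordConnected_Ici (fun x hx => by have := hx.1; simp only [mem_Ici]; linarith) subset_rfl
  have r3 := isPreconnected_rect (A := Ici 0) (B := Ioi (3 / 2)) ordConnected_Ici
    ordConnected_Ioi subset_rfl (fun x hx => by
      have : 3 / 2 < x := hx
      simp only [mem_Ici]; linarith)
  have r4 := isPreconnected_rect (A := Ici 0) (B := Ico 0 (1 / 2)) ordConnected_Ici
    ordConnected_Ico subset_rfl (fun x hx => hx.1)
  have r5 := isPreconnected_rect (A := Ioi (3 / 2)) (B := Ici 0) ordConnected_Ioi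
    ordConnected_Ici (fun x hx => by
      have : 3 / 2 < x := hx
      simp only [mem_Ici]; linarith) subset_rfl
  have r6 := isPreconnected_rect (A := Ico 0 (1 / 2)) (B := Ici 0) ordConnected_Ico
    ordConnected_Ici (fun x hx => hx.1) subset_rfl
  have m : ∀ s k : ℝ, 0 ≤ s → 0 ≤ k →
      nsq ((((Real.sqrt s : ℝ) : ℂ), ((Real.sqrt k : ℝ) : ℂ)) : ℂ × ℂ).1 = s ∧
      nsq ((((Real.sqrt s : ℝ) : ℂ), ((Real.sqrt k : ℝ) : ℂ)) : ℂ × ℂ).2 = k :=
    fun s k hs hk => mem_sqrt hs hk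
  have u1 := r1.union (((Real.sqrt (5 / 4) : ℝ) : ℂ), ((Real.sqrt 1 : ℝ) : ℂ))
    (by rw [mem_ofPred_eq, (m (5/4) 1 (by norm_num) (by norm_num)).1,
      (m (5/4) 1 (by norm_num) (by norm_num)).2]; constructor <;> constructor <;> norm_num)
    (by rw [mem_ofPred_eq, (m (5/4) 1 (by norm_num) (by norm_num)).1,
      (m (5/4) 1 (by norm_num) (by norm_num)).2]; refine ⟨⟨by norm_num, by norm_num⟩, ?_⟩
        simp) r2
  have u2 := u1.union (((Real.sqrt (5 / 4) : ℝ) : ℂ), ((Real.sqrt 2 : ℝ) : ℂ))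
    (by
      refine Or.inr ?_
      rw [mem_ofPred_eq, (m (5/4) 2 (by norm_num) (by norm_num)).1,
      (m (5/4) 2 (by norm_num) (by norm_num)).2]; refine ⟨⟨by norm_num, by norm_num⟩, ?_⟩
      simp)
    (by rw [mem_ofPred_eq, (m (5/4) 2 (by norm_num) (by norm_num)).1,
      (m (5/4) 2 (by norm_num) (by norm_num)).2]; refine ⟨?_, ?_⟩
        · show (0 : ℝ) ≤ 5 / 4
          norm_num
        · show (3 / 2 : ℝ) < 2
          norm_num) r3
  have u3 := u2.union (((Real.sqrt (5 / 4) : ℝ) : ℂ), ((Real.sqrt 0 : ℝ) : ℂ))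
    (by
      refine Or.inl (Or.inr ?_)
      rw [mem_ofPred_eq, (m (5/4) 0 (by norm_num) (by norm_num)).1,
      (m (5/4) 0 (by norm_num) (by norm_num)).2]; refine ⟨⟨by norm_num, by norm_num⟩, ?_⟩
      simp)
    (by rw [mem_ofPred_eq, (m (5/4) 0 (by norm_num) (by norm_num)).1,
      (m (5/4) 0 (by norm_num) (by norm_num)).2]; refine ⟨?_, ⟨by norm_num, by norm_num⟩⟩
        show (0 : ℝ) ≤ 5 / 4
        norm_num) r4
  have u4 := u3.union (((Real.sqrt 2 : ℝ) : ℂ), ((Real.sqrt 2 : ℝ) : ℂ))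
    (by
      refine Or.inl (Or.inr ?_)
      rw [mem_ofPred_eq, (m 2 2 (by norm_num) (by norm_num)).1]; refine ⟨?_, ?_⟩
      · show (0 : ℝ) ≤ 2
        norm_num
      · show (3 / 2 : ℝ) < 2
        norm_num)
    (by rw [mem_ofPred_eq, (m 2 2 (by norm_num) (by norm_num)).1]; refine ⟨?_, ?_⟩
        · show (3 / 2 : ℝ) < 2
          norm_num
        · show (0 : ℝ) ≤ 2
          norm_num) r5
  have u5 := u4.union (((Real.sqrt 0 : ℝ) : ℂ), ((Real.sqrt 2 : ℝ) : ℂ))
    (by
      refine Or.inl (Or.inl (Or.inr ?_))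
      rw [mem_ofPred_eq, (m 0 2 (by norm_num) (by norm_num)).1,
      (m 0 2 (by norm_num) (by norm_num)).2]; refine ⟨?_, ?_⟩
      · show (0 : ℝ) ≤ 0
        norm_num
      · show (3 / 2 : ℝ) < 2
        norm_num)
    (by rw [mem_ofPred_eq, (m 0 2 (by norm_num) (by norm_num)).1,
      (m 0 2 (by norm_num) (by norm_num)).2]; refine ⟨⟨by norm_num, by norm_num⟩, ?_⟩
        show (0 : ℝ) ≤ 2
        norm_num) r6
  convert u5 using 1
  ext y
  have hs := nsq_nonneg y.1
  have hk := nsq_nonneg y.2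
  simp only [W₀, Cl, mem_ofPred_eq, mem_union, mem_Ico, mem_Ioo, mem_Ici, mem_Ioi]
  generalize nsq y.1 = s at hs
  generalize nsq y.2 = k at hk
  constructor
  · intro h
    push Not at h
    obtain ⟨h1, h2⟩ := h
    rcases lt_trichotomy k (1 / 2) with h3 | h3 | h3
    · left; left; right; exact ⟨hs, hk, h3⟩
    · rcases lt_or_ge s (1 / 2) with h4 | h4
      · right; exact ⟨⟨hs, h4⟩, hk⟩
      · have h5 : 1 < s := by
          by_contra h5
          exact (h2 ⟨h4, not_lt.1 h5⟩).1 h3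
        rcases lt_trichotomy s (3 / 2) with h6 | h6 | h6
        · left; left; left; left; right; exact ⟨⟨h5, h6⟩, hk⟩
        · exact absurd (h1 h6 h3.ge) (by linarith)
        · left; right; exact ⟨h6, hk⟩
    · rcases lt_trichotomy k (3 / 2) with h4 | h4 | h4
      · rcases lt_trichotomy s (3 / 2) with h6 | h6 | h6
        · left; left; left; left; left; exact ⟨⟨hs, h6⟩, h3, h4⟩
        · exact absurd (h1 h6 h3.le) (by linarith)
        · left; right; exact ⟨h6, hk⟩
      · rcases lt_or_ge s (1 / 2) with h7 | h7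
        · right; exact ⟨⟨hs, h7⟩, hk⟩
        · have h5 : 1 < s := by
            by_contra h5
            exact (h2 ⟨h7, not_lt.1 h5⟩).2 h4
          rcases lt_trichotomy s (3 / 2) with h6 | h6 | h6
          · left; left; left; left; right; exact ⟨⟨h5, h6⟩, hk⟩
          · exact absurd (h1 h6 h3.le) (by linarith)
          · left; right; exact ⟨h6, hk⟩
      · left; left; left; right; exact ⟨hs, h4⟩
  · rintro (((((h | h) | h) | h) | h) | h) (⟨h1, h2, h3⟩ | ⟨⟨h1, h2⟩, h3 | h3⟩) <;> linarith [h.1, h.2]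

lemma isPreconnected_Wc : IsPreconnected Wc := by
  have h1 : Wc = shear (fun s => -Fc s) '' W₀ := by
    ext x
    constructor
    · intro hx
      exact ⟨shear Fc x, hx, shear_neg_shear x⟩
    · rintro ⟨y, hy, rfl⟩
      show qq (shear (fun s => -Fc s) y) ∉ Cl
      unfold qq
      rw [shear_shear_neg]
      exact hy
  rw [h1]
  exact isPreconnected_W₀.image _ (continuous_shear contDiff_Fc').continuousOn

instance : ConnectedSpace Dc.M := by
  have hW : PreconnectedSpace Dc.W := isPreconnected_iff_preconnectedSpace.1 isPreconnected_Wc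
  have h1 : ∀ b, IsPreconnected (range (Dc.inc b)) := fun b => by
    exact isPreconnected_range (Dc.continuous_inc b)
  have hN : ((1 : ℂ), (1 : ℂ)) ∈ Nc := torus_mem (by simp [nsq]) (by simp [nsq])
  have h2 : Dc.inc false ⟨((1 : ℂ), (1 : ℂ)), Nc_sub hN⟩ ∈ range (Dc.inc true) := by
    rw [Dc.inc_eq_of_mem_N (b := false) (x := ⟨((1 : ℂ), (1 : ℂ)), Nc_sub hN⟩) hN]
    exact mem_range_self _
  have h3 := (h1 false).union _ (mem_range_self _) h2 (h1 true)
  have h4 : range (Dc.inc false) ∪ range (Dc.inc true) = univ := by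
    refine eq_univ_of_forall fun p => ?_
    obtain ⟨b, x, rfl⟩ := Dc.exists_inc p
    cases b
    · exact Or.inl (mem_range_self x)
    · exact Or.inr (mem_range_self x)
  rw [h4] at h3
  exact { isPreconnected_univ := h3, toNonempty := ⟨Dc.inc false ⟨_, Nc_sub hN⟩⟩ }

end

end Pool.Agent.Helper87.AG
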