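import Mathlib

/-!
# Symplectic four-manifolds by Darboux atlases, anti-symplectic involutions, Hamiltonian flows

Definitions used in the statement of `Pool.Agent.Results.MP_718994_gt.Displaced.result`.
-/

namespace Pool.Agent.Helper87.AG

open scoped ContDiff ComplexConjugate

noncomputable section

/-- The standard symplectic form of `ℂ × ℂ = ℝ⁴`: with `z = x + i y`, `w = p + i q` it is
`dx ∧ dy + dp ∧ dq`. -/
def om (u v : ℂ × ℂ) : ℝ := (conj u.1 * v.1 + conj u.2 * v.2).im

/-- On the set `s` (open in all uses) the map `f` is smooth and pulls `om` back to `c * om`. -/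
def Pulls (c : ℝ) (s : Set (ℂ × ℂ)) (f : ℂ × ℂ → ℂ × ℂ) : Prop :=
  ContDiffOn ℝ ∞ f s ∧
    ∀ x ∈ s, ∀ u v : ℂ × ℂ, om (fderiv ℝ f x u) (fderiv ℝ f x v) = c * om u v

/-- A symplectic structure on the space `M`, given by a Darboux atlas: charts onto open subsets of
`ℂ × ℂ` that cover `M`, with smooth transition maps preserving `om`. -/
structure DarbouxAtlas (M : Type) [TopologicalSpace M] where
  charts : Set (OpenPartialHomeomorph M (ℂ × ℂ))
  cover : ∀ x : M, ∃ e ∈ charts, x ∈ e.source
  compat : ∀ e ∈ charts, ∀ e' ∈ charts, Pulls 1 (e.symm.trans e').source (e.symm.trans e')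

variable {M : Type} [TopologicalSpace M]

/-- `τ` is a (continuous and, in charts, smooth) involution of `M` that changes the sign of the
symplectic form. -/
structure IsAntisymplecticInvolution (A : DarbouxAtlas M) (τ : M → M) : Prop where
  continuous : Continuous τ
  involutive : ∀ x, τ (τ x) = x
  anti : ∀ e ∈ A.charts, ∀ e' ∈ A.charts,
    Pulls (-1) (e.target ∩ e.symm ⁻¹' (τ ⁻¹' e'.source)) (fun x => e' (τ (e.symm x)))

/-- `H : M → ℝ` is smooth with compact support, and `φ` is the flow of the vector field `X` given by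
`om(X, ·) = dH`: every curve `t ↦ φ t x` is continuous, starts at `x` and, in every chart, solves
the differential equation of `X`. -/
structure IsHamiltonianFlow (A : DarbouxAtlas M) (H : M → ℝ) (φ : ℝ → M → M) : Prop where
  smooth : ∀ e ∈ A.charts, ContDiffOn ℝ ∞ (fun x => H (e.symm x)) e.target
  support : HasCompactSupport H
  start : ∀ x, φ 0 x = x
  continuous : ∀ x, Continuous fun t => φ t x
  flow : ∀ x t, ∀ e ∈ A.charts, φ t x ∈ e.source →
    ∃ v : ℂ × ℂ, HasDerivAt (fun r => e (φ r x)) v t ∧
      ∀ u, om v u = fderiv ℝ (fun y => H (e.symm y)) (e (φ t x)) u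

end

end Pool.Agent.Helper87.AG
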