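import Pool.Agent.Helper87.AGShear

/-!
# The explicit Hamiltonian `G(|z-2|²) X(|w|²)` and its flow
-/

namespace Pool.Agent.Helper87.AG

open scoped ContDiff ComplexConjugate Topology
open Set

noncomputable section

/-- The Hamiltonian. -/
def ham (G X : ℝ → ℝ) (x : ℂ × ℂ) : ℝ := G (nsq (x.1 - 2)) * X (nsq x.2)

/-- angular speed of the first factor -/
def a1 (G X : ℝ → ℝ) (x : ℂ × ℂ) : ℝ := -2 * (deriv G (nsq (x.1 - 2)) * X (nsq x.2))

/-- angular speed of the second factor -/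
def a2 (G X : ℝ → ℝ) (x : ℂ × ℂ) : ℝ := -2 * (G (nsq (x.1 - 2)) * deriv X (nsq x.2))

/-- The flow of the Hamiltonian. -/
def flo (G X : ℝ → ℝ) (t : ℝ) (x : ℂ × ℂ) : ℂ × ℂ :=
  (2 + Complex.exp ((t * a1 G X x : ℝ) * Complex.I) * (x.1 - 2),
    Complex.exp ((t * a2 G X x : ℝ) * Complex.I) * x.2)

variable {G X : ℝ → ℝ}

lemma contDiff_ham (hG : ContDiff ℝ ∞ G) (hX : ContDiff ℝ ∞ X) : ContDiff ℝ ∞ (ham G X) := by
  unfold ham
  exact (hG.comp (contDiff_nsq.comp (contDiff_fst.sub contDiff_const))).mul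
    (hX.comp (contDiff_nsq.comp contDiff_snd))

lemma nsq_flo1 (t : ℝ) (x : ℂ × ℂ) : nsq ((flo G X t x).1 - 2) = nsq (x.1 - 2) := by
  have : (flo G X t x).1 - 2 = Complex.exp ((t * a1 G X x : ℝ) * Complex.I) * (x.1 - 2) := by
    simp [flo]
  rw [this, nsq_mul, nsq_exp, one_mul]

lemma nsq_flo2 (t : ℝ) (x : ℂ × ℂ) : nsq (flo G X t x).2 = nsq x.2 := by
  simp only [flo]
  rw [nsq_mul, nsq_exp, one_mul]

lemma flo_zero (x : ℂ × ℂ) : flo G X 0 x = x := by
  ext1 <;> simp [flo]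

lemma hasDerivAt_ham (hG : ContDiff ℝ ∞ G) (hX : ContDiff ℝ ∞ X) (x u : ℂ × ℂ) :
    HasDerivAt (fun t : ℝ => ham G X (x + t • u))
      (deriv G (nsq (x.1 - 2)) * (2 * ((x.1 - 2).re * u.1.re + (x.1 - 2).im * u.1.im)) *
          X (nsq x.2) +
        G (nsq (x.1 - 2)) * (deriv X (nsq x.2) * (2 * (x.2.re * u.2.re + x.2.im * u.2.im)))) 0 := by
  have hG1 : ∀ s, HasDerivAt G (deriv G s) s := fun s =>
    (hG.differentiable (by simp) s).hasDerivAt
  have hX1 : ∀ s, HasDerivAt X (deriv X s) s := fun s =>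
    (hX.differentiable (by simp) s).hasDerivAt
  have h1 := hasDerivAt_nsq (x.1 - 2) u.1
  have h2 := hasDerivAt_nsq x.2 u.2
  have e1 : nsq (x.1 - 2 + (0 : ℝ) • u.1) = nsq (x.1 - 2) := by simp
  have e2 : nsq (x.2 + (0 : ℝ) • u.2) = nsq x.2 := by simp
  have h3 : HasDerivAt (fun t : ℝ => G (nsq (x.1 - 2 + t • u.1)))
      (deriv G (nsq (x.1 - 2)) * (2 * ((x.1 - 2).re * u.1.re + (x.1 - 2).im * u.1.im))) 0 := by
    have := HasDerivAt.comp (0 : ℝ) (h₂ := G) (h := fun t : ℝ => nsq (x.1 - 2 + t • u.1)) (by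
      rw [e1]; exact hG1 _) h1
    exact this
  have h4 : HasDerivAt (fun t : ℝ => X (nsq (x.2 + t • u.2)))
      (deriv X (nsq x.2) * (2 * (x.2.re * u.2.re + x.2.im * u.2.im))) 0 := by
    have := HasDerivAt.comp (0 : ℝ) (h₂ := X) (h := fun t : ℝ => nsq (x.2 + t • u.2)) (by
      rw [e2]; exact hX1 _) h2
    exact this
  have h5 := h3.mul h4
  have e9 : (fun t : ℝ => ham G X (x + t • u)) =
      ((fun t : ℝ => G (nsq (x.1 - 2 + t • u.1))) * fun t : ℝ => X (nsq (x.2 + t • u.2))) := by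
    funext t
    simp only [ham, Pi.mul_apply, Prod.fst_add, Prod.smul_fst, Prod.snd_add, Prod.smul_snd]
    rw [show x.1 + t • u.1 - 2 = x.1 - 2 + t • u.1 by ring]
  rw [e9]
  refine h5.congr_deriv ?_
  rw [e1, e2]

lemma hasDerivAt_rot (θ t : ℝ) (z : ℂ) :
    HasDerivAt (fun r : ℝ => Complex.exp ((r * θ : ℝ) * Complex.I) * z)
      ((θ : ℂ) * Complex.I * (Complex.exp ((t * θ : ℝ) * Complex.I) * z)) t := by
  have h1 : HasDerivAt (fun r : ℝ => r * θ) θ t := by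
    simpa using (hasDerivAt_id t).mul_const θ
  have h2 := ((h1.ofReal_comp.mul_const Complex.I).cexp).mul_const z
  refine h2.congr_deriv ?_
  ring

lemma flo_flow (hG : ContDiff ℝ ∞ G) (hX : ContDiff ℝ ∞ X) (x : ℂ × ℂ) (t : ℝ) :
    ∃ v, HasDerivAt (fun r => flo G X r x) v t ∧
      ∀ u, om v u = fderiv ℝ (ham G X) (flo G X t x) u := by
  refine ⟨((a1 G X x : ℂ) * Complex.I * (Complex.exp ((t * a1 G X x : ℝ) * Complex.I) * (x.1 - 2)),
    (a2 G X x : ℂ) * Complex.I * (Complex.exp ((t * a2 G X x : ℝ) * Complex.I) * x.2)), ?_, ?_⟩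
  · exact ((hasDerivAt_rot _ _ _).const_add 2).prodMk (hasDerivAt_rot _ _ _)
  · intro u
    have hd : DifferentiableAt ℝ (ham G X) (flo G X t x) :=
      (contDiff_ham hG hX).differentiable (by simp) _
    rw [fderiv_eq_of_line hd (hasDerivAt_ham hG hX _ u), nsq_flo1, nsq_flo2]
    have e1 : (flo G X t x).1 - 2 = Complex.exp ((t * a1 G X x : ℝ) * Complex.I) * (x.1 - 2) := by
      simp [flo]
    have e2 : (flo G X t x).2 = Complex.exp ((t * a2 G X x : ℝ) * Complex.I) * x.2 := rfl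
    rw [e1, e2]
    generalize Complex.exp ((t * a1 G X x : ℝ) * Complex.I) * (x.1 - 2) = p
    generalize Complex.exp ((t * a2 G X x : ℝ) * Complex.I) * x.2 = q
    simp only [om, a1, a2]
    generalize deriv G (nsq (x.1 - 2)) = g
    generalize deriv X (nsq x.2) = k
    simp
    ring

/-- The flow is trivial where the Hamiltonian vanishes locally. -/
lemma flo_fix_of_zero {t : ℝ} {x : ℂ × ℂ} (h1 : a1 G X x = 0) (h2 : a2 G X x = 0) :
    flo G X t x = x := by
  ext1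
  · simp [flo, h1]
  · simp [flo, h2]

/-! ### The concrete cut-off functions -/

/-- radial profile -/
def Gc (J : ℝ) : ℝ := -(Real.pi / 2) * J * Real.smoothTransition (11 - J)

/-- cut-off -/
def Xc (K : ℝ) : ℝ :=
  Real.smoothTransition (8 * (K - 3 / 4)) * Real.smoothTransition (8 * (5 / 4 - K))

/-- shear profile -/
def Fc (s : ℝ) : ℝ := 3 * Real.smoothTransition (4 * s - 5)

lemma contDiff_Gc : ContDiff ℝ ∞ Gc := by
  unfold Gc
  have h1 : ContDiff ℝ ∞ Real.smoothTransition := Real.smoothTransition.contDiff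
  exact (contDiff_const.mul contDiff_id).mul (h1.comp (contDiff_const.sub contDiff_id))

lemma contDiff_Xc : ContDiff ℝ ∞ Xc := by
  unfold Xc
  have h1 : ContDiff ℝ ∞ Real.smoothTransition := Real.smoothTransition.contDiff
  exact (h1.comp (contDiff_const.mul (contDiff_id.sub contDiff_const))).mul
    (h1.comp (contDiff_const.mul (contDiff_const.sub contDiff_id)))

lemma contDiff_Fc : ContDiff ℝ ∞ Fc := by
  unfold Fc
  have h1 : ContDiff ℝ ∞ Real.smoothTransition := Real.smoothTransition.contDiff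
  exact contDiff_const.mul (h1.comp ((contDiff_const.mul contDiff_id).sub contDiff_const))

lemma Gc_big {J : ℝ} (h : 11 ≤ J) : Gc J = 0 := by
  unfold Gc
  rw [Real.smoothTransition.zero_of_nonpos (by linarith)]; ring

lemma Gc_small {J : ℝ} (h : J ≤ 10) : Gc J = -(Real.pi / 2) * J := by
  unfold Gc
  rw [Real.smoothTransition.one_of_one_le (by linarith)]; ring

lemma deriv_Gc_big {J : ℝ} (h : 11 < J) : deriv Gc J = 0 := by
  have : Gc =ᶠ[𝓝 J] fun _ => 0 := by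
    filter_upwards [Ioi_mem_nhds h] with y hy
    exact Gc_big (le_of_lt hy)
  rw [this.deriv_eq]; simp

lemma deriv_Gc_small {J : ℝ} (h : J < 10) : deriv Gc J = -(Real.pi / 2) := by
  have : Gc =ᶠ[𝓝 J] fun J => -(Real.pi / 2) * J := by
    filter_upwards [Iio_mem_nhds h] with y hy
    exact Gc_small (le_of_lt hy)
  rw [this.deriv_eq]
  have h2 := (hasDerivAt_id J).const_mul (-(Real.pi / 2))
  have h3 : HasDerivAt (fun J => -(Real.pi / 2) * J) (-(Real.pi / 2) * 1) J := h2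
  rw [h3.deriv, mul_one]

lemma Xc_zero_left {K : ℝ} (h : K ≤ 3 / 4) : Xc K = 0 := by
  unfold Xc
  rw [Real.smoothTransition.zero_of_nonpos (by linarith)]; ring

lemma Xc_zero_right {K : ℝ} (h : 5 / 4 ≤ K) : Xc K = 0 := by
  unfold Xc
  rw [Real.smoothTransition.zero_of_nonpos (x := 8 * (5 / 4 - K)) (by linarith)]; ring

lemma Xc_one {K : ℝ} (h1 : 7 / 8 ≤ K) (h2 : K ≤ 9 / 8) : Xc K = 1 := by
  unfold Xc
  rw [Real.smoothTransition.one_of_one_le (by linarith),
    Real.smoothTransition.one_of_one_le (by linarith)]; ring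

lemma deriv_Xc_left {K : ℝ} (h : K < 3 / 4) : deriv Xc K = 0 := by
  have : Xc =ᶠ[𝓝 K] fun _ => 0 := by
    filter_upwards [Iio_mem_nhds h] with y hy
    exact Xc_zero_left (le_of_lt hy)
  rw [this.deriv_eq]; simp

lemma deriv_Xc_right {K : ℝ} (h : 5 / 4 < K) : deriv Xc K = 0 := by
  have : Xc =ᶠ[𝓝 K] fun _ => 0 := by
    filter_upwards [Ioi_mem_nhds h] with y hy
    exact Xc_zero_right (le_of_lt hy)
  rw [this.deriv_eq]; simp

lemma deriv_Xc_one : deriv Xc 1 = 0 := by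
  have : Xc =ᶠ[𝓝 1] fun _ => 1 := by
    filter_upwards [Icc_mem_nhds (show (7 / 8 : ℝ) < 1 by norm_num)
      (show (1 : ℝ) < 9 / 8 by norm_num)] with y hy
    exact Xc_one hy.1 hy.2
  rw [this.deriv_eq]; simp

lemma Fc_small {s : ℝ} (h : s ≤ 5 / 4) : Fc s = 0 := by
  unfold Fc
  rw [Real.smoothTransition.zero_of_nonpos (by linarith)]; ring

lemma Fc_big {s : ℝ} (h : 3 / 2 ≤ s) : Fc s = 3 := by
  unfold Fc
  rw [Real.smoothTransition.one_of_one_le (by linarith)]; ring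

lemma deriv_Fc_one : deriv Fc 1 = 0 := by
  have : Fc =ᶠ[𝓝 1] fun _ => 0 := by
    filter_upwards [Iio_mem_nhds (show (1 : ℝ) < 5 / 4 by norm_num)] with y hy
    exact Fc_small (le_of_lt hy)
  rw [this.deriv_eq]; simp

/-- The compact set containing the support. -/
def Kc : Set (ℂ × ℂ) := {x | nsq (x.1 - 2) ≤ 11 ∧ 3 / 4 ≤ nsq x.2 ∧ nsq x.2 ≤ 5 / 4}

lemma nsq_eq_norm (z : ℂ) : nsq z = ‖z‖ ^ 2 := by
  rw [← Complex.normSq_eq_norm_sq, Complex.normSq_apply]
  unfold nsq; ring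

lemma isCompact_Kc : IsCompact Kc := by
  have hcl : IsClosed Kc := by
    have h1 : Continuous fun x : ℂ × ℂ => nsq (x.1 - 2) :=
      continuous_nsq.comp (continuous_fst.sub continuous_const)
    have h2 : Continuous fun x : ℂ × ℂ => nsq x.2 := continuous_nsq.comp continuous_snd
    exact (isClosed_le h1 continuous_const).inter
      ((isClosed_le continuous_const h2).inter (isClosed_le h2 continuous_const))
  refine (((isCompact_closedBall (2 : ℂ) 4).prod (isCompact_closedBall (0 : ℂ) 4))).of_isClosed_subset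
    hcl ?_
  rintro x ⟨h1, h2, h3⟩
  rw [nsq_eq_norm] at h1 h2 h3
  refine ⟨?_, ?_⟩
  · rw [mem_closedBall_iff_norm]
    nlinarith [norm_nonneg (x.1 - 2)]
  · rw [mem_closedBall_iff_norm, sub_zero]
    nlinarith [norm_nonneg x.2]

lemma ham_zero {x : ℂ × ℂ} (hx : x ∉ Kc) : ham Gc Xc x = 0 := by
  unfold ham
  by_cases h1 : nsq (x.1 - 2) ≤ 11
  · by_cases h2 : 3 / 4 ≤ nsq x.2
    · have h3 : ¬ nsq x.2 ≤ 5 / 4 := fun h3 => hx ⟨h1, h2, h3⟩
      rw [Xc_zero_right (by linarith), mul_zero]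
    · rw [Xc_zero_left (by linarith), mul_zero]
  · rw [Gc_big (by linarith), zero_mul]

lemma flo_fix {t : ℝ} {x : ℂ × ℂ} (hx : x ∉ Kc) : flo Gc Xc t x = x := by
  apply flo_fix_of_zero
  · unfold a1
    by_cases h1 : nsq (x.1 - 2) ≤ 11
    · by_cases h2 : 3 / 4 ≤ nsq x.2
      · have h3 : ¬ nsq x.2 ≤ 5 / 4 := fun h3 => hx ⟨h1, h2, h3⟩
        rw [Xc_zero_right (by linarith)]; ring
      · rw [Xc_zero_left (by linarith)]; ring
    · rw [deriv_Gc_big (by linarith)]; ring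
  · unfold a2
    by_cases h1 : nsq (x.1 - 2) ≤ 11
    · by_cases h2 : 3 / 4 ≤ nsq x.2
      · have h3 : ¬ nsq x.2 ≤ 5 / 4 := fun h3 => hx ⟨h1, h2, h3⟩
        rw [deriv_Xc_right (by linarith)]; ring
      · rw [deriv_Xc_left (by linarith)]; ring
    · rw [Gc_big (by linarith)]; ring

lemma flo_stay {t : ℝ} {x : ℂ × ℂ} (hx : x ∈ Kc) : flo Gc Xc t x ∈ Kc := by
  obtain ⟨h1, h2, h3⟩ := hx
  refine ⟨?_, ?_, ?_⟩
  · rw [nsq_flo1]; exact h1
  · rw [nsq_flo2]; exact h2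
  · rw [nsq_flo2]; exact h3

/-- The time one map on the torus `|z| = |w| = 1`. -/
lemma flo_one {x : ℂ × ℂ} (h1 : nsq x.1 = 1) (h2 : nsq x.2 = 1) :
    flo Gc Xc 1 x = (4 - x.1, x.2) := by
  have h3 : nsq (x.1 - 2) < 10 := by
    have h4 : nsq (x.1 - 2) = nsq x.1 - 4 * x.1.re + 4 := by
      simp only [nsq, Complex.sub_re, Complex.sub_im, Complex.re_ofNat, Complex.im_ofNat]; ring
    rw [h4, h1]
    unfold nsq at h1
    nlinarith [sq_nonneg x.1.im, sq_nonneg (x.1.re + 1)]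
  have h5 : a1 Gc Xc x = Real.pi := by
    unfold a1
    rw [deriv_Gc_small h3, h2, Xc_one (by norm_num) (by norm_num)]
    ring
  have h6 : a2 Gc Xc x = 0 := by
    unfold a2
    rw [h2, deriv_Xc_one]; ring
  ext1
  · simp only [flo, h5, one_mul, Complex.exp_pi_mul_I]
    ring
  · simp [flo, h6]

end

end Pool.Agent.Helper87.AG
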