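import Pool.Agent.Helper87.AGPulls

/-!
# Gluing two copies of an open set of `ℂ × ℂ` by an anti-symplectic involution
-/

namespace Pool.Agent.Helper87.AG

open scoped ContDiff ComplexConjugate Topology
open Set Topology

noncomputable section

/-- The data of the gluing. -/
structure GlueData where
  W : Set (ℂ × ℂ)
  N : Set (ℂ × ℂ)
  T : ℂ × ℂ → ℂ × ℂ
  ne : W.Nonempty
  hW : IsOpen W
  hN : IsOpen N
  hNW : N ⊆ W
  hT : MapsTo T N N
  hTT : ∀ x ∈ N, T (T x) = x
  anti : Pulls (-1) N T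
  haus : ∀ x ∈ W, ∀ y ∈ W,
    (x, y) ∈ closure {p : (ℂ × ℂ) × (ℂ × ℂ) | p.1 ∈ N ∧ p.2 = T p.1} → x ∈ N

namespace GlueData

variable (D : GlueData)

/-- The gluing relation. -/
def setoid : Setoid (Bool × D.W) where
  r p q := p = q ∨ (p.1 ≠ q.1 ∧ (p.2 : ℂ × ℂ) ∈ D.N ∧ (q.2 : ℂ × ℂ) = D.T p.2)
  iseqv :=
    { refl := fun p => Or.inl rfl
      symm := by
        rintro p q (h | ⟨h1, h2, h3⟩)
        · exact Or.inl h.symm
        · refine Or.inr ⟨h1.symm, ?_, ?_⟩
          · rw [h3]; exact D.hT h2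
          · rw [h3]; exact (D.hTT _ h2).symm
      trans := by
        rintro p q r (h | ⟨h1, h2, h3⟩) (k | ⟨k1, k2, k3⟩)
        · exact Or.inl (h.trans k)
        · subst h; exact Or.inr ⟨k1, k2, k3⟩
        · subst k; exact Or.inr ⟨h1, h2, h3⟩
        · refine Or.inl ?_
          have e1 : p.1 = r.1 := by
            cases hp : p.1 <;> cases hq : q.1 <;> cases hr : r.1 <;> simp_all
          have e2 : (p.2 : ℂ × ℂ) = r.2 := by
            rw [k3, h3, D.hTT _ h2]
          exact Prod.ext e1 (Subtype.ext e2) }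

/-- The glued space. -/
def M : Type := Quotient D.setoid

instance : TopologicalSpace D.M := inferInstanceAs (TopologicalSpace (Quotient D.setoid))

/-- The projection. -/
def pr (p : Bool × D.W) : D.M := Quotient.mk _ p

lemma pr_eq_pr {p q : Bool × D.W} : D.pr p = D.pr q ↔
    (p = q ∨ (p.1 ≠ q.1 ∧ (p.2 : ℂ × ℂ) ∈ D.N ∧ (q.2 : ℂ × ℂ) = D.T p.2)) :=
  Quotient.eq (r := D.setoid)

lemma continuous_pr : Continuous D.pr := continuous_quotient_mk'

lemma surjective_pr : Function.Surjective D.pr := Quotient.mk_surjective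

lemma isQuotientMap_pr : IsQuotientMap D.pr := isQuotientMap_quotient_mk'

lemma isOpenMap_pr : IsOpenMap D.pr := by
  intro U hU
  rw [← D.isQuotientMap_pr.isOpen_preimage]
  have h1 : ∀ b, ∃ O : Set (ℂ × ℂ), IsOpen O ∧ ∀ x : D.W, (b, x) ∈ U ↔ (x : ℂ × ℂ) ∈ O := by
    intro b
    have h2 : IsOpen ((fun x : D.W => (b, x)) ⁻¹' U) := hU.preimage (by fun_prop)
    obtain ⟨O, hO, hO2⟩ := isOpen_induced_iff.1 h2
    refine ⟨O, hO, fun x => ?_⟩
    have : x ∈ (fun x : D.W => (b, x)) ⁻¹' U ↔ x ∈ Subtype.val ⁻¹' O := by rw [hO2]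
    exact this.symm.symm
  choose O hO hO2 using h1
  have h3 : ∀ b, IsOpen (D.N ∩ D.T ⁻¹' (O b)) := fun b =>
    D.anti.1.continuousOn.isOpen_inter_preimage D.hN (hO b)
  have h4 : D.pr ⁻¹' (D.pr '' U) = U ∪ ⋃ b, {b} ×ˢ (Subtype.val ⁻¹' (D.N ∩ D.T ⁻¹' (O (!b)))) := by
    ext p
    obtain ⟨b, x⟩ := p
    simp only [mem_preimage, mem_image, mem_union, mem_iUnion, mem_prod, mem_singleton_iff,
      mem_inter_iff]
    constructor
    · rintro ⟨⟨b', y⟩, hy, hq⟩
      rw [pr_eq_pr] at hq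
      rcases hq with hq | ⟨h5, h6, h7⟩
      · left; rw [← hq]; exact hy
      · right
        simp only at h5 h6 h7
        have hb : b' = !b := by cases b <;> cases b' <;> simp_all
        refine ⟨b, rfl, ?_, ?_⟩
        · rw [h7]; exact D.hT h6
        · rw [h7, D.hTT _ h6, ← hb]; exact (hO2 _ _).1 hy
    · rintro (h | ⟨b', hb, h5, h6⟩)
      · exact ⟨_, h, rfl⟩
      · subst hb
        refine ⟨(!b, ⟨D.T x, D.hNW (D.hT h5)⟩), (hO2 _ _).2 h6, ?_⟩
        rw [pr_eq_pr]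
        right
        refine ⟨by simp, D.hT h5, ?_⟩
        simp only
        rw [D.hTT _ h5]
  rw [h4]
  refine hU.union (isOpen_iUnion fun b => (isOpen_discrete _).prod ?_)
  exact (h3 _).preimage continuous_subtype_val

lemma isOpenQuotientMap_pr : IsOpenQuotientMap D.pr :=
  ⟨D.surjective_pr, D.continuous_pr, D.isOpenMap_pr⟩

instance : SecondCountableTopology D.M :=
  D.isQuotientMap_pr.secondCountableTopology D.isOpenMap_pr

instance : T2Space D.M := by
  rw [t2Space_iff_of_isOpenQuotientMap D.isOpenQuotientMap_pr]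
  rw [← closure_subset_iff_isClosed]
  rintro ⟨p, q⟩ hpq
  rw [mem_ofPred_eq, pr_eq_pr]
  by_cases hb : p.1 = q.1
  · left
    -- the set `{p.1 = q.1}` is open
    have hop : IsOpen {r : (Bool × D.W) × (Bool × D.W) | r.1.1 = r.2.1} := by
      have : Continuous fun r : (Bool × D.W) × (Bool × D.W) => (r.1.1, r.2.1) := by fun_prop
      exact (isOpen_discrete {s : Bool × Bool | s.1 = s.2}).preimage this
    have h1 : (p, q) ∈ closure ({q : (Bool × D.W) × (Bool × D.W) | D.pr q.1 = D.pr q.2} ∩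
        {r : (Bool × D.W) × (Bool × D.W) | r.1.1 = r.2.1}) :=
      hop.closure_inter ⟨hpq, hb⟩
    have hcl : IsClosed {r : (Bool × D.W) × (Bool × D.W) | r.1 = r.2} := isClosed_diagonal
    have h2 := closure_minimal (t := {r : (Bool × D.W) × (Bool × D.W) | r.1 = r.2}) (by
      rintro ⟨r, s⟩ ⟨h3, h4⟩
      rw [mem_ofPred_eq, pr_eq_pr] at h3
      rcases h3 with h3 | h3
      · exact h3
      · exact absurd h4 h3.1) hcl h1
    exact h2
  · right
    have hop : IsOpen {r : (Bool × D.W) × (Bool × D.W) | r.1.1 ≠ r.2.1} := by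
      have : Continuous fun r : (Bool × D.W) × (Bool × D.W) => (r.1.1, r.2.1) := by fun_prop
      exact (isOpen_discrete {s : Bool × Bool | s.1 ≠ s.2}).preimage this
    have h1 : (p, q) ∈ closure ({q : (Bool × D.W) × (Bool × D.W) | D.pr q.1 = D.pr q.2} ∩
        {r : (Bool × D.W) × (Bool × D.W) | r.1.1 ≠ r.2.1}) :=
      hop.closure_inter ⟨hpq, hb⟩
    let f : (Bool × D.W) × (Bool × D.W) → (ℂ × ℂ) × (ℂ × ℂ) := fun r => (r.1.2, r.2.2)
    have hf : Continuous f := by fun_prop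
    have h2 : f (p, q) ∈ closure {p : (ℂ × ℂ) × (ℂ × ℂ) | p.1 ∈ D.N ∧ p.2 = D.T p.1} := by
      refine map_mem_closure hf h1 ?_
      rintro ⟨r, s⟩ ⟨h3, h4⟩
      rw [mem_ofPred_eq, pr_eq_pr] at h3
      rcases h3 with h3 | h3
      · exact absurd (congrArg Prod.fst h3) h4
      · exact h3.2
    have h3 : (p.2 : ℂ × ℂ) ∈ D.N := D.haus _ p.2.2 _ q.2.2 h2
    refine ⟨hb, h3, ?_⟩
    -- near `p.2` the graph is closed
    have hcont : ContinuousAt D.T p.2 := D.anti.1.continuousOn.continuousAt (D.hN.mem_nhds h3)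
    have h5 : ∃ᶠ r in 𝓝 ((p.2 : ℂ × ℂ), (q.2 : ℂ × ℂ)), r.1 ∈ D.N ∧ r.2 = D.T r.1 :=
      mem_closure_iff_frequently.1 h2
    have h6 : Filter.Tendsto (fun r : (ℂ × ℂ) × (ℂ × ℂ) => D.T r.1)
        (𝓝 ((p.2 : ℂ × ℂ), (q.2 : ℂ × ℂ))) (𝓝 (D.T p.2)) :=
      hcont.tendsto.comp (continuous_fst.tendsto _)
    have h7 : Filter.Tendsto (fun r : (ℂ × ℂ) × (ℂ × ℂ) => r.2)
        (𝓝 ((p.2 : ℂ × ℂ), (q.2 : ℂ × ℂ))) (𝓝 (q.2 : ℂ × ℂ)) := continuous_snd.tendsto _
    exact tendsto_nhds_unique_of_frequently_eq h7 h6 (h5.mono fun r hr => hr.2)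

/-- The two inclusions. -/
def inc (b : Bool) (x : D.W) : D.M := D.pr (b, x)

lemma inc_injective (b : Bool) : Function.Injective (D.inc b) := by
  intro x y h
  rcases (D.pr_eq_pr).1 h with h | h
  · exact congrArg Prod.snd h
  · exact absurd rfl h.1

lemma continuous_inc (b : Bool) : Continuous (D.inc b) :=
  D.continuous_pr.comp (by fun_prop)

lemma isOpenEmbedding_inc (b : Bool) : IsOpenEmbedding (D.inc b) := by
  refine IsOpenEmbedding.of_continuous_injective_isOpenMap (D.continuous_inc b)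
    (D.inc_injective b) ?_
  intro U hU
  have h1 : D.inc b '' U = D.pr '' ({b} ×ˢ U) := by
    ext p
    constructor
    · rintro ⟨x, hx, rfl⟩
      exact ⟨(b, x), ⟨rfl, hx⟩, rfl⟩
    · rintro ⟨⟨b', x⟩, ⟨h1, h2⟩, rfl⟩
      simp only [mem_singleton_iff] at h1
      subst h1
      exact ⟨x, h2, rfl⟩
  rw [h1]
  exact D.isOpenMap_pr _ ((isOpen_discrete _).prod hU)

lemma exists_inc (p : D.M) : ∃ b x, D.inc b x = p := by
  obtain ⟨⟨b, x⟩, rfl⟩ := D.surjective_pr p
  exact ⟨b, x, rfl⟩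

lemma inc_eq_inc_not {b : Bool} {x y : D.W} :
    D.inc b x = D.inc (!b) y ↔ (x : ℂ × ℂ) ∈ D.N ∧ (y : ℂ × ℂ) = D.T x := by
  rw [inc, inc, pr_eq_pr]
  constructor
  · rintro (h | h)
    · have := congrArg Prod.fst h
      simp at this
    · exact h.2
  · intro h
    exact Or.inr ⟨by simp, h⟩

/-- The swap of the two copies. -/
def swap : D.M → D.M :=
  Quotient.map (sa := D.setoid) (sb := D.setoid) (fun p => (!p.1, p.2)) (by
    rintro p q (h | ⟨h1, h2, h3⟩)
    · exact Or.inl (by rw [h])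
    · exact Or.inr ⟨by simpa using h1, h2, h3⟩)

lemma swap_inc (b : Bool) (x : D.W) : D.swap (D.inc b x) = D.inc (!b) x := rfl

lemma continuous_swap : Continuous D.swap := by
  rw [D.isQuotientMap_pr.continuous_iff]
  have : D.swap ∘ D.pr = fun p => D.pr (!p.1, p.2) := rfl
  rw [this]
  refine D.continuous_pr.comp ?_
  exact ((continuous_of_discreteTopology (f := fun b : Bool => !b)).comp continuous_fst).prodMk
    continuous_snd

lemma swap_swap (p : D.M) : D.swap (D.swap p) = p := by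
  obtain ⟨b, x, rfl⟩ := D.exists_inc p
  rw [swap_inc, swap_inc, Bool.not_not]

lemma fixed_iff {b : Bool} {x : D.W} :
    D.swap (D.inc b x) = D.inc b x ↔ (x : ℂ × ℂ) ∈ D.N ∧ D.T x = x := by
  rw [swap_inc, eq_comm, inc_eq_inc_not]
  constructor
  · rintro ⟨h1, h2⟩; exact ⟨h1, h2.symm⟩
  · rintro ⟨h1, h2⟩; exact ⟨h1, h2.symm⟩

end GlueData

end

end Pool.Agent.Helper87.AG
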