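import Pool.Agent.Helper87.AGAtlas

/-!
# Extending a compactly supported Hamiltonian flow to the glued space
-/

namespace Pool.Agent.Helper87.AG

open scoped ContDiff ComplexConjugate Topology
open Set Topology

noncomputable section

/-- A compactly supported Hamiltonian on `W` with its flow. -/
structure FlowData (D : GlueData) where
  h : ℂ × ℂ → ℝ
  K : Set (ℂ × ℂ)
  B : ℝ → ℂ × ℂ → ℂ × ℂ
  smooth : ContDiff ℝ ∞ h
  compact : IsCompact K
  sub : K ⊆ D.W
  zero : ∀ x, x ∉ K → h x = 0
  start : ∀ x, B 0 x = x
  stay : ∀ t, ∀ x ∈ K, B t x ∈ K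
  fix : ∀ t x, x ∉ K → B t x = x
  flow : ∀ x t, ∃ v, HasDerivAt (fun r => B r x) v t ∧ ∀ u, om v u = fderiv ℝ h (B t x) u

namespace FlowData

variable {D : GlueData} (F : FlowData D)

lemma mem_W (t : ℝ) (x : D.W) : F.B t x ∈ D.W := by
  by_cases hx : (x : ℂ × ℂ) ∈ F.K
  · exact F.sub (F.stay t x hx)
  · rw [F.fix t x hx]; exact x.2

/-- The flow on `W`. -/
def BW (t : ℝ) (x : D.W) : D.W := ⟨F.B t x, F.mem_W t x⟩

/-- The Hamiltonian on the glued space. -/
def H : D.M → ℝ := Function.extend (D.inc false) (fun x => F.h x) (fun _ => 0)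

/-- The flow on the glued space. -/
def φ (t : ℝ) : D.M → D.M :=
  Function.extend (D.inc false) (fun x => D.inc false (F.BW t x)) id

lemma H_inc (x : D.W) : F.H (D.inc false x) = F.h x :=
  (D.inc_injective false).extend_apply _ _ _

lemma φ_inc (t : ℝ) (x : D.W) : F.φ t (D.inc false x) = D.inc false (F.BW t x) :=
  (D.inc_injective false).extend_apply _ _ _

lemma φ_of_not {t : ℝ} {p : D.M} (hp : p ∉ range (D.inc false)) : F.φ t p = p :=
  Function.extend_apply' _ _ _ (by simpa using hp)

lemma H_of_not {p : D.M} (hp : p ∉ range (D.inc false)) : F.H p = 0 :=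
  Function.extend_apply' _ _ _ (by simpa using hp)

/-- The support in the glued space. -/
def KM : Set D.M := D.inc false '' (Subtype.val ⁻¹' F.K)

lemma isCompact_KM : IsCompact F.KM := by
  have h1 : IsCompact (Subtype.val ⁻¹' F.K : Set D.W) := by
    rw [IsInducing.subtypeVal.isCompact_preimage_iff]
    · exact F.compact
    · rw [Subtype.range_coe]; exact F.sub
  exact h1.image (D.continuous_inc false)

lemma H_eq_zero {p : D.M} (hp : p ∉ F.KM) : F.H p = 0 := by
  by_cases h : p ∈ range (D.inc false)
  · obtain ⟨x, rfl⟩ := h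
    rw [H_inc]
    refine F.zero _ fun hx => hp ⟨x, hx, rfl⟩
  · exact F.H_of_not h

lemma eventually_zero {b : Bool} {y : ℂ × ℂ} (hy : y ∈ (D.chart b).target)
    (h : (D.chart b).symm y ∉ F.KM) :
    (fun y => F.H ((D.chart b).symm y)) =ᶠ[𝓝 y] fun _ => 0 := by
  have h1 : IsOpen ((D.chart b).target ∩ (D.chart b).symm ⁻¹' F.KMᶜ) :=
    (D.chart b).symm.isOpen_inter_preimage F.isCompact_KM.isClosed.isOpen_compl
  filter_upwards [h1.mem_nhds ⟨hy, h⟩] with z hz
  exact F.H_eq_zero hz.2

lemma H_chart_false {y : ℂ × ℂ} (hy : y ∈ D.W) :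
    F.H ((D.chart false).symm y) = F.h y := by
  have hy' : gl false y ∈ D.W := hy
  rw [D.chart_symm _ hy', H_inc]
  rfl

lemma H_chart_true {y : ℂ × ℂ} (hy : gl true y ∈ D.N) :
    F.H ((D.chart true).symm y) = F.h (D.T (gl true y)) := by
  rw [D.chart_symm _ (D.hNW hy), D.inc_eq_of_mem_N (b := true) hy]
  exact F.H_inc _

lemma isHamiltonianFlow : IsHamiltonianFlow D.atlas F.H F.φ := by
  refine ⟨?_, ?_, ?_, ?_, ?_⟩
  · rintro _ ⟨b, rfl⟩
    cases b
    · refine (F.smooth.contDiffOn).congr fun y hy => ?_
      rw [D.chart_target] at hy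
      exact F.H_chart_false hy
    · intro y hy
      refine ContDiffAt.contDiffWithinAt ?_
      by_cases hN : gl true y ∈ D.N
      · have h1 : (fun y => F.H ((D.chart true).symm y)) =ᶠ[𝓝 y]
            fun y => F.h (D.T (gl true y)) := by
          filter_upwards [(D.hN.preimage (continuous_gl true)).mem_nhds hN] with z hz
          exact F.H_chart_true hz
        refine ContDiffAt.congr_of_eventuallyEq ?_ h1
        have h2 : ContDiffAt ℝ ∞ D.T (gl true y) := D.anti.1.contDiffAt (D.hN.mem_nhds hN)
        have h3 : ContDiffAt ℝ ∞ (gl true) y :=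
          (pulls_gl true).1.contDiffAt Filter.univ_mem
        exact F.smooth.contDiffAt.comp y (h2.comp y h3)
      · refine ContDiffAt.congr_of_eventuallyEq contDiffAt_const (F.eventually_zero hy ?_)
        rintro ⟨x, hx, hxy⟩
        have hy' : gl true y ∈ D.W := by
          rw [D.chart_target] at hy; exact hy
        rw [D.chart_symm _ hy'] at hxy
        exact hN (D.inc_eq_inc_not (b := true).1 hxy.symm).1
  · exact HasCompactSupport.intro F.isCompact_KM fun p hp => F.H_eq_zero hp
  · intro p
    by_cases h : p ∈ range (D.inc false)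
    · obtain ⟨x, rfl⟩ := h
      rw [φ_inc]
      congr 1
      exact Subtype.ext (F.start x)
    · exact F.φ_of_not h
  · intro p
    by_cases h : p ∈ range (D.inc false)
    · obtain ⟨x, rfl⟩ := h
      simp only [φ_inc]
      refine (D.continuous_inc false).comp ?_
      refine Continuous.subtype_mk ?_ _
      rw [continuous_iff_continuousAt]
      intro t
      obtain ⟨v, hv, _⟩ := F.flow x t
      exact hv.continuousAt
    · simp only [F.φ_of_not h]
      exact continuous_const
  · rintro p t _ ⟨b, rfl⟩ hp
    by_cases h : p ∈ range (D.inc false)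
    · obtain ⟨x, rfl⟩ := h
      obtain ⟨v, hv, hv2⟩ := F.flow x t
      simp only [φ_inc] at hp ⊢
      cases b
      · refine ⟨v, ?_, ?_⟩
        · simp only [D.chart_inc]
          exact hv
        · intro u
          rw [D.chart_inc, hv2]
          have h1 : (fun y => F.H ((D.chart false).symm y)) =ᶠ[𝓝 (F.B t x)] F.h := by
            filter_upwards [D.hW.mem_nhds (F.mem_W t x)] with z hz
            exact F.H_chart_false hz
          have h2 : gl false (F.BW t x : ℂ × ℂ) = F.B t x := rfl
          rw [h2, h1.fderiv_eq]
      · have hN : F.B t x ∈ D.N := D.inc_mem_source_not (b := false) hp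
        have hTd : DifferentiableAt ℝ D.T (F.B t x) := D.anti.differentiableAt D.hN hN
        have hgd : ∀ z, DifferentiableAt ℝ (gl true) z := fun z =>
          (pulls_gl true).differentiableAt isOpen_univ (mem_univ z)
        have hPd : Pulls (sg true * -1) D.N (fun z => gl true (D.T z)) :=
          (pulls_gl true).comp D.anti D.hN isOpen_univ (fun _ _ => mem_univ _)
        have hPdd : DifferentiableAt ℝ (fun z => gl true (D.T z)) (F.B t x) :=
          hPd.differentiableAt D.hN hN
        have hgg : gl true (gl true (D.T (F.B t x))) = D.T (F.B t x) := gl_gl _ _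
        have hSd : DifferentiableAt ℝ (fun y => D.T (gl true y)) (gl true (D.T (F.B t x))) := by
          have h1 : DifferentiableAt ℝ D.T (gl true (gl true (D.T (F.B t x)))) := by
            rw [hgg]; exact D.anti.differentiableAt D.hN (D.hT hN)
          exact h1.comp _ (hgd _)
        refine ⟨fderiv ℝ (fun z => gl true (D.T z)) (F.B t x) v, ?_, ?_⟩
        · have h1 : HasDerivAt (fun r => gl true (D.T (F.B r x)))
              (fderiv ℝ (fun z => gl true (D.T z)) (F.B t x) v) t :=
            HasFDerivAt.comp_hasDerivAt (l := fun z => gl true (D.T z)) t hPdd.hasFDerivAt hv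
          refine h1.congr_of_eventuallyEq ?_
          filter_upwards [hv.continuousAt.eventually_mem (D.hN.mem_nhds hN)] with r hr
          exact D.chart_not_inc (b := false) (x := F.BW r x) hr
        · intro u
          have h1 : D.chart true (D.inc false (F.BW t x)) = gl true (D.T (F.B t x)) :=
            D.chart_not_inc (b := false) (x := F.BW t x) hN
          rw [h1]
          have h2 : (fun y => F.H ((D.chart true).symm y)) =ᶠ[𝓝 (gl true (D.T (F.B t x)))]
              fun y => F.h (D.T (gl true y)) := by
            have hmem : gl true (gl true (D.T (F.B t x))) ∈ D.N := by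
              rw [hgg]; exact D.hT hN
            filter_upwards [(D.hN.preimage (continuous_gl true)).mem_nhds hmem] with z hz
            exact F.H_chart_true hz
          rw [h2.fderiv_eq]
          refine ham_transfer (T := fun z => gl true (D.T z)) (S := fun y => D.T (gl true y))
            (x := F.B t x) hPdd hSd (F.smooth.contDiffAt.differentiableAt (by simp)) ?_ ?_ ?_ hv2 u
          · have hmem : gl true (gl true (D.T (F.B t x))) ∈ D.N := by
              rw [hgg]; exact D.hT hN
            filter_upwards [(D.hN.preimage (continuous_gl true)).mem_nhds hmem] with z hz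
            show gl true (D.T (D.T (gl true z))) = z
            rw [D.hTT _ hz, gl_gl]
          · show D.T (gl true (gl true (D.T (F.B t x)))) = F.B t x
            rw [hgg, D.hTT _ hN]
          · intro u v
            have := hPd.2 _ hN u v
            rw [this]
            simp [sg]
    · simp only [F.φ_of_not h] at hp ⊢
      refine ⟨0, hasDerivAt_const _ _, fun u => ?_⟩
      have h0 : (D.chart b).symm (D.chart b p) ∉ F.KM := by
        rw [(D.chart b).left_inv hp]
        rintro ⟨x, hx, hxp⟩
        exact h ⟨x, hxp⟩
      rw [(F.eventually_zero ((D.chart b).map_source hp) h0).fderiv_eq]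
      simp [om]

end FlowData

end

end Pool.Agent.Helper87.AG
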