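import Pool.Agent.Helper87.AGHam
import Pool.Agent.Helper87.AGFlow

/-!
# The explicit gluing and the counterexample
-/

namespace Pool.Agent.Helper87.AG

open scoped ContDiff ComplexConjugate Topology
open Set

noncomputable section

/-- The pair `(|z|², |w + F(|z|²)|²)`. -/
def qq (x : ℂ × ℂ) : ℝ × ℝ := (nsq (shear Fc x).1, nsq (shear Fc x).2)

lemma continuous_shear {F : ℝ → ℝ} (hF : ContDiff ℝ ∞ F) : Continuous (shear F) :=
  (contDiff_shear hF).continuous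

lemma contDiff_Fc' : ContDiff ℝ ∞ (fun s => -Fc s) := contDiff_Fc.neg

lemma continuous_qq : Continuous qq := by
  have h := continuous_shear contDiff_Fc
  exact (continuous_nsq.comp (continuous_fst.comp h)).prodMk
    (continuous_nsq.comp (continuous_snd.comp h))

/-- The walls. -/
def Cl : Set (ℝ × ℝ) :=
  {p | p.1 = 3 / 2 ∧ 1 / 2 ≤ p.2 ∧ p.2 ≤ 3 / 2} ∪
    {p | (1 / 2 ≤ p.1 ∧ p.1 ≤ 1) ∧ (p.2 = 1 / 2 ∨ p.2 = 3 / 2)}

lemma isClosed_Cl : IsClosed Cl := by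
  refine IsClosed.union ?_ ?_
  · exact (isClosed_eq continuous_fst continuous_const).inter
      ((isClosed_le continuous_const continuous_snd).inter
        (isClosed_le continuous_snd continuous_const))
  · exact ((isClosed_le continuous_const continuous_fst).inter
        (isClosed_le continuous_fst continuous_const)).inter
      ((isClosed_eq continuous_snd continuous_const).union
        (isClosed_eq continuous_snd continuous_const))

/-- The open set `W`. -/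
def Wc : Set (ℂ × ℂ) := {x | qq x ∉ Cl}

/-- The neighbourhood `N` of the torus. -/
def Nc : Set (ℂ × ℂ) := shear Fc ⁻¹' N₀

/-- The gluing map. -/
def Tc (x : ℂ × ℂ) : ℂ × ℂ := shear (fun s => -Fc s) (sig2 (shear Fc x))

lemma isOpen_Wc : IsOpen Wc := (isClosed_Cl.isOpen_compl).preimage continuous_qq

lemma isOpen_Nc : IsOpen Nc := isOpen_N₀.preimage (continuous_shear contDiff_Fc)

lemma mem_Nc {x : ℂ × ℂ} : x ∈ Nc ↔
    (1 / 2 < (qq x).1 ∧ (qq x).1 < 3 / 2) ∧ (1 / 2 < (qq x).2 ∧ (qq x).2 < 3 / 2) := Iff.rfl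

lemma Nc_sub : Nc ⊆ Wc := by
  intro x hx
  rw [mem_Nc] at hx
  rintro (⟨h1, h2, h3⟩ | ⟨h1, h2⟩)
  · linarith [hx.1.2]
  · rcases h2 with h2 | h2
    · linarith [hx.2.1]
    · linarith [hx.2.2]

lemma shear_Tc (x : ℂ × ℂ) : shear Fc (Tc x) = sig2 (shear Fc x) := shear_shear_neg _

lemma Tc_mapsTo : MapsTo Tc Nc Nc := by
  intro x hx
  show shear Fc (Tc x) ∈ N₀
  rw [shear_Tc]
  exact sig2_mapsTo hx

lemma qq_Tc {x : ℂ × ℂ} (hx : x ∈ Nc) : qq (Tc x) = (2 - (qq x).1, 2 - (qq x).2) := by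
  unfold qq
  rw [shear_Tc]
  obtain ⟨⟨h1, h2⟩, h3, h4⟩ := hx
  ext1
  · exact nsq_sig (by linarith) (by linarith)
  · exact nsq_sig (by linarith) (by linarith)

lemma Tc_Tc {x : ℂ × ℂ} (hx : x ∈ Nc) : Tc (Tc x) = x := by
  show shear (fun s => -Fc s) (sig2 (shear Fc (Tc x))) = x
  rw [shear_Tc]
  obtain ⟨⟨h1, h2⟩, h3, h4⟩ := hx
  have h5 : sig2 (sig2 (shear Fc x)) = shear Fc x := by
    ext1
    · exact sig_sig (by linarith) (by linarith)
    · exact sig_sig (by linarith) (by linarith)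
  rw [h5]
  exact shear_neg_shear x

lemma Tc_anti : Pulls (-1) Nc Tc := by
  have h1 : Pulls (-1 * 1) Nc (fun x => sig2 (shear Fc x)) :=
    pulls_sig2.comp ((pulls_shear contDiff_Fc).mono (subset_univ _)) isOpen_Nc isOpen_N₀
      (fun x hx => hx)
  have h2 : Pulls (1 * (-1 * 1)) Nc (fun x => shear (fun s => -Fc s) (sig2 (shear Fc x))) :=
    (pulls_shear contDiff_Fc').comp h1 isOpen_Nc isOpen_univ (fun _ _ => mem_univ _)
  have h3 : (1 * (-1 * 1) : ℝ) = -1 := by norm_num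
  rw [h3] at h2
  exact h2

lemma haus_c : ∀ x ∈ Wc, ∀ y ∈ Wc,
    (x, y) ∈ closure {p : (ℂ × ℂ) × (ℂ × ℂ) | p.1 ∈ Nc ∧ p.2 = Tc p.1} → x ∈ Nc := by
  intro x hx y hy hxy
  let S : Set ((ℂ × ℂ) × (ℂ × ℂ)) := {p | ((1 / 2 ≤ (qq p.1).1 ∧ (qq p.1).1 ≤ 3 / 2) ∧
    (1 / 2 ≤ (qq p.1).2 ∧ (qq p.1).2 ≤ 3 / 2)) ∧
    ((qq p.2).1 = 2 - (qq p.1).1 ∧ (qq p.2).2 = 2 - (qq p.1).2)}
  have hS : IsClosed S := by
    have c1 : Continuous fun p : (ℂ × ℂ) × (ℂ × ℂ) => (qq p.1).1 :=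
      continuous_fst.comp (continuous_qq.comp continuous_fst)
    have c2 : Continuous fun p : (ℂ × ℂ) × (ℂ × ℂ) => (qq p.1).2 :=
      continuous_snd.comp (continuous_qq.comp continuous_fst)
    have c3 : Continuous fun p : (ℂ × ℂ) × (ℂ × ℂ) => (qq p.2).1 :=
      continuous_fst.comp (continuous_qq.comp continuous_snd)
    have c4 : Continuous fun p : (ℂ × ℂ) × (ℂ × ℂ) => (qq p.2).2 :=
      continuous_snd.comp (continuous_qq.comp continuous_snd)
    exact (((isClosed_le continuous_const c1).inter (isClosed_le c1 continuous_const)).inter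
      ((isClosed_le continuous_const c2).inter (isClosed_le c2 continuous_const))).inter
      ((isClosed_eq c3 (continuous_const.sub c1)).inter
        (isClosed_eq c4 (continuous_const.sub c2)))
  have hsub : {p : (ℂ × ℂ) × (ℂ × ℂ) | p.1 ∈ Nc ∧ p.2 = Tc p.1} ⊆ S := by
    rintro ⟨a, b⟩ ⟨h1, h2⟩
    simp only at h1 h2
    subst h2
    have h3 := qq_Tc h1
    rw [mem_Nc] at h1
    refine ⟨⟨⟨h1.1.1.le, h1.1.2.le⟩, h1.2.1.le, h1.2.2.le⟩, ?_, ?_⟩
    · show (qq (Tc a)).1 = _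
      rw [h3]
    · show (qq (Tc a)).2 = _
      rw [h3]
  obtain ⟨⟨⟨h1, h2⟩, h3, h4⟩, h5, h6⟩ := closure_minimal hsub hS hxy
  simp only at h1 h2 h3 h4 h5 h6
  have hx' : qq x ∉ Cl := hx
  have hy' : qq y ∉ Cl := hy
  rw [mem_Nc]
  -- rule out the four boundary pieces
  have a1 : (qq x).1 ≠ 3 / 2 := fun h => hx' (Or.inl ⟨h, h3, h4⟩)
  have a2 : (qq x).1 ≠ 1 / 2 := fun h => hy' (Or.inl ⟨by rw [h5, h]; norm_num,
    by rw [h6]; linarith, by rw [h6]; linarith⟩)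
  have a3 : (qq x).2 ≠ 1 / 2 := by
    intro h
    by_cases h7 : (qq x).1 ≤ 1
    · exact hx' (Or.inr ⟨⟨h1, h7⟩, Or.inl h⟩)
    · exact hy' (Or.inr ⟨⟨by rw [h5]; linarith, by rw [h5]; linarith⟩,
        Or.inr (by rw [h6, h]; norm_num)⟩)
  have a4 : (qq x).2 ≠ 3 / 2 := by
    intro h
    by_cases h7 : (qq x).1 ≤ 1
    · exact hx' (Or.inr ⟨⟨h1, h7⟩, Or.inr h⟩)
    · exact hy' (Or.inr ⟨⟨by rw [h5]; linarith, by rw [h5]; linarith⟩,
        Or.inl (by rw [h6, h]; norm_num)⟩)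
  exact ⟨⟨lt_of_le_of_ne h1 (Ne.symm a2), lt_of_le_of_ne h2 a1⟩,
    lt_of_le_of_ne h3 (Ne.symm a3), lt_of_le_of_ne h4 a4⟩

lemma shear_of_one {x : ℂ × ℂ} (h : nsq x.1 = 1) : shear Fc x = x := by
  have h1 : shang Fc x = 0 := by
    unfold shang; rw [h, deriv_Fc_one]; ring
  ext1
  · simp [shear, h1]
  · simp [shear, h, Fc_small (show (1 : ℝ) ≤ 5 / 4 by norm_num)]

lemma shear'_of_one {x : ℂ × ℂ} (h : nsq x.1 = 1) : shear (fun s => -Fc s) x = x := by
  have h1 := shear_neg_shear (F := Fc) x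
  rwa [shear_of_one h] at h1

/-- Points of the torus. -/
lemma torus_mem {x : ℂ × ℂ} (h1 : nsq x.1 = 1) (h2 : nsq x.2 = 1) : x ∈ Nc := by
  show shear Fc x ∈ N₀
  rw [shear_of_one h1]
  exact ⟨⟨by rw [h1]; norm_num, by rw [h1]; norm_num⟩, by rw [h2]; norm_num, by rw [h2]; norm_num⟩

lemma rho_one : rho 1 = 1 := by
  unfold rho; norm_num

lemma sig_of_one {z : ℂ} (h : nsq z = 1) : sig z = z := by
  unfold sig; rw [h, rho_one]; simp

lemma nsq_of_sig {z : ℂ} (h0 : 0 < nsq z) (h2 : nsq z < 2) (h : sig z = z) : nsq z = 1 := by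
  have h1 := nsq_sig h0 h2
  rw [h] at h1
  linarith

/-- The fixed points of the gluing map are the torus. -/
lemma fix_Tc {x : ℂ × ℂ} (hx : x ∈ Nc) : Tc x = x ↔ nsq x.1 = 1 ∧ nsq x.2 = 1 := by
  constructor
  · intro h
    have h1 : sig2 (shear Fc x) = shear Fc x := by
      rw [← shear_Tc, h]
    obtain ⟨⟨h3, h4⟩, h5, h6⟩ := hx
    have h7 : nsq (shear Fc x).1 = 1 :=
      nsq_of_sig (by linarith) (by linarith) (congrArg Prod.fst h1)
    have h8 : nsq (shear Fc x).2 = 1 :=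
      nsq_of_sig (by linarith) (by linarith) (congrArg Prod.snd h1)
    rw [nsq_shear_fst] at h7
    rw [shear_of_one h7] at h8
    exact ⟨h7, h8⟩
  · rintro ⟨h1, h2⟩
    unfold Tc
    rw [shear_of_one h1]
    have h3 : sig2 x = x := by
      ext1
      · exact sig_of_one h1
      · exact sig_of_one h2
    rw [h3, shear'_of_one h1]

/-- The gluing data. -/
def Dc : GlueData where
  W := Wc
  N := Nc
  T := Tc
  ne := ⟨((1 : ℂ), (1 : ℂ)), Nc_sub (torus_mem (by simp [nsq]) (by simp [nsq]))⟩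
  hW := isOpen_Wc
  hN := isOpen_Nc
  hNW := Nc_sub
  hT := Tc_mapsTo
  hTT := fun _ => Tc_Tc
  anti := Tc_anti
  haus := haus_c

lemma Kc_sub : Kc ⊆ Wc := by
  rintro x ⟨h1, h2, h3⟩
  have e1 : (qq x).1 = nsq x.1 := nsq_shear_fst _ _
  have e2 : (qq x).2 = nsq (x.2 + (Fc (nsq x.1) : ℂ)) := rfl
  rintro (⟨h4, h5, h6⟩ | ⟨⟨h4, h5⟩, h6⟩)
  · rw [e1] at h4
    rw [e2, h4, Fc_big (by norm_num)] at h6
    have h7 : nsq (x.2 + ((3 : ℝ) : ℂ)) = nsq x.2 + 6 * x.2.re + 9 := by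
      simp [nsq]; ring
    rw [h7] at h6
    -- |re| ≤ sqrt (5/4)
    unfold nsq at h3 h6 h2
    nlinarith [sq_nonneg x.2.im, sq_nonneg (x.2.re + 9 / 8), sq_nonneg (x.2.re)]
  · rw [e1] at h4 h5
    rw [e2, Fc_small (by linarith)] at h6
    simp only [Complex.ofReal_zero, add_zero] at h6
    rcases h6 with h6 | h6 <;> linarith

/-- The flow data. -/
def Fd : FlowData Dc where
  h := ham Gc Xc
  K := Kc
  B := flo Gc Xc
  smooth := contDiff_ham contDiff_Gc contDiff_Xc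
  compact := isCompact_Kc
  sub := Kc_sub
  zero := fun _ => ham_zero
  start := flo_zero
  stay := fun _ _ => flo_stay
  fix := fun _ _ => flo_fix
  flow := flo_flow contDiff_Gc contDiff_Xc

lemma nsq_circle (z : Circle) : nsq (z : ℂ) = 1 := by
  rw [nsq_eq_norm, Circle.norm_coe]; norm_num

/-- Parametrization of the fixed torus. -/
def tor (p : Circle × Circle) : Function.fixedPoints Dc.swap :=
  ⟨Dc.inc false ⟨((p.1 : ℂ), (p.2 : ℂ)), Nc_sub (torus_mem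
      (nsq_circle _) (nsq_circle _))⟩,
    Dc.fixed_iff.2 ⟨torus_mem (nsq_circle _) (nsq_circle _),
      (fix_Tc (torus_mem (nsq_circle _) (nsq_circle _))).2 ⟨nsq_circle _, nsq_circle _⟩⟩⟩

lemma continuous_tor : Continuous tor := by
  refine Continuous.subtype_mk ?_ _
  refine (Dc.continuous_inc false).comp ?_
  refine Continuous.subtype_mk ?_ _
  exact (continuous_subtype_val.comp continuous_fst).prodMk
    (continuous_subtype_val.comp continuous_snd)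

lemma tor_injective : Function.Injective tor := by
  intro p q h
  have h1 := Dc.inc_injective false (congrArg Subtype.val h)
  have h2 := congrArg Subtype.val h1
  ext
  · exact congrArg Prod.fst h2
  · exact congrArg Prod.snd h2

lemma exists_of_fixed {p : Dc.M} (hp : Dc.swap p = p) :
    ∃ x : Dc.W, Dc.inc false x = p ∧ nsq (x : ℂ × ℂ).1 = 1 ∧ nsq (x : ℂ × ℂ).2 = 1 := by
  obtain ⟨b, x, rfl⟩ := Dc.exists_inc p
  obtain ⟨h1, h2⟩ := Dc.fixed_iff.1 hp
  obtain ⟨h3, h4⟩ := (fix_Tc h1).1 h2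
  cases b
  · exact ⟨x, rfl, h3, h4⟩
  · refine ⟨x, ?_, h3, h4⟩
    exact hp

lemma tor_surjective : Function.Surjective tor := by
  rintro ⟨p, hp⟩
  obtain ⟨x, rfl, h1, h2⟩ := exists_of_fixed hp
  rw [nsq_eq_norm] at h1 h2
  have h3 : ‖(x : ℂ × ℂ).1‖ = 1 := by
    nlinarith [norm_nonneg (x : ℂ × ℂ).1]
  have h4 : ‖(x : ℂ × ℂ).2‖ = 1 := by
    nlinarith [norm_nonneg (x : ℂ × ℂ).2]
  refine ⟨(⟨(x : ℂ × ℂ).1, mem_sphere_zero_iff_norm.2 h3⟩,
    ⟨(x : ℂ × ℂ).2, mem_sphere_zero_iff_norm.2 h4⟩), ?_⟩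
  rfl

/-- The fixed set is a torus. -/
def torHomeo : Circle × Circle ≃ₜ Function.fixedPoints Dc.swap :=
  Continuous.homeoOfEquivCompactToT2 (f := Equiv.ofBijective tor ⟨tor_injective, tor_surjective⟩)
    continuous_tor

/-- The time-one map displaces the torus. -/
lemma displaced : Disjoint (Function.fixedPoints Dc.swap) (Fd.φ 1 '' Function.fixedPoints Dc.swap) := by
  rw [Set.disjoint_left]
  rintro _ hp ⟨q, hq, rfl⟩
  obtain ⟨x, rfl, h1, h2⟩ := exists_of_fixed hq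
  obtain ⟨y, hy, h3, h4⟩ := exists_of_fixed hp
  rw [Fd.φ_inc] at hy
  have h5 := congrArg Subtype.val (Dc.inc_injective false hy)
  have h6 : (Fd.BW 1 x : ℂ × ℂ) = (4 - (x : ℂ × ℂ).1, (x : ℂ × ℂ).2) := flo_one h1 h2
  rw [h6] at h5
  have h7 := congrArg Prod.fst h5
  simp only at h7
  rw [h7] at h3
  unfold nsq at h1 h3
  simp at h3
  nlinarith [sq_nonneg (x : ℂ × ℂ).1.im, sq_nonneg ((x : ℂ × ℂ).1.re - 1)]

end

end Pool.Agent.Helper87.AG
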