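import Pool.Agent.Helper87.AGDefs

/-!
# Elementary properties of `Pulls` and transport of Hamiltonian vectors
-/

namespace Pool.Agent.Helper87.AG

open scoped ContDiff ComplexConjugate Topology
open Set

noncomputable section

lemma Pulls.mono {c : ℝ} {s t : Set (ℂ × ℂ)} {f : ℂ × ℂ → ℂ × ℂ} (h : Pulls c t f)
    (hst : s ⊆ t) : Pulls c s f :=
  ⟨h.1.mono hst, fun x hx => h.2 x (hst hx)⟩

lemma Pulls.congr {c : ℝ} {s : Set (ℂ × ℂ)} {f g : ℂ × ℂ → ℂ × ℂ} (h : Pulls c s f)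
    (hs : IsOpen s) (hfg : EqOn g f s) : Pulls c s g := by
  refine ⟨h.1.congr hfg, fun x hx u v => ?_⟩
  have h1 : g =ᶠ[𝓝 x] f := Filter.eventuallyEq_of_mem (hs.mem_nhds hx) hfg
  rw [h1.fderiv_eq]
  exact h.2 x hx u v

lemma Pulls.differentiableAt {c : ℝ} {s : Set (ℂ × ℂ)} {f : ℂ × ℂ → ℂ × ℂ} (h : Pulls c s f)
    (hs : IsOpen s) {x : ℂ × ℂ} (hx : x ∈ s) : DifferentiableAt ℝ f x :=
  ((h.1.contDiffAt (hs.mem_nhds hx)).differentiableAt (by simp))

lemma Pulls.comp {c d : ℝ} {s t : Set (ℂ × ℂ)} {f g : ℂ × ℂ → ℂ × ℂ} (hg : Pulls d t g)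
    (hf : Pulls c s f) (hs : IsOpen s) (ht : IsOpen t) (hst : MapsTo f s t) :
    Pulls (d * c) s (fun x => g (f x)) := by
  refine ⟨hg.1.comp hf.1 hst, fun x hx u v => ?_⟩
  have h1 := hf.differentiableAt hs hx
  have h2 := hg.differentiableAt ht (hst hx)
  have h3 : fderiv ℝ (fun x => g (f x)) x = (fderiv ℝ g (f x)).comp (fderiv ℝ f x) :=
    fderiv_comp x h2 h1
  rw [h3, ContinuousLinearMap.comp_apply, ContinuousLinearMap.comp_apply, hg.2 _ (hst hx),
    hf.2 x hx, mul_assoc]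

/-- Identity or componentwise conjugation. -/
def gl (b : Bool) (x : ℂ × ℂ) : ℂ × ℂ := if b then (conj x.1, conj x.2) else x

/-- the sign `1` or `-1`. -/
def sg (b : Bool) : ℝ := if b then -1 else 1

lemma sg_sq (b : Bool) : sg b * sg b = 1 := by
  cases b <;> simp [sg]

lemma gl_gl (b : Bool) (x : ℂ × ℂ) : gl b (gl b x) = x := by
  cases b <;> simp [gl]

/-- the linear map `gl`. -/
def glL (b : Bool) : (ℂ × ℂ) →L[ℝ] (ℂ × ℂ) :=
  if b then (Complex.conjCLE : ℂ →L[ℝ] ℂ).prodMap (Complex.conjCLE : ℂ →L[ℝ] ℂ)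
  else ContinuousLinearMap.id ℝ _

lemma glL_apply (b : Bool) (x : ℂ × ℂ) : glL b x = gl b x := by
  cases b
  · simp [glL, gl]
  · simp only [glL, gl, if_true]; rfl

lemma gl_eq (b : Bool) : gl b = glL b := by
  ext1 x; rw [glL_apply]

lemma continuous_gl (b : Bool) : Continuous (gl b) := by
  rw [gl_eq]; exact (glL b).continuous

lemma fderiv_gl (b : Bool) (x : ℂ × ℂ) : fderiv ℝ (gl b) x = glL b := by
  rw [gl_eq]; exact (glL b).fderiv

lemma om_gl (b : Bool) (u v : ℂ × ℂ) : om (gl b u) (gl b v) = sg b * om u v := by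
  cases b
  · simp [gl, sg]
  · simp [gl, sg, om]; ring

lemma pulls_gl (b : Bool) : Pulls (sg b) univ (gl b) := by
  refine ⟨?_, fun x _ u v => ?_⟩
  · rw [gl_eq]; exact (glL b).contDiff.contDiffOn
  · rw [fderiv_gl, glL_apply, glL_apply, om_gl]

/-- Transport of a Hamiltonian vector by a symplectic change of coordinates `T` with local inverse
`S`. -/
lemma ham_transfer {T S : ℂ × ℂ → ℂ × ℂ} {x v : ℂ × ℂ} {h : ℂ × ℂ → ℝ}
    (hT : DifferentiableAt ℝ T x) (hS : DifferentiableAt ℝ S (T x))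
    (hh : DifferentiableAt ℝ h x)
    (hTS : ∀ᶠ y in 𝓝 (T x), T (S y) = y) (hSTx : S (T x) = x)
    (hp : ∀ u v, om (fderiv ℝ T x u) (fderiv ℝ T x v) = om u v)
    (hv : ∀ u, om v u = fderiv ℝ h x u) (u : ℂ × ℂ) :
    om (fderiv ℝ T x v) u = fderiv ℝ (fun y => h (S y)) (T x) u := by
  have hT' : DifferentiableAt ℝ T (S (T x)) := by rw [hSTx]; exact hT
  have hh' : DifferentiableAt ℝ h (S (T x)) := by rw [hSTx]; exact hh
  have h1 : fderiv ℝ (fun y => T (S y)) (T x) = (fderiv ℝ T (S (T x))).comp (fderiv ℝ S (T x)) :=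
    fderiv_comp _ hT' hS
  have h2 : fderiv ℝ (fun y => h (S y)) (T x) = (fderiv ℝ h (S (T x))).comp (fderiv ℝ S (T x)) :=
    fderiv_comp _ hh' hS
  have h3 : (fun y => T (S y)) =ᶠ[𝓝 (T x)] fun y => y := hTS
  rw [h3.fderiv_eq, fderiv_fun_id, hSTx] at h1
  rw [hSTx] at h2
  have h4 : fderiv ℝ T x (fderiv ℝ S (T x) u) = u := by
    have := congrArg (fun L => L u) h1
    simpa using this.symm
  rw [h2, ContinuousLinearMap.comp_apply, ← hv, ← hp v, h4]

end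

end Pool.Agent.Helper87.AG
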