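import Pool.Agent.Helper87.AGPulls

/-!
# Two explicit families of maps: symplectic shears and the reflection of an annulus
-/

namespace Pool.Agent.Helper87.AG

open scoped ContDiff ComplexConjugate Topology
open Set

noncomputable section

/-- `|z|²`. -/
def nsq (z : ℂ) : ℝ := z.re ^ 2 + z.im ^ 2

lemma nsq_nonneg (z : ℂ) : 0 ≤ nsq z := by unfold nsq; positivity

lemma nsq_mul (z w : ℂ) : nsq (z * w) = nsq z * nsq w := by
  simp only [nsq, Complex.mul_re, Complex.mul_im]; ring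

lemma nsq_exp (θ : ℝ) : nsq (Complex.exp (θ * Complex.I)) = 1 := by
  simp only [nsq, Complex.exp_ofReal_mul_I_re, Complex.exp_ofReal_mul_I_im]
  exact Real.cos_sq_add_sin_sq θ

lemma nsq_real (a : ℝ) : nsq (a : ℂ) = a ^ 2 := by simp [nsq]

lemma contDiff_re : ContDiff ℝ ∞ Complex.re := Complex.reCLM.contDiff

lemma contDiff_im : ContDiff ℝ ∞ Complex.im := Complex.imCLM.contDiff

lemma contDiff_ofReal : ContDiff ℝ ∞ (fun x : ℝ => (x : ℂ)) := Complex.ofRealCLM.contDiff

lemma contDiff_nsq : ContDiff ℝ ∞ nsq := by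
  unfold nsq
  exact (contDiff_re.pow 2).add (contDiff_im.pow 2)

lemma continuous_nsq : Continuous nsq := contDiff_nsq.continuous

/-- derivative of `nsq` along a line. -/
lemma hasDerivAt_nsq (z u : ℂ) :
    HasDerivAt (fun t : ℝ => nsq (z + t • u)) (2 * (z.re * u.re + z.im * u.im)) 0 := by
  have h1 : (fun t : ℝ => nsq (z + t • u)) =
      fun t : ℝ => (z.re + t * u.re) ^ 2 + (z.im + t * u.im) ^ 2 := by
    funext t; simp [nsq]
  rw [h1]
  have h2 : ∀ a b : ℝ, HasDerivAt (fun t : ℝ => a + t * b) b 0 := fun a b => by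
    simpa using ((hasDerivAt_id (0 : ℝ)).mul_const b).const_add a
  have h3 := ((h2 z.re u.re).pow 2).add ((h2 z.im u.im).pow 2)
  refine h3.congr_deriv ?_
  simp; ring

lemma hasDerivAt_line (z u : ℂ) : HasDerivAt (fun t : ℝ => z + t • u) u 0 := by
  simpa using ((hasDerivAt_id (0 : ℝ)).smul_const u).const_add z

/-- A directional derivative computes `fderiv`. -/
lemma fderiv_eq_of_line {E G : Type*} [NormedAddCommGroup E] [NormedSpace ℝ E]
    [NormedAddCommGroup G] [NormedSpace ℝ G] {f : E → G} {x u : E} {v : G}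
    (hf : DifferentiableAt ℝ f x) (h : HasDerivAt (fun t : ℝ => f (x + t • u)) v 0) :
    fderiv ℝ f x u = v := by
  rw [← hf.lineDeriv_eq_fderiv]
  exact h.deriv

/-! ### Shears -/

/-- The angle of the shear. -/
def shang (F : ℝ → ℝ) (x : ℂ × ℂ) : ℝ := -2 * deriv F (nsq x.1) * x.2.im

/-- The time-one map of the Hamiltonian `F(|z|²) Im w`. -/
def shear (F : ℝ → ℝ) (x : ℂ × ℂ) : ℂ × ℂ :=
  (Complex.exp (shang F x * Complex.I) * x.1, x.2 + (F (nsq x.1) : ℂ))

lemma contDiff_shang {F : ℝ → ℝ} (hF : ContDiff ℝ ∞ F) : ContDiff ℝ ∞ (shang F) := by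
  have h1 : ContDiff ℝ ∞ (deriv F) := by
    have := (contDiff_infty_iff_deriv (𝕜 := ℝ) (f := F)).1 hF
    exact this.2
  unfold shang
  exact (contDiff_const.mul (h1.comp (contDiff_nsq.comp contDiff_fst))).mul
    (contDiff_im.comp contDiff_snd)

lemma contDiff_shear {F : ℝ → ℝ} (hF : ContDiff ℝ ∞ F) : ContDiff ℝ ∞ (shear F) := by
  unfold shear
  refine ContDiff.prodMk ?_ ?_
  · refine ContDiff.mul ?_ contDiff_fst
    refine ContDiff.cexp ?_
    exact (contDiff_ofReal.comp (contDiff_shang hF)).mul contDiff_const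
  · exact contDiff_snd.add (contDiff_ofReal.comp (hF.comp (contDiff_nsq.comp contDiff_fst)))

lemma nsq_shear_fst (F : ℝ → ℝ) (x : ℂ × ℂ) : nsq (shear F x).1 = nsq x.1 := by
  simp only [shear]
  rw [nsq_mul, nsq_exp, one_mul]

lemma shear_neg_shear {F : ℝ → ℝ} (x : ℂ × ℂ) :
    shear (fun s => -F s) (shear F x) = x := by
  have h1 : nsq (shear F x).1 = nsq x.1 := nsq_shear_fst F x
  have h2 : (shear F x).2.im = x.2.im := by simp [shear]
  have h3 : shang (fun s => -F s) (shear F x) = - shang F x := by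
    unfold shang
    rw [h1, h2, deriv.fun_neg]
    ring
  have h4 : (shear F x).1 = Complex.exp (shang F x * Complex.I) * x.1 := rfl
  have h5 : (shear F x).2 = x.2 + (F (nsq x.1) : ℂ) := rfl
  ext1
  · show Complex.exp (shang (fun s => -F s) (shear F x) * Complex.I) * (shear F x).1 = x.1
    rw [h3, h4, ← mul_assoc, ← Complex.exp_add]
    push_cast
    rw [neg_mul, neg_add_cancel, Complex.exp_zero, one_mul]
  · show (shear F x).2 + ((-F (nsq (shear F x).1) : ℝ) : ℂ) = x.2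
    rw [h1, h5]
    push_cast
    ring

lemma shear_shear_neg {F : ℝ → ℝ} (x : ℂ × ℂ) :
    shear F (shear (fun s => -F s) x) = x := by
  have := shear_neg_shear (F := fun s => -F s) x
  simpa using this

lemma conj_mul_exp (θ : ℝ) (a b : ℂ) :
    conj (Complex.exp (θ * Complex.I) * a) * (Complex.exp (θ * Complex.I) * b) = conj a * b := by
  have h1 : conj (Complex.exp (θ * Complex.I)) * Complex.exp (θ * Complex.I) = 1 := by
    rw [← Complex.exp_conj, ← Complex.exp_add]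
    simp
  rw [map_mul]
  linear_combination (conj a * b) * h1

lemma hasDerivAt_shear {F : ℝ → ℝ} (hF : ContDiff ℝ ∞ F) (x u : ℂ × ℂ) :
    HasDerivAt (fun t : ℝ => shear F (x + t • u))
      (Complex.exp (shang F x * Complex.I) *
        (u.1 + ((-2 * (deriv (deriv F) (nsq x.1) * (2 * (x.1.re * u.1.re + x.1.im * u.1.im)) *
          x.2.im + deriv F (nsq x.1) * u.2.im) : ℝ) : ℂ) * Complex.I * x.1),
        u.2 + ((deriv F (nsq x.1) * (2 * (x.1.re * u.1.re + x.1.im * u.1.im)) : ℝ) : ℂ)) 0 := by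
  have hF1 : ∀ s, HasDerivAt F (deriv F s) s := fun s =>
    (hF.differentiable (by simp) s).hasDerivAt
  have hF2 : ContDiff ℝ ∞ (deriv F) := ((contDiff_infty_iff_deriv (𝕜 := ℝ) (f := F)).1 hF).2
  have hF3 : ∀ s, HasDerivAt (deriv F) (deriv (deriv F) s) s := fun s =>
    (hF2.differentiable (by simp) s).hasDerivAt
  have h1 := hasDerivAt_nsq x.1 u.1
  have e0 : nsq (x.1 + (0 : ℝ) • u.1) = nsq x.1 := by simp
  have h2 : HasDerivAt (fun t : ℝ => F (nsq (x.1 + t • u.1)))
      (deriv F (nsq x.1) * (2 * (x.1.re * u.1.re + x.1.im * u.1.im))) 0 := by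
    have := HasDerivAt.comp (0 : ℝ) (h₂ := F) (h := fun t : ℝ => nsq (x.1 + t • u.1)) (by
      rw [e0]; exact hF1 _) h1
    exact this
  have h3 : HasDerivAt (fun t : ℝ => deriv F (nsq (x.1 + t • u.1)))
      (deriv (deriv F) (nsq x.1) * (2 * (x.1.re * u.1.re + x.1.im * u.1.im))) 0 := by
    have := HasDerivAt.comp (0 : ℝ) (h₂ := deriv F) (h := fun t : ℝ => nsq (x.1 + t • u.1)) (by
      rw [e0]; exact hF3 _) h1
    exact this
  have h4 : HasDerivAt (fun t : ℝ => (x.2 + t • u.2).im) u.2.im 0 := by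
    have e : (fun t : ℝ => (x.2 + t • u.2).im) = fun t : ℝ => x.2.im + t * u.2.im := by
      funext t; simp
    rw [e]
    simpa using ((hasDerivAt_id (0 : ℝ)).mul_const u.2.im).const_add x.2.im
  have h5 : HasDerivAt (fun t : ℝ => shang F (x + t • u))
      (-2 * (deriv (deriv F) (nsq x.1) * (2 * (x.1.re * u.1.re + x.1.im * u.1.im)) *
          x.2.im + deriv F (nsq x.1) * u.2.im)) 0 := by
    have h := (h3.mul h4).const_mul (-2)
    have e : (fun t : ℝ => shang F (x + t • u)) =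
        fun t : ℝ => -2 * (((fun t : ℝ => deriv F (nsq (x.1 + t • u.1))) *
          (fun t : ℝ => (x.2 + t • u.2).im)) t) := by
      funext t
      simp only [shang, Pi.mul_apply, Prod.fst_add, Prod.smul_fst, Prod.snd_add, Prod.smul_snd]
      ring
    rw [e]
    refine h.congr_deriv ?_
    simp
  have h6 := ((h5.ofReal_comp.mul_const Complex.I).cexp).mul (hasDerivAt_line x.1 u.1)
  have h7 := (hasDerivAt_line x.2 u.2).add h2.ofReal_comp
  have h8 := h6.prodMk h7
  have e9 : (fun t : ℝ => shear F (x + t • u)) = fun t : ℝ =>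
      (((fun t : ℝ => Complex.exp (((shang F (x + t • u) : ℝ) : ℂ) * Complex.I)) *
        (fun t : ℝ => x.1 + t • u.1)) t,
       ((fun t : ℝ => x.2 + t • u.2) + (fun t : ℝ => ((F (nsq (x.1 + t • u.1)) : ℝ) : ℂ))) t) := by
    funext t
    simp [shear]
  rw [e9]
  refine h8.congr_deriv ?_
  ext1
  · simp only [zero_smul, add_zero]
    ring
  · simp only
    
lemma pulls_shear {F : ℝ → ℝ} (hF : ContDiff ℝ ∞ F) : Pulls 1 univ (shear F) := by
  refine ⟨(contDiff_shear hF).contDiffOn, fun x _ u v => ?_⟩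
  have hd : DifferentiableAt ℝ (shear F) x := (contDiff_shear hF).differentiable (by simp) x
  rw [fderiv_eq_of_line hd (hasDerivAt_shear hF x u), fderiv_eq_of_line hd (hasDerivAt_shear hF x v)]
  simp only [om]
  rw [conj_mul_exp]
  generalize deriv (deriv F) (nsq x.1) = F2
  generalize deriv F (nsq x.1) = F1
  simp
  ring

/-! ### The reflection of the annulus `0 < |z|² < 2` -/

/-- the radial factor -/
def rho (s : ℝ) : ℝ := Real.sqrt ((2 - s) / s)

/-- The reflection. -/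
def sig (z : ℂ) : ℂ := (rho (nsq z) : ℂ) * z

lemma rho_sq {s : ℝ} (h0 : 0 < s) (h2 : s < 2) : rho s ^ 2 = (2 - s) / s := by
  unfold rho
  rw [Real.sq_sqrt]
  exact div_nonneg (by linarith) h0.le

lemma nsq_sig {z : ℂ} (h0 : 0 < nsq z) (h2 : nsq z < 2) : nsq (sig z) = 2 - nsq z := by
  unfold sig
  rw [nsq_mul, nsq_real, rho_sq h0 h2]
  field_simp

lemma sig_sig {z : ℂ} (h0 : 0 < nsq z) (h2 : nsq z < 2) : sig (sig z) = z := by
  have h3 : nsq (sig z) = 2 - nsq z := nsq_sig h0 h2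
  have h4 : rho (nsq (sig z)) * rho (nsq z) = 1 := by
    rw [h3]
    unfold rho
    rw [← Real.sqrt_mul (by apply div_nonneg <;> linarith)]
    rw [show (2 - (2 - nsq z)) / (2 - nsq z) * ((2 - nsq z) / nsq z) = 1 by
      have : (2 - nsq z) ≠ 0 := by linarith
      field_simp
      ring]
    exact Real.sqrt_one
  have h5 : sig (sig z) = ((rho (nsq (sig z)) * rho (nsq z) : ℝ) : ℂ) * z := by
    conv_lhs => unfold sig
    push_cast
    rw [show (rho (nsq (↑(rho (nsq z)) * z)) : ℂ) = (rho (nsq (sig z)) : ℂ) from rfl]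
    ring
  rw [h5, h4]
  simp

lemma hasDerivAt_rho {s : ℝ} (h0 : 0 < s) (h2 : s < 2) :
    HasDerivAt rho (-(1 / s ^ 2) / rho s) s := by
  have h1 : HasDerivAt (fun s : ℝ => (2 - s) / s) (-(2 / s ^ 2)) s := by
    have := ((hasDerivAt_id s).const_sub 2).div (hasDerivAt_id s) h0.ne'
    refine this.congr_deriv ?_
    simp only [id]
    field_simp
    ring
  have h3 : (2 - s) / s ≠ 0 := (div_pos (by linarith) h0).ne'
  have h4 := h1.sqrt h3
  refine h4.congr_deriv ?_
  have h5 : rho s = Real.sqrt ((2 - s) / s) := rfl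
  rw [← h5]
  have h6 : rho s ≠ 0 := by
    rw [h5]; exact (Real.sqrt_pos.2 (div_pos (by linarith) h0)).ne'
  field_simp

lemma contDiffAt_rho {s : ℝ} (h0 : 0 < s) (h2 : s < 2) : ContDiffAt ℝ ∞ rho s := by
  have h1 : ContDiffAt ℝ ∞ (fun s : ℝ => (2 - s) / s) s :=
    (contDiffAt_const.sub contDiffAt_id).div contDiffAt_id h0.ne'
  exact h1.sqrt (div_pos (by linarith) h0).ne'

lemma contDiffAt_sig {z : ℂ} (h0 : 0 < nsq z) (h2 : nsq z < 2) : ContDiffAt ℝ ∞ sig z := by
  unfold sig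
  refine ContDiffAt.mul ?_ contDiffAt_id
  have h1 : ContDiffAt ℝ ∞ (fun z => rho (nsq z)) z :=
    (contDiffAt_rho h0 h2).comp z contDiff_nsq.contDiffAt
  exact contDiff_ofReal.contDiffAt.comp z h1

lemma hasDerivAt_sig {z : ℂ} (h0 : 0 < nsq z) (h2 : nsq z < 2) (u : ℂ) :
    HasDerivAt (fun t : ℝ => sig (z + t • u))
      (((-(1 / nsq z ^ 2) / rho (nsq z) * (2 * (z.re * u.re + z.im * u.im)) : ℝ) : ℂ) * z +
        (rho (nsq z) : ℂ) * u) 0 := by
  have h1 := hasDerivAt_nsq z u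
  have e0 : nsq (z + (0 : ℝ) • u) = nsq z := by simp
  have h3 : HasDerivAt (fun t : ℝ => rho (nsq (z + t • u)))
      (-(1 / nsq z ^ 2) / rho (nsq z) * (2 * (z.re * u.re + z.im * u.im))) 0 := by
    have := HasDerivAt.comp (0 : ℝ) (h₂ := rho) (h := fun t : ℝ => nsq (z + t • u)) (by
      rw [e0]; exact hasDerivAt_rho h0 h2) h1
    exact this
  have h4 := h3.ofReal_comp.mul (hasDerivAt_line z u)
  refine h4.congr_deriv ?_
  simp only [zero_smul, add_zero]

/-- The reflection is anti-symplectic in each factor. -/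
lemma im_sig {z : ℂ} (h0 : 0 < nsq z) (h2 : nsq z < 2) (u v : ℂ) :
    (conj (((-(1 / nsq z ^ 2) / rho (nsq z) * (2 * (z.re * u.re + z.im * u.im)) : ℝ) : ℂ) * z +
        (rho (nsq z) : ℂ) * u) *
      (((-(1 / nsq z ^ 2) / rho (nsq z) * (2 * (z.re * v.re + z.im * v.im)) : ℝ) : ℂ) * z +
        (rho (nsq z) : ℂ) * v)).im = - (conj u * v).im := by
  have hr : 0 < rho (nsq z) := Real.sqrt_pos.2 (div_pos (by linarith) h0)
  have hr2 := rho_sq h0 h2
  -- `r * r' = - 1 / s²`
  have h3 : rho (nsq z) * (-(1 / nsq z ^ 2) / rho (nsq z)) = -(1 / nsq z ^ 2) := by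
    field_simp
  generalize -(1 / nsq z ^ 2) / rho (nsq z) = d at h3
  have h4 : rho (nsq z) ^ 2 + 2 * (rho (nsq z) * d) * (z.re ^ 2 + z.im ^ 2) = -1 := by
    rw [h3, hr2]
    have : z.re ^ 2 + z.im ^ 2 = nsq z := rfl
    rw [this]
    field_simp
    ring
  generalize rho (nsq z) = r at h4
  have h5 : (conj (((d * (2 * (z.re * u.re + z.im * u.im)) : ℝ) : ℂ) * z + (r : ℂ) * u) *
      (((d * (2 * (z.re * v.re + z.im * v.im)) : ℝ) : ℂ) * z + (r : ℂ) * v)).im =
      (r ^ 2 + 2 * (r * d) * (z.re ^ 2 + z.im ^ 2)) * (u.re * v.im - u.im * v.re) := by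
    simp
    ring
  rw [h5, h4]
  simp
  ring

/-- The reflection of both factors. -/
def sig2 (x : ℂ × ℂ) : ℂ × ℂ := (sig x.1, sig x.2)

/-- The set of `(z, w)` with `1/2 < |z|², |w|² < 3/2`. -/
def N₀ : Set (ℂ × ℂ) :=
  {x | (1 / 2 < nsq x.1 ∧ nsq x.1 < 3 / 2) ∧ (1 / 2 < nsq x.2 ∧ nsq x.2 < 3 / 2)}

lemma isOpen_N₀ : IsOpen N₀ := by
  have h1 : Continuous fun x : ℂ × ℂ => nsq x.1 := continuous_nsq.comp continuous_fst
  have h2 : Continuous fun x : ℂ × ℂ => nsq x.2 := continuous_nsq.comp continuous_snd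
  exact ((isOpen_lt continuous_const h1).inter (isOpen_lt h1 continuous_const)).inter
    ((isOpen_lt continuous_const h2).inter (isOpen_lt h2 continuous_const))

lemma sig2_mapsTo : MapsTo sig2 N₀ N₀ := by
  rintro x ⟨⟨h1, h2⟩, h3, h4⟩
  have e1 : nsq (sig2 x).1 = 2 - nsq x.1 := nsq_sig (by linarith) (by linarith)
  have e2 : nsq (sig2 x).2 = 2 - nsq x.2 := nsq_sig (by linarith) (by linarith)
  refine ⟨⟨?_, ?_⟩, ?_, ?_⟩
  · rw [e1]; linarith
  · rw [e1]; linarith
  · rw [e2]; linarith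
  · rw [e2]; linarith

lemma pulls_sig2 : Pulls (-1) N₀ sig2 := by
  have hd : ∀ x ∈ N₀, ContDiffAt ℝ ∞ sig2 x := by
    rintro x ⟨⟨h1, h2⟩, h3, h4⟩
    have e1 : ContDiffAt ℝ ∞ sig x.1 := contDiffAt_sig (by linarith) (by linarith)
    have e2 : ContDiffAt ℝ ∞ sig x.2 := contDiffAt_sig (by linarith) (by linarith)
    exact (e1.comp x contDiffAt_fst).prodMk (e2.comp x contDiffAt_snd)
  refine ⟨fun x hx => (hd x hx).contDiffWithinAt, fun x hx u v => ?_⟩
  have hx' := hd x hx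
  obtain ⟨⟨h1, h2⟩, h3, h4⟩ := hx
  have key : ∀ u : ℂ × ℂ, HasDerivAt (fun t : ℝ => sig2 (x + t • u))
      (((-(1 / nsq x.1 ^ 2) / rho (nsq x.1) * (2 * (x.1.re * u.1.re + x.1.im * u.1.im)) : ℝ) : ℂ)
          * x.1 + (rho (nsq x.1) : ℂ) * u.1,
        ((-(1 / nsq x.2 ^ 2) / rho (nsq x.2) * (2 * (x.2.re * u.2.re + x.2.im * u.2.im)) : ℝ) : ℂ)
          * x.2 + (rho (nsq x.2) : ℂ) * u.2) 0 := fun u =>
    (hasDerivAt_sig (by linarith) (by linarith) u.1).prodMk
      (hasDerivAt_sig (by linarith) (by linarith) u.2)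
  have hdx : DifferentiableAt ℝ sig2 x := hx'.differentiableAt (by simp)
  rw [fderiv_eq_of_line hdx (key u), fderiv_eq_of_line hdx (key v)]
  simp only [om]
  rw [Complex.add_im, im_sig (by linarith) (by linarith), im_sig (by linarith) (by linarith),
    Complex.add_im]
  ring

end

end Pool.Agent.Helper87.AG
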