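import Mathlib

/-!
# Finite volume of a cusp region in `ℝ^7`
-/

namespace Pool.Agent.Helper87.Hyp6V

open MeasureTheory Set

/-- The region around the `m`-th axis. -/
def Reg (m : Fin 6) : Set (Fin 7 → ℝ) :=
  {v | (∀ i : Fin 6, 0 ≤ v i.succ) ∧
    (∀ j : Fin 6, j ≠ m → v m.succ * v j.succ ≤ 1 ∧ v j.succ ≤ 1) ∧
    v m.succ ≤ v 0 ∧ v 0 ^ 2 ≤ v m.succ ^ 2 + 4}

/-- lower corner -/
noncomputable def lo (m : Fin 6) (n k : ℕ) : Fin 7 → ℝ :=
  Fin.cons (n + k / n) (fun j => if j = m then (n : ℝ) + k / n else 0)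

/-- upper corner -/
noncomputable def hi (m : Fin 6) (n k : ℕ) : Fin 7 → ℝ :=
  Fin.cons (n + (k + 3) / n) (fun j => if j = m then (n : ℝ) + (k + 1) / n else 1 / n)

lemma vol_box (m : Fin 6) {n : ℕ} (hn : 0 < n) (k : ℕ) :
    volume (Icc (lo m n k) (hi m n k)) ≤ ENNReal.ofReal (3 / (n : ℝ) ^ 3) := by
  have hn' : (0 : ℝ) < n := by exact_mod_cast hn
  have hn1 : (1 : ℝ) ≤ n := by exact_mod_cast hn
  rw [Real.volume_Icc_pi, Fin.prod_univ_succ]
  have h0 : hi m n k 0 - lo m n k 0 = 3 / n := by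
    simp only [hi, lo, Fin.cons_zero]; field_simp; ring
  have h1 : ∀ j : Fin 6, hi m n k j.succ - lo m n k j.succ = 1 / n := by
    intro j
    simp only [hi, lo, Fin.cons_succ]
    by_cases hj : j = m
    · simp only [hj, if_true]; field_simp; ring
    · simp only [hj, if_false]; ring
  simp only [h0, h1, Finset.prod_const, Finset.card_univ, Fintype.card_fin]
  rw [← ENNReal.ofReal_pow (by positivity), ← ENNReal.ofReal_mul (by positivity)]
  apply ENNReal.ofReal_le_ofReal
  rw [div_pow, one_pow, div_mul_div_comm, mul_one]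
  apply div_le_div_of_nonneg_left (by norm_num) (by positivity)
  have : (n : ℝ) * (n : ℝ) ^ 6 = (n : ℝ) ^ 3 * (n : ℝ) ^ 4 := by ring
  rw [this]
  have h2 : (1 : ℝ) ≤ (n : ℝ) ^ 4 := one_le_pow₀ hn1
  nlinarith [pow_pos hn' 3]

/-- the bounded part -/
def box0 : Set (Fin 7 → ℝ) := Icc (fun _ => 0) (fun _ => 3)

lemma reg_subset (m : Fin 6) :
    Reg m ⊆ box0 ∪ ⋃ n : ℕ, ⋃ k ∈ Finset.range (n + 1), Icc (lo m (n + 1) k) (hi m (n + 1) k) := by
  rintro v ⟨h1, h2, h3, h4⟩
  by_cases hm : v m.succ ≤ 1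
  · left
    have h0 : 0 ≤ v 0 := (h1 m).trans h3
    refine ⟨fun i => ?_, fun i => ?_⟩
    · refine Fin.cases h0 (fun j => h1 j) i
    · refine Fin.cases ?_ (fun j => ?_) i
      · have := h1 m
        show v 0 ≤ 3
        nlinarith
      · show v j.succ ≤ 3
        by_cases hj : j = m
        · rw [hj]; linarith
        · linarith [(h2 j hj).2]
  · right
    push Not at hm
    -- the integer part
    obtain ⟨n, hn⟩ : ∃ n : ℕ, ⌊v m.succ⌋₊ = n + 1 := by
      have : 1 ≤ ⌊v m.succ⌋₊ := by
        rw [Nat.one_le_floor_iff]; exact hm.le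
      exact ⟨⌊v m.succ⌋₊ - 1, by omega⟩
    have hf1 : ((n + 1 : ℕ) : ℝ) ≤ v m.succ := by
      rw [← hn]; exact Nat.floor_le (by linarith)
    have hf2 : v m.succ < ((n + 1 : ℕ) : ℝ) + 1 := by
      rw [← hn]; exact Nat.lt_floor_add_one _
    set N : ℝ := ((n + 1 : ℕ) : ℝ) with hN
    have hNpos : 0 < N := by rw [hN]; positivity
    -- the fractional piece
    set k := ⌊N * (v m.succ - N)⌋₊ with hk
    have hk0 : 0 ≤ N * (v m.succ - N) := mul_nonneg hNpos.le (by linarith)
    have hk1 : (k : ℝ) ≤ N * (v m.succ - N) := Nat.floor_le hk0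
    have hk2 : N * (v m.succ - N) < k + 1 := Nat.lt_floor_add_one _
    have hkn : k < n + 1 := by
      rw [hk, Nat.floor_lt hk0, ← hN]
      nlinarith
    rw [mem_iUnion]
    refine ⟨n, ?_⟩
    rw [mem_iUnion₂]
    refine ⟨k, Finset.mem_range.2 hkn, ?_⟩
    have g1 : N + k / N ≤ v m.succ := by
      have : (k : ℝ) / N ≤ v m.succ - N := by
        rw [div_le_iff₀ hNpos]; linarith
      linarith
    have g2 : v m.succ ≤ N + (k + 1) / N := by
      have : v m.succ - N ≤ ((k : ℝ) + 1) / N := by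
        rw [le_div_iff₀ hNpos]; linarith
      linarith
    have g3 : v 0 ≤ v m.succ + 2 / N := by
      have h5 : (v 0 - v m.succ) * (v 0 + v m.succ) ≤ 4 := by nlinarith
      have h6 : (v 0 - v m.succ) * (2 * N) ≤ 4 := by
        refine le_trans ?_ h5
        apply mul_le_mul_of_nonneg_left _ (by linarith)
        linarith
      have : v 0 - v m.succ ≤ 2 / N := by
        rw [le_div_iff₀ hNpos]; linarith
      linarith
    have g4 : ∀ j, j ≠ m → v j.succ ≤ 1 / N := by
      intro j hj
      rw [le_div_iff₀ hNpos]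
      have := (h2 j hj).1
      nlinarith [h1 j]
    refine ⟨fun i => ?_, fun i => ?_⟩
    · refine Fin.cases ?_ (fun j => ?_) i
      · simp only [lo, Fin.cons_zero]
        exact g1.trans h3
      · simp only [lo, Fin.cons_succ]
        by_cases hj : j = m
        · simp only [hj, if_true]; exact g1
        · simp only [hj, if_false]; exact h1 j
    · refine Fin.cases ?_ (fun j => ?_) i
      · simp only [hi, Fin.cons_zero]
        have e : N + ((k : ℝ) + 3) / N = (N + (k + 1) / N) + 2 / N := by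
          field_simp; ring
        have : v 0 ≤ N + ((k : ℝ) + 3) / N := by rw [e]; linarith
        exact this
      · simp only [hi, Fin.cons_succ]
        by_cases hj : j = m
        · simp only [hj, if_true]; exact g2
        · simp only [hj, if_false]; exact g4 j hj

lemma volume_Reg (m : Fin 6) : volume (Reg m) < ⊤ := by
  refine (measure_mono (reg_subset m)).trans_lt ?_
  refine (measure_union_le _ _).trans_lt ?_
  rw [ENNReal.add_lt_top]
  constructor
  · unfold box0
    exact isCompact_Icc.measure_lt_top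
  · refine (measure_iUnion_le _).trans_lt ?_
    have h1 : ∀ n : ℕ, volume (⋃ k ∈ Finset.range (n + 1), Icc (lo m (n + 1) k) (hi m (n + 1) k)) ≤
        ENNReal.ofReal (3 * (1 / ((n : ℝ) + 1) ^ 2)) := by
      intro n
      refine (measure_biUnion_finset_le _ _).trans ?_
      have h2 : ∀ k ∈ Finset.range (n + 1), volume (Icc (lo m (n + 1) k) (hi m (n + 1) k)) ≤
          ENNReal.ofReal (3 / ((n + 1 : ℕ) : ℝ) ^ 3) := fun k _ => vol_box m (Nat.succ_pos n) k
      refine (Finset.sum_le_sum h2).trans ?_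
      rw [Finset.sum_const, Finset.card_range, nsmul_eq_mul]
      rw [← ENNReal.ofReal_natCast (n + 1), ← ENNReal.ofReal_mul (by positivity)]
      apply ENNReal.ofReal_le_ofReal
      push_cast
      have : (0 : ℝ) < n + 1 := by positivity
      apply le_of_eq
      field_simp
    refine (ENNReal.tsum_le_tsum h1).trans_lt ?_
    have hs : Summable fun n : ℕ => 3 * (1 / ((n : ℝ) + 1) ^ 2) := by
      have h3 : Summable fun n : ℕ => 1 / (n : ℝ) ^ 2 :=
        Real.summable_one_div_nat_pow.2 (by norm_num)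
      have h4 := (summable_nat_add_iff (f := fun n : ℕ => 1 / (n : ℝ) ^ 2) 1).2 h3
      refine (h4.mul_left 3).congr fun n => ?_
      push_cast
      rfl
    exact hs.tsum_ofReal_lt_top

end Pool.Agent.Helper87.Hyp6V
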