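import Pool.Agent.Helper87.Hyp6Vol
import Pool.Agent.Helper87.Hyp6Box

/-!
# Lorentz geometry used for the fundamental set
-/

namespace Pool.Agent.Helper87.Hyp6V

open Pool.Agent.Helper63.Hyp6
open scoped Matrix

/-- the 27 norm one vectors, by an arithmetic description -/
def IsWall (v : Fin 7 → ℤ) : Prop :=
  -(v 0 * v 0) + ∑ i : Fin 6, v i.succ * v i.succ = 1 ∧ -(3 * v 0) + ∑ i : Fin 6, v i.succ = -1

/-- reflection in a vector of Lorentz norm one -/
noncomputable def refl (v : Fin 7 → ℤ) (x : Fin 7 → ℝ) : Fin 7 → ℝ :=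
  x - (2 * lor x (fun i => (v i : ℝ))) • (fun i => (v i : ℝ))

/-! ### Algebra of the form -/

lemma lor_comm (x y : Fin 7 → ℝ) : lor x y = lor y x := by
  unfold lor
  rw [mul_comm (x 0)]
  congr 1
  exact Finset.sum_congr rfl fun i _ => mul_comm _ _

lemma lor_add_left (x y z : Fin 7 → ℝ) : lor (x + y) z = lor x z + lor y z := by
  unfold lor
  simp only [Pi.add_apply, add_mul, Finset.sum_add_distrib]
  ring

lemma lor_smul_left (a : ℝ) (x z : Fin 7 → ℝ) : lor (a • x) z = a * lor x z := by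
  unfold lor
  simp only [Pi.smul_apply, smul_eq_mul, mul_add, Finset.mul_sum]
  congr 1
  · ring
  · exact Finset.sum_congr rfl fun i _ => by ring

lemma lor_sub_left (x y z : Fin 7 → ℝ) : lor (x - y) z = lor x z - lor y z := by
  have h : x - y = x + (-1 : ℝ) • y := by simp [sub_eq_add_neg]
  rw [h, lor_add_left, lor_smul_left]
  ring

lemma lor_sub_right (x y z : Fin 7 → ℝ) : lor z (x - y) = lor z x - lor z y := by
  rw [lor_comm, lor_sub_left, lor_comm x, lor_comm y]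

lemma lor_smul_right (a : ℝ) (x z : Fin 7 → ℝ) : lor z (a • x) = a * lor z x := by
  rw [lor_comm, lor_smul_left, lor_comm]

/-- real vector of an integer vector -/
def toR (v : Fin 7 → ℤ) : Fin 7 → ℝ := fun i => (v i : ℝ)

/-- integral Lorentz form -/
def lorZ (x y : Fin 7 → ℤ) : ℤ := -(x 0 * y 0) + ∑ i : Fin 6, x i.succ * y i.succ

lemma lor_toR (x y : Fin 7 → ℤ) : lor (toR x) (toR y) = (lorZ x y : ℝ) := by
  unfold lor lorZ toR
  push_cast
  rfl

/-- the centre -/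
def cc : Fin 7 → ℤ := Fin.cons 3 (fun _ => 1)

lemma lorZ_cc (v : Fin 7 → ℤ) : lorZ v cc = -(3 * v 0) + ∑ i : Fin 6, v i.succ := by
  unfold lorZ cc
  simp only [Fin.cons_zero, Fin.cons_succ, mul_one]
  ring

lemma lorZ_cc_cc : lorZ cc cc = -3 := by
  rw [lorZ_cc]; simp [cc]

lemma IsWall.norm {v : Fin 7 → ℤ} (h : IsWall v) : lorZ v v = 1 := h.1

lemma IsWall.center {v : Fin 7 → ℤ} (h : IsWall v) : lorZ v cc = -1 := by
  rw [lorZ_cc]; exact h.2

lemma refl_eq (v : Fin 7 → ℤ) (x : Fin 7 → ℝ) : refl v x = x - (2 * lor x (toR v)) • toR v := rfl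

lemma lor_refl {v : Fin 7 → ℤ} (x y : Fin 7 → ℝ) :
    lor (refl v x) y = lor x (refl v y) := by
  rw [refl_eq, refl_eq, lor_sub_left, lor_smul_left, lor_sub_right, lor_smul_right,
    lor_comm (toR v) y]
  ring

lemma lor_refl_refl {v : Fin 7 → ℤ} (h : IsWall v) (x : Fin 7 → ℝ) :
    lor (refl v x) (refl v x) = lor x x := by
  have h1 : lor (toR v) (toR v) = 1 := by rw [lor_toR, h.norm]; norm_num
  rw [refl_eq]
  simp only [lor_sub_left, lor_smul_left, lor_sub_right, lor_smul_right, h1]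
  rw [lor_comm (toR v) x]
  ring

/-- Two timelike vectors with negative product lie in the same cone. -/
lemma pos_of_lor {u w : Fin 7 → ℝ} (hu : lor u u < 0) (hu0 : 0 < u 0) (hw : lor w w < 0)
    (huw : lor u w < 0) : 0 < w 0 := by
  by_contra h
  push Not at h
  unfold lor at hu hw huw
  have cs : (∑ i : Fin 6, u i.succ * w i.succ) ^ 2 ≤
      (∑ i : Fin 6, u i.succ * u i.succ) * ∑ i : Fin 6, w i.succ * w i.succ := by
    have := Finset.sum_mul_sq_le_sq_mul_sq Finset.univ (fun i : Fin 6 => u i.succ)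
      (fun i : Fin 6 => w i.succ)
    simpa only [← pow_two] using this
  have ha : 0 ≤ ∑ i : Fin 6, u i.succ * u i.succ := Finset.sum_nonneg fun i _ => mul_self_nonneg _
  have hb : 0 ≤ ∑ i : Fin 6, w i.succ * w i.succ := Finset.sum_nonneg fun i _ => mul_self_nonneg _
  generalize (∑ i : Fin 6, u i.succ * u i.succ) = a at *
  generalize (∑ i : Fin 6, w i.succ * w i.succ) = b at *
  generalize (∑ i : Fin 6, u i.succ * w i.succ) = s at *
  have h1 : s ^ 2 ≤ (u 0 * w 0) ^ 2 := by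
    refine cs.trans ?_
    have : (u 0 * w 0) ^ 2 = (u 0 * u 0) * (w 0 * w 0) := by ring
    rw [this]
    exact mul_le_mul (by linarith) (by linarith) hb (by positivity)
  have h2 : |s| ≤ |u 0 * w 0| := sq_le_sq.1 h1
  rw [abs_of_nonpos (mul_nonpos_of_nonneg_of_nonpos hu0.le h)] at h2
  have h3 := neg_abs_le s
  linarith

lemma refl_H6 {v : Fin 7 → ℤ} (h : IsWall v) {x : Fin 7 → ℝ} {a : ℝ} (ha : a < 0)
    (hx : lor x x = a) (hx0 : 0 < x 0) :
    lor (refl v x) (refl v x) = a ∧ 0 < refl v x 0 := by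
  have h1 := lor_refl_refl h x
  refine ⟨by rw [h1, hx], ?_⟩
  refine pos_of_lor (u := x) (by rw [hx]; exact ha) hx0 (by rw [h1, hx]; exact ha) ?_
  rw [refl_eq, lor_sub_right, lor_smul_right, hx]
  nlinarith [sq_nonneg (lor x (toR v))]

lemma foldr_H6 {l : List (Fin 7 → ℤ)} (hl : ∀ v ∈ l, IsWall v) {x : Fin 7 → ℝ} {a : ℝ}
    (ha : a < 0) (hx : lor x x = a) (hx0 : 0 < x 0) :
    lor (l.foldr refl x) (l.foldr refl x) = a ∧ 0 < l.foldr refl x 0 := by
  induction l with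
  | nil => exact ⟨hx, hx0⟩
  | cons v l ih =>
    have h1 := ih fun w hw => hl w (List.mem_cons_of_mem _ hw)
    rw [List.foldr_cons]
    exact refl_H6 (hl v List.mem_cons_self) ha h1.1 h1.2

/-- integral reflection -/
def reflZ (v w : Fin 7 → ℤ) : Fin 7 → ℤ := fun i => w i - 2 * lorZ w v * v i

lemma toR_reflZ (v w : Fin 7 → ℤ) : toR (reflZ v w) = refl v (toR w) := by
  funext i
  rw [refl_eq, lor_toR]
  simp [toR, reflZ]

lemma adj {l : List (Fin 7 → ℤ)} (hl : ∀ v ∈ l, IsWall v) (x : Fin 7 → ℝ)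
    (w : Fin 7 → ℤ) (hw : lorZ w w = -3) (hw0 : 0 < w 0) :
    ∃ w' : Fin 7 → ℤ, lorZ w' w' = -3 ∧ 0 < w' 0 ∧
      lor (l.foldr refl x) (toR w) = lor x (toR w') := by
  induction l generalizing w with
  | nil => exact ⟨w, hw, hw0, rfl⟩
  | cons v l ih =>
    have hv : IsWall v := hl v List.mem_cons_self
    have h1 : lor (toR w) (toR w) = -3 := by rw [lor_toR, hw]; norm_num
    have h2 := refl_H6 hv (x := toR w) (a := -3) (by norm_num) h1 (by
      simp only [toR]; exact_mod_cast hw0)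
    rw [← toR_reflZ, lor_toR] at h2
    obtain ⟨w', h3, h4, h5⟩ := ih (fun u hu => hl u (List.mem_cons_of_mem _ hu)) (reflZ v w)
      (by exact_mod_cast h2.1) (by simpa only [toR, Int.cast_pos] using h2.2)
    refine ⟨w', h3, h4, ?_⟩
    rw [List.foldr_cons, lor_refl, ← toR_reflZ, h5]

/-- Pairing with a future timelike vector is bounded below. -/
lemma lor_le {x : Fin 7 → ℝ} {w : Fin 7 → ℝ} (hw : lor w w < 0) (hw0 : 0 < w 0) :
    (x 0 - Real.sqrt (∑ i : Fin 6, x i.succ * x i.succ)) * w 0 ≤ -lor x w := by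
  have cs : (∑ i : Fin 6, x i.succ * w i.succ) ^ 2 ≤
      (∑ i : Fin 6, x i.succ * x i.succ) * ∑ i : Fin 6, w i.succ * w i.succ := by
    have := Finset.sum_mul_sq_le_sq_mul_sq Finset.univ (fun i : Fin 6 => x i.succ)
      (fun i : Fin 6 => w i.succ)
    simpa only [← pow_two] using this
  have ha : 0 ≤ ∑ i : Fin 6, x i.succ * x i.succ := Finset.sum_nonneg fun i _ => mul_self_nonneg _
  have hb : 0 ≤ ∑ i : Fin 6, w i.succ * w i.succ := Finset.sum_nonneg fun i _ => mul_self_nonneg _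
  unfold lor at hw ⊢
  generalize (∑ i : Fin 6, x i.succ * x i.succ) = a at *
  generalize (∑ i : Fin 6, w i.succ * w i.succ) = b at *
  generalize (∑ i : Fin 6, x i.succ * w i.succ) = s at *
  have h1 : s ^ 2 ≤ (Real.sqrt a * w 0) ^ 2 := by
    rw [mul_pow, Real.sq_sqrt ha]
    refine cs.trans ?_
    exact mul_le_mul_of_nonneg_left (by nlinarith) ha
  have h2 : |s| ≤ |Real.sqrt a * w 0| := sq_le_sq.1 h1
  rw [abs_of_nonneg (mul_nonneg (Real.sqrt_nonneg _) hw0.le)] at h2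
  have h3 := le_abs_self s
  nlinarith

lemma gap_pos {x : Fin 7 → ℝ} (hx : lor x x = -1) (hx0 : 0 < x 0) :
    0 < x 0 - Real.sqrt (∑ i : Fin 6, x i.succ * x i.succ) := by
  rw [sub_pos, Real.sqrt_lt' hx0]
  unfold lor at hx
  nlinarith

lemma finite_vectors {x : Fin 7 → ℝ} (hx : lor x x = -1) (hx0 : 0 < x 0) (M : ℝ) :
    {w : Fin 7 → ℤ | lorZ w w = -3 ∧ 0 < w 0 ∧ -lor x (toR w) ≤ M}.Finite := by
  set g := x 0 - Real.sqrt (∑ i : Fin 6, x i.succ * x i.succ) with hg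
  have hgpos : 0 < g := gap_pos hx hx0
  obtain ⟨B, hB⟩ := exists_nat_ge (M / g)
  refine (Set.finite_Icc (fun _ : Fin 7 => -(B : ℤ)) (fun _ : Fin 7 => (B : ℤ))).subset ?_
  rintro w ⟨h1, h2, h3⟩
  have h4 : lor (toR w) (toR w) < 0 := by rw [lor_toR, h1]; norm_num
  have h5 : 0 < toR w 0 := by simp only [toR]; exact_mod_cast h2
  have h6 := lor_le (x := x) h4 h5
  rw [← hg] at h6
  have h7 : (w 0 : ℝ) ≤ B := by
    have : toR w 0 ≤ M / g := by
      rw [le_div_iff₀ hgpos]; linarith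
    exact this.trans hB
  have h8 : w 0 ≤ B := by exact_mod_cast h7
  have h9 : ∀ i : Fin 6, |w i.succ| ≤ B := by
    intro i
    have h10 : w i.succ * w i.succ ≤ ∑ i : Fin 6, w i.succ * w i.succ :=
      Finset.single_le_sum (f := fun i : Fin 6 => w i.succ * w i.succ)
        (fun i _ => mul_self_nonneg _) (Finset.mem_univ i)
    unfold lorZ at h1
    have h11 : |w i.succ| ≤ |w 0| := by
      rw [← sq_le_sq]; nlinarith
    rw [abs_of_pos h2] at h11
    linarith
  refine ⟨fun i => ?_, fun i => ?_⟩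
  · refine Fin.cases ?_ (fun j => ?_) i
    · show -(B : ℤ) ≤ w 0
      linarith
    · show -(B : ℤ) ≤ w j.succ
      exact (abs_le.1 (h9 j)).1
  · refine Fin.cases h8 (fun j => ?_) i
    · show w j.succ ≤ (B : ℤ)
      exact (abs_le.1 (h9 j)).2

/-- Step (a): every point of `H6` can be moved into the polytope by wall reflections. -/
lemma exists_polytope {x : Fin 7 → ℝ} (hx : lor x x = -1) (hx0 : 0 < x 0) :
    ∃ l : List (Fin 7 → ℤ), (∀ v ∈ l, IsWall v) ∧
      ∀ v, IsWall v → lor (l.foldr refl x) (toR v) ≤ 0 := by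
  have hcc0 : (0 : ℤ) < cc 0 := by simp [cc]
  let S : Set (Fin 7 → ℤ) := {w | (lorZ w w = -3 ∧ 0 < w 0 ∧ -lor x (toR w) ≤ -lor x (toR cc)) ∧
    ∃ l : List (Fin 7 → ℤ), (∀ v ∈ l, IsWall v) ∧
      lor (l.foldr refl x) (toR cc) = lor x (toR w)}
  have hfin : S.Finite := (finite_vectors hx hx0 (-lor x (toR cc))).subset fun w hw => hw.1
  have hne : S.Nonempty := ⟨cc, ⟨lorZ_cc_cc, hcc0, le_rfl⟩, [], by simp, rfl⟩
  obtain ⟨w, hwS, hmin⟩ := Set.exists_min_image S (fun w => -lor x (toR w)) hfin hne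
  obtain ⟨⟨hw1, hw2, hw3⟩, l, hl, hlw⟩ := hwS
  refine ⟨l, hl, fun v hv => ?_⟩
  have hl' : ∀ u ∈ v :: l, IsWall u := by
    intro u hu
    rcases List.mem_cons.1 hu with rfl | hu
    · exact hv
    · exact hl u hu
  obtain ⟨w', h1, h2, h3⟩ := adj hl' x cc lorZ_cc_cc hcc0
  have h4 : -lor x (toR w) ≤ -lor x (toR w') := by
    by_cases h5 : -lor x (toR w') ≤ -lor x (toR cc)
    · exact hmin w' ⟨⟨h1, h2, h5⟩, v :: l, hl', h3⟩
    · linarith
  rw [← hlw, ← h3, List.foldr_cons, refl_eq, lor_sub_left, lor_smul_left, lor_toR, hv.center] at h4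
  push_cast at h4
  linarith

end Pool.Agent.Helper87.Hyp6V
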