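import Mathlib

/-!
# Free resolutions by permutation modules

Chain maps and chain homotopies between free resolutions by permutation modules of a group `Γ`,
and their descent to the complexes of orbits.
-/

namespace Pool.Agent.Helper87.Hyp6T

open Finsupp

/-- a linear map between permutation modules commutes with the action -/
def Equi (Γ : Type) [Group Γ] {A B : Type} [MulAction Γ A] [MulAction Γ B]
    (φ : (A →₀ ℚ) →ₗ[ℚ] (B →₀ ℚ)) : Prop :=
  ∀ (g : Γ) (z : A →₀ ℚ), φ (z.mapDomain (g • ·)) = (φ z).mapDomain (g • ·)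

section Basic

variable {Γ : Type} [Group Γ]

theorem equi_of_single {A B : Type} [MulAction Γ A] [MulAction Γ B]
    (φ : (A →₀ ℚ) →ₗ[ℚ] (B →₀ ℚ))
    (h : ∀ (g : Γ) (a : A), φ (single (g • a) 1) = (φ (single a 1)).mapDomain (g • ·)) :
    Equi Γ φ := by
  intro g z
  have : φ ∘ₗ lmapDomain ℚ ℚ (g • ·) = lmapDomain ℚ ℚ (g • ·) ∘ₗ φ := by
    ext a : 2
    simp only [LinearMap.comp_apply, lsingle_apply, lmapDomain_apply, mapDomain_single]
    exact h g a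
  exact LinearMap.congr_fun this z

theorem Equi.comp {A B C : Type} [MulAction Γ A] [MulAction Γ B] [MulAction Γ C]
    {φ : (A →₀ ℚ) →ₗ[ℚ] (B →₀ ℚ)} {ψ : (B →₀ ℚ) →ₗ[ℚ] (C →₀ ℚ)}
    (hψ : Equi Γ ψ) (hφ : Equi Γ φ) : Equi Γ (ψ ∘ₗ φ) := by
  intro g z
  simp only [LinearMap.comp_apply]
  rw [hφ g z, hψ g]

theorem Equi.sub {A B : Type} [MulAction Γ A] [MulAction Γ B]
    {φ ψ : (A →₀ ℚ) →ₗ[ℚ] (B →₀ ℚ)}
    (hψ : Equi Γ ψ) (hφ : Equi Γ φ) : Equi Γ (ψ - φ) := by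
  intro g z
  have := (lmapDomain ℚ ℚ (fun b : B => g • b)).map_sub (ψ z) (φ z)
  simp only [lmapDomain_apply] at this
  simp only [LinearMap.sub_apply]
  rw [hφ g z, hψ g, this]

theorem Equi.id {A : Type} [MulAction Γ A] :
    Equi Γ (LinearMap.id : (A →₀ ℚ) →ₗ[ℚ] (A →₀ ℚ)) := fun _ _ => rfl

/-- lifting a map out of a free permutation module -/
theorem exists_lift {A B B' : Type} [MulAction Γ A] [MulAction Γ B] [MulAction Γ B']
    (hfree : ∀ (g : Γ) (a : A), g • a = a → g = 1)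
    (D : (B →₀ ℚ) →ₗ[ℚ] (B' →₀ ℚ)) (hD : Equi Γ D)
    (ψ : (A →₀ ℚ) →ₗ[ℚ] (B' →₀ ℚ)) (hψ : Equi Γ ψ)
    (h : ∀ a, ∃ y, D y = ψ (single a 1)) :
    ∃ φ : (A →₀ ℚ) →ₗ[ℚ] (B →₀ ℚ), Equi Γ φ ∧ ∀ z, D (φ z) = ψ z := by
  classical
  let r : A → A := fun a => (Quotient.mk (MulAction.orbitRel Γ A) a).out
  have hr : ∀ a, ∃ g : Γ, g • r a = a := by
    intro a
    have : MulAction.orbitRel Γ A a (r a) :=
      Setoid.symm' _ (Quotient.mk_out (s := MulAction.orbitRel Γ A) a)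
    obtain ⟨g, hg⟩ := MulAction.orbitRel_apply.1 this
    exact ⟨g, hg⟩
  have hrg : ∀ (g : Γ) a, r (g • a) = r a := by
    intro g a
    have : Quotient.mk (MulAction.orbitRel Γ A) (g • a) = Quotient.mk (MulAction.orbitRel Γ A) a :=
      Quotient.sound (MulAction.orbitRel_apply.2 ⟨g, rfl⟩)
    simp only [r, this]
  choose γ hγ using hr
  choose y hy using h
  have hγg : ∀ (g : Γ) a, γ (g • a) = g * γ a := by
    intro g a
    have h1 : γ (g • a) • r a = g • a := by rw [← hrg g a]; exact hγ _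
    have h2 : (g * γ a) • r a = g • a := by rw [mul_smul, hγ]
    have h3 : ((g * γ a)⁻¹ * γ (g • a)) • r a = r a := by
      rw [mul_smul, h1, ← h2, ← mul_smul, inv_mul_cancel, one_smul]
    have := hfree _ _ h3
    rw [inv_mul_eq_one] at this
    exact this.symm
  let φ : (A →₀ ℚ) →ₗ[ℚ] (B →₀ ℚ) :=
    linearCombination ℚ (fun a => (y (r a)).mapDomain (γ a • ·))
  have hφ : ∀ a, φ (single a 1) = (y (r a)).mapDomain (γ a • ·) := by
    intro a
    simp [φ]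
  refine ⟨φ, equi_of_single φ ?_, ?_⟩
  · intro g a
    rw [hφ, hφ, hrg, hγg, ← mapDomain_comp]
    congr 1
    funext b
    simp [mul_smul]
  · have : D ∘ₗ φ = ψ := by
      ext a : 2
      simp only [LinearMap.comp_apply, lsingle_apply]
      rw [hφ, hD, hy, ← hψ, mapDomain_single, hγ]
    intro z
    exact LinearMap.congr_fun this z

/-- descent of an equivariant map to orbits -/
theorem exists_descend {A B : Type} [MulAction Γ A] [MulAction Γ B]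
    {QA QB : Type} (pA : A → QA) (pB : B → QB) (hA : Function.Surjective pA)
    (hA' : ∀ a b, pA a = pA b → ∃ g : Γ, g • a = b)
    (hB : ∀ (g : Γ) b, pB (g • b) = pB b)
    (φ : (A →₀ ℚ) →ₗ[ℚ] (B →₀ ℚ)) (hφ : Equi Γ φ) :
    ∃ ψ : (QA →₀ ℚ) →ₗ[ℚ] (QB →₀ ℚ),
      ∀ z, ψ (z.mapDomain pA) = (φ z).mapDomain pB := by
  classical
  choose s hs using hA
  let ψ : (QA →₀ ℚ) →ₗ[ℚ] (QB →₀ ℚ) :=
    linearCombination ℚ (fun a => (φ (single (s a) 1)).mapDomain pB)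
  refine ⟨ψ, ?_⟩
  have : ψ ∘ₗ lmapDomain ℚ ℚ pA = lmapDomain ℚ ℚ pB ∘ₗ φ := by
    ext a : 2
    simp only [LinearMap.comp_apply, lsingle_apply, lmapDomain_apply, mapDomain_single]
    obtain ⟨g, hg⟩ := hA' (s (pA a)) a (hs _)
    have h1 : ψ (single (pA a) 1) = (φ (single (s (pA a)) 1)).mapDomain pB := by simp [ψ]
    rw [h1]
    have h2 : φ (single a 1) = (φ (single (s (pA a)) 1)).mapDomain (g • ·) := by
      rw [← hφ, mapDomain_single, hg]
    rw [h2, ← mapDomain_comp]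
    congr 1
    funext b
    exact (hB g b).symm
  intro z
  exact LinearMap.congr_fun this z

theorem mapDomain_surjective' {A B : Type} (p : A → B) (hp : Function.Surjective p)
    (z : B →₀ ℚ) : ∃ w : A →₀ ℚ, w.mapDomain p = z := by
  obtain ⟨s, hs⟩ := hp.hasRightInverse
  refine ⟨z.mapDomain s, ?_⟩
  rw [← mapDomain_comp]
  have : p ∘ s = id := funext hs
  rw [this, mapDomain_id]

/-- dependent choice along `ℕ` -/
theorem exists_seq {α : ℕ → Type} (Q : ∀ n, α n → Prop) (R : ∀ n, α n → α (n + 1) → Prop)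
    (a0 : α 0) (h0 : Q 0 a0) (step : ∀ n a, Q n a → ∃ b, Q (n + 1) b ∧ R n a b) :
    ∃ a : ∀ n, α n, a 0 = a0 ∧ (∀ n, Q n (a n)) ∧ ∀ n, R n (a n) (a (n + 1)) := by
  classical
  choose b hb using step
  let s : ∀ n, {a : α n // Q n a} := fun n =>
    Nat.rec ⟨a0, h0⟩ (fun n a => ⟨b n a.1 a.2, (hb n a.1 a.2).1⟩) n
  exact ⟨fun n => (s n).1, rfl, fun n => (s n).2, fun n => (hb n (s n).1 (s n).2).2⟩

end Basic

/-- sum of the coefficients -/
noncomputable def aug (A : Type) : (A →₀ ℚ) →ₗ[ℚ] ℚ := linearCombination ℚ (fun _ => (1 : ℚ))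

theorem aug_single {A : Type} (a : A) (c : ℚ) : aug A (single a c) = c := by simp [aug]

theorem aug_eq_sum {A : Type} (z : A →₀ ℚ) : aug A z = z.sum fun _ c => c := by
  simp [aug, linearCombination_apply]

theorem aug_mapDomain {A B : Type} (p : A → B) (z : A →₀ ℚ) : aug B (z.mapDomain p) = aug A z := by
  have : aug B ∘ₗ lmapDomain ℚ ℚ p = aug A := by
    ext a
    simp [aug]
  exact LinearMap.congr_fun this z

/-- A free resolution of the trivial module by permutation modules, together with its complex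
of orbits. -/
structure FreeRes (Γ : Type) [Group Γ] where
  /-- the basis in degree `n` -/
  A : ℕ → Type
  /-- the action -/
  act : ∀ n, MulAction Γ (A n)
  /-- the differential -/
  D : ∀ n, (A (n + 1) →₀ ℚ) →ₗ[ℚ] (A n →₀ ℚ)
  equi : ∀ n, Equi Γ (D n)
  free : ∀ n (g : Γ) (a : A n), g • a = a → g = 1
  exact : ∀ n z, D n z = 0 ↔ ∃ y, D (n + 1) y = z
  exact0 : ∀ z, aug (A 0) z = 0 ↔ ∃ y, D 0 y = z
  ne : Nonempty (A 0)
  /-- the set of orbits -/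
  Q : ℕ → Type
  /-- the orbit map -/
  p : ∀ n, A n → Q n
  psurj : ∀ n, Function.Surjective (p n)
  pfib : ∀ n a b, p n a = p n b ↔ ∃ g : Γ, g • a = b
  /-- the differential on orbits -/
  DQ : ∀ n, (Q (n + 1) →₀ ℚ) →ₗ[ℚ] (Q n →₀ ℚ)
  pD : ∀ n z, DQ n (z.mapDomain (p (n + 1))) = (D n z).mapDomain (p n)

attribute [instance] FreeRes.act

namespace FreeRes

variable {Γ : Type} [Group Γ]

theorem D_D (R : FreeRes Γ) (n : ℕ) (z) : R.D n (R.D (n + 1) z) = 0 := (R.exact n _).2 ⟨z, rfl⟩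

theorem aug_D (R : FreeRes Γ) (z) : aug _ (R.D 0 z) = 0 := (R.exact0 _).2 ⟨z, rfl⟩

theorem exists_chainMap (R S : FreeRes Γ) :
    ∃ f : ∀ n, (R.A n →₀ ℚ) →ₗ[ℚ] (S.A n →₀ ℚ), (∀ n, Equi Γ (f n)) ∧
      (∀ z, aug _ (f 0 z) = aug _ z) ∧ ∀ n z, S.D n (f (n + 1) z) = f n (R.D n z) := by
  classical
  -- degree zero
  let _ : MulAction Γ PUnit.{1} :=
    { smul := fun _ x => x, one_smul := fun _ => rfl, mul_smul := fun _ _ _ => rfl }
  obtain ⟨f0, hf0, hf0'⟩ : ∃ f0 : (R.A 0 →₀ ℚ) →ₗ[ℚ] (S.A 0 →₀ ℚ), Equi Γ f0 ∧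
      ∀ z, lmapDomain ℚ ℚ (fun _ => PUnit.unit) (f0 z) =
        lmapDomain ℚ ℚ (fun _ => PUnit.unit) z := by
    refine exists_lift (Γ := Γ) (R.free 0) (lmapDomain ℚ ℚ (fun _ => PUnit.unit))
      (equi_of_single _ ?_) (lmapDomain ℚ ℚ (fun _ => PUnit.unit)) (equi_of_single _ ?_) ?_
    · intro g a
      simp only [lmapDomain_apply, mapDomain_single]
    · intro g a
      simp only [lmapDomain_apply, mapDomain_single]
    · intro a
      obtain ⟨b⟩ := S.ne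
      exact ⟨single b 1, by simp only [lmapDomain_apply, mapDomain_single]⟩
  have haug0 : ∀ z, aug _ (f0 z) = aug _ z := by
    intro z
    have h := congrArg (aug PUnit) (hf0' z)
    simp only [lmapDomain_apply, aug_mapDomain] at h
    exact h
  obtain ⟨f, hf, hf', hf''⟩ := exists_seq (α := fun n => (R.A n →₀ ℚ) →ₗ[ℚ] (S.A n →₀ ℚ))
    (fun n f => Equi Γ f ∧ ∀ z, ∃ y, S.D n y = f (R.D n z))
    (fun n f f' => ∀ z, S.D n (f' z) = f (R.D n z)) f0
    ⟨hf0, fun z => (S.exact0 _).1 (by rw [haug0, R.aug_D])⟩ (by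
      rintro n f ⟨hf, hf'⟩
      obtain ⟨f', h1, h2⟩ := exists_lift (Γ := Γ) (R.free (n + 1)) (S.D n) (S.equi n)
        (f ∘ₗ R.D n) (hf.comp (R.equi n)) (fun a => hf' _)
      refine ⟨f', ⟨h1, fun z => (S.exact n _).1 ?_⟩, h2⟩
      rw [h2, LinearMap.comp_apply, R.D_D, map_zero])
  exact ⟨f, fun n => (hf' n).1, fun z => by rw [hf]; exact haug0 z, hf''⟩

theorem exists_homotopy (R S : FreeRes Γ) (f g : ∀ n, (R.A n →₀ ℚ) →ₗ[ℚ] (S.A n →₀ ℚ))
    (hf : ∀ n, Equi Γ (f n)) (hg : ∀ n, Equi Γ (g n))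
    (hf0 : ∀ z, aug _ (f 0 z) = aug _ z) (hg0 : ∀ z, aug _ (g 0 z) = aug _ z)
    (hfD : ∀ n z, S.D n (f (n + 1) z) = f n (R.D n z))
    (hgD : ∀ n z, S.D n (g (n + 1) z) = g n (R.D n z)) :
    ∃ h : ∀ n, (R.A n →₀ ℚ) →ₗ[ℚ] (S.A (n + 1) →₀ ℚ), (∀ n, Equi Γ (h n)) ∧
      (∀ z, S.D 0 (h 0 z) = f 0 z - g 0 z) ∧
      ∀ n z, S.D (n + 1) (h (n + 1) z) + h n (R.D n z) = f (n + 1) z - g (n + 1) z := by
  classical
  obtain ⟨h0, hh0, hh0'⟩ := exists_lift (Γ := Γ) (R.free 0) (S.D 0) (S.equi 0)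
    (f 0 - g 0) ((hf 0).sub (hg 0)) (fun a => (S.exact0 _).1 (by
      rw [LinearMap.sub_apply, map_sub, hf0, hg0, sub_self]))
  obtain ⟨h, h1, h2, h3⟩ := exists_seq (α := fun n => (R.A n →₀ ℚ) →ₗ[ℚ] (S.A (n + 1) →₀ ℚ))
    (fun n h => Equi Γ h ∧ ∀ z, S.D n (h (R.D n z)) = f n (R.D n z) - g n (R.D n z))
    (fun n h h' => ∀ z, S.D (n + 1) (h' z) + h (R.D n z) = f (n + 1) z - g (n + 1) z) h0
    ⟨hh0, fun z => by rw [hh0', LinearMap.sub_apply]⟩ (by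
      rintro n h ⟨hh, hh'⟩
      obtain ⟨h', h1, h2⟩ := exists_lift (Γ := Γ) (R.free (n + 1)) (S.D (n + 1)) (S.equi (n + 1))
        (f (n + 1) - g (n + 1) - h ∘ₗ R.D n)
        (((hf _).sub (hg _)).sub (hh.comp (R.equi n))) (fun a => (S.exact n _).1 (by
          simp only [LinearMap.sub_apply, LinearMap.comp_apply, map_sub]
          rw [hfD, hgD, hh', sub_self]))
      refine ⟨h', ⟨h1, fun z => ?_⟩, fun z => ?_⟩
      · rw [h2]
        simp only [LinearMap.sub_apply, LinearMap.comp_apply]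
        rw [R.D_D, map_zero, sub_zero]
      · rw [h2]
        simp only [LinearMap.sub_apply, LinearMap.comp_apply]
        abel)
  exact ⟨h, fun n => (h2 n).1, fun z => by rw [h1, hh0', LinearMap.sub_apply], h3⟩

theorem smul_p (R : FreeRes Γ) (n : ℕ) (g : Γ) (a : R.A n) : R.p n (g • a) = R.p n a :=
  ((R.pfib n _ _).2 ⟨g, rfl⟩).symm

theorem descend (R S : FreeRes Γ) {n m : ℕ} (φ : (R.A n →₀ ℚ) →ₗ[ℚ] (S.A m →₀ ℚ))
    (hφ : Equi Γ φ) : ∃ ψ : (R.Q n →₀ ℚ) →ₗ[ℚ] (S.Q m →₀ ℚ),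
      ∀ z, ψ (z.mapDomain (R.p n)) = (φ z).mapDomain (S.p m) :=
  exists_descend (R.p n) (S.p m) (R.psurj n) (fun a b h => (R.pfib n a b).1 h)
    (fun g b => S.smul_p m g b) φ hφ

theorem DQ_DQ (R : FreeRes Γ) (n : ℕ) (z) : R.DQ n (R.DQ (n + 1) z) = 0 := by
  obtain ⟨w, rfl⟩ := mapDomain_surjective' _ (R.psurj (n + 2)) z
  rw [R.pD, R.pD, R.D_D, mapDomain_zero]

/-- the comparison of the two complexes of orbits -/
theorem compare (R S : FreeRes Γ) :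
    ∃ (f : ∀ n, (R.Q n →₀ ℚ) →ₗ[ℚ] (S.Q n →₀ ℚ)) (g : ∀ n, (S.Q n →₀ ℚ) →ₗ[ℚ] (R.Q n →₀ ℚ))
      (h : ∀ n, (R.Q n →₀ ℚ) →ₗ[ℚ] (R.Q (n + 1) →₀ ℚ))
      (k : ∀ n, (S.Q n →₀ ℚ) →ₗ[ℚ] (S.Q (n + 1) →₀ ℚ)),
      (∀ n z, S.DQ n (f (n + 1) z) = f n (R.DQ n z)) ∧
      (∀ n z, R.DQ n (g (n + 1) z) = g n (S.DQ n z)) ∧
      (∀ z, R.DQ 0 (h 0 z) = g 0 (f 0 z) - z) ∧
      (∀ n z, R.DQ (n + 1) (h (n + 1) z) + h n (R.DQ n z) = g (n + 1) (f (n + 1) z) - z) ∧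
      (∀ z, S.DQ 0 (k 0 z) = f 0 (g 0 z) - z) ∧
      (∀ n z, S.DQ (n + 1) (k (n + 1) z) + k n (S.DQ n z) = f (n + 1) (g (n + 1) z) - z) := by
  obtain ⟨f, hf, hf0, hfD⟩ := exists_chainMap R S
  obtain ⟨g, hg, hg0, hgD⟩ := exists_chainMap S R
  obtain ⟨h, hh, hh0, hhD⟩ := exists_homotopy R R (fun n => g n ∘ₗ f n) (fun n => LinearMap.id)
    (fun n => (hg n).comp (hf n)) (fun n => Equi.id)
    (fun z => by rw [LinearMap.comp_apply, hg0, hf0]) (fun z => rfl)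
    (fun n z => by simp only [LinearMap.comp_apply]; rw [hgD, hfD]) (fun n z => rfl)
  obtain ⟨k, hk, hk0, hkD⟩ := exists_homotopy S S (fun n => f n ∘ₗ g n) (fun n => LinearMap.id)
    (fun n => (hf n).comp (hg n)) (fun n => Equi.id)
    (fun z => by rw [LinearMap.comp_apply, hf0, hg0]) (fun z => rfl)
    (fun n z => by simp only [LinearMap.comp_apply]; rw [hfD, hgD]) (fun n z => rfl)
  choose f' hf' using fun n => descend R S (f n) (hf n)
  choose g' hg' using fun n => descend S R (g n) (hg n)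
  choose h' hh' using fun n => descend R R (h n) (hh n)
  choose k' hk' using fun n => descend S S (k n) (hk n)
  have hsub : ∀ {A B : Type} (p : A → B) (x y : A →₀ ℚ),
      (x - y).mapDomain p = x.mapDomain p - y.mapDomain p := fun p x y =>
    (lmapDomain ℚ ℚ p).map_sub x y
  have hadd : ∀ {A B : Type} (p : A → B) (x y : A →₀ ℚ),
      (x + y).mapDomain p = x.mapDomain p + y.mapDomain p := fun p x y =>
    (lmapDomain ℚ ℚ p).map_add x y
  refine ⟨f', g', h', k', ?_, ?_, ?_, ?_, ?_, ?_⟩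
  · intro n z
    obtain ⟨w, rfl⟩ := mapDomain_surjective' _ (R.psurj (n + 1)) z
    rw [hf', S.pD, hfD, R.pD, hf']
  · intro n z
    obtain ⟨w, rfl⟩ := mapDomain_surjective' _ (S.psurj (n + 1)) z
    rw [hg', R.pD, hgD, S.pD, hg']
  · intro z
    obtain ⟨w, rfl⟩ := mapDomain_surjective' _ (R.psurj 0) z
    rw [hh', R.pD, hh0, hsub, hf', hg']
    rfl
  · intro n z
    obtain ⟨w, rfl⟩ := mapDomain_surjective' _ (R.psurj (n + 1)) z
    rw [hh', R.pD, R.pD, hh', hf', hg', ← hadd, hhD, hsub]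
    rfl
  · intro z
    obtain ⟨w, rfl⟩ := mapDomain_surjective' _ (S.psurj 0) z
    rw [hk', S.pD, hk0, hsub, hg', hf']
    rfl
  · intro n z
    obtain ⟨w, rfl⟩ := mapDomain_surjective' _ (S.psurj (n + 1)) z
    rw [hk', S.pD, S.pD, hk', hg', hf', ← hadd, hkD, hsub]
    rfl

end FreeRes

end Pool.Agent.Helper87.Hyp6T
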