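import Pool.Agent.Helper87.Hyp6TSing

/-!
# Exactness of the augmented singular chains of a contractible space
-/

namespace Pool.Agent.Helper87.Hyp6T

open CategoryTheory Finsupp Simplicial Limits

/-- the singular simplicial set of a space -/
noncomputable abbrev Sg (X : Type) [TopologicalSpace X] : SSet.{0} :=
  TopCat.toSSet.obj (TopCat.of X)

/-- the map of singular simplices -/
noncomputable def Sg.map {X Y : Type} [TopologicalSpace X] [TopologicalSpace Y] (f : C(X, Y)) :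
    Sg X ⟶ Sg Y := TopCat.toSSet.map (TopCat.ofHom f)

theorem Sg.map_id (X : Type) [TopologicalSpace X] : Sg.map (ContinuousMap.id X) = 𝟙 _ :=
  TopCat.toSSet.map_id _

theorem Sg.map_comp {X Y Z : Type} [TopologicalSpace X] [TopologicalSpace Y] [TopologicalSpace Z]
    (f : C(X, Y)) (g : C(Y, Z)) : Sg.map (g.comp f) = Sg.map f ≫ Sg.map g :=
  TopCat.toSSet.map_comp _ _

theorem dS_dS (X : SSet.{0}) (n : ℕ) (z : X _⦋n + 2⦌ →₀ ℚ) : dS X n (dS X (n + 1) z) = 0 := by
  have h1 := cIso_d X n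
  have h2 := cIso_d X (n + 1)
  have h3 : (cIso X (n + 2)).hom ≫ ModuleCat.ofHom (dS X (n + 1)) ≫ ModuleCat.ofHom (dS X n) =
      (cIso X (n + 2)).hom ≫ 0 := by
    rw [← Category.assoc, h2, Category.assoc, h1, ← Category.assoc,
      HomologicalComplex.d_comp_d, zero_comp, comp_zero]
  have h4 := (cancel_epi _).1 h3
  exact LinearMap.congr_fun (congrArg ModuleCat.Hom.hom h4) z

theorem aug_dS (X : SSet.{0}) (z : X _⦋1⦌ →₀ ℚ) : aug _ (dS X 0 z) = 0 := by
  have : aug _ ∘ₗ dS X 0 = 0 := by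
    apply Finsupp.lhom_ext
    intro x c
    rw [LinearMap.comp_apply, dS_single, map_sum]
    simp only [aug_single, LinearMap.zero_apply]
    rw [Fin.sum_univ_two]
    simp
  exact LinearMap.congr_fun this z

theorem toSSet_punit (n : ℕ) : Nonempty (Unique ((Sg PUnit.{1}) _⦋n⦌)) := by
  have e := (TopCat.toSSetObjEquiv (TopCat.of PUnit.{1}) (Opposite.op ⦋n⦌))
  exact ⟨{ default := e.symm (ContinuousMap.const _ PUnit.unit)
           uniq := fun a => e.injective (by ext) }⟩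

theorem alt_sum_odd (n : ℕ) (hn : Odd n) : ∑ i : Fin n, ((-1 : ℚ)) ^ (i : ℕ) = 1 := by
  rw [Fin.sum_univ_eq_sum_range (fun i => (-1 : ℚ) ^ i) n, neg_one_geom_sum]
  rw [if_neg]
  exact Nat.not_even_iff_odd.2 hn

/-- contracting data on the singular chains of a contractible space -/
theorem exists_contr (X : Type) [TopologicalSpace X] [ContractibleSpace X] :
    ∃ (κ : ∀ n, (Sg X) _⦋n⦌) (s : ∀ n, ((Sg X) _⦋n⦌ →₀ ℚ) →ₗ[ℚ] ((Sg X) _⦋n + 1⦌ →₀ ℚ)),
      (∀ n (i : Fin (n + 2)), (Sg X).δ i (κ (n + 1)) = κ n) ∧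
      (∀ z, z = dS (Sg X) 0 (s 0 z) + single (κ 0) (aug _ z)) ∧
      (∀ n z, z = s n (dS (Sg X) n z) + dS (Sg X) (n + 1) (s (n + 1) z) +
        single (κ (n + 1)) (aug _ z)) := by
  obtain ⟨x0, ⟨H⟩⟩ := id_nullhomotopic X
  let gX : C(X, PUnit.{1}) := ContinuousMap.const _ PUnit.unit
  let gP : C(PUnit.{1}, X) := ContinuousMap.const _ x0
  have hg : ContinuousMap.const X x0 = gP.comp gX := rfl
  let pt : ∀ n, (Sg PUnit.{1}) _⦋n⦌ := fun n => (toSSet_punit n).some.default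
  have hpt : ∀ n (a b : (Sg PUnit.{1}) _⦋n⦌), a = b := fun n a b =>
    ((toSSet_punit n).some.uniq a).trans ((toSSet_punit n).some.uniq b).symm
  let κ : ∀ n, (Sg X) _⦋n⦌ := fun n => (Sg.map gP).app _ (pt n)
  have hκ : ∀ n (i : Fin (n + 2)), (Sg X).δ i (κ (n + 1)) = κ n := by
    intro n i
    have h1 : (Sg X).δ i (κ (n + 1)) = (Sg.map gP).app _ ((Sg PUnit.{1}).δ i (pt (n + 1))) :=
      (congrArg (fun g => g (pt (n + 1))) ((Sg.map gP).naturality (SimplexCategory.δ i).op)).symm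
    rw [h1, hpt n ((Sg PUnit.{1}).δ i (pt (n + 1))) (pt n)]
  let S : _root_.Homotopy (SSet.chainComplexMap (Sg.map (ContinuousMap.id X)) QQ)
      (SSet.chainComplexMap (Sg.map (ContinuousMap.const X x0)) QQ) :=
    TopCat.Homotopy.singularChainComplexFunctorObjMap
      (X := TopCat.of X) (Y := TopCat.of X) (f := TopCat.ofHom (ContinuousMap.id X))
      (g := TopCat.ofHom (ContinuousMap.const X x0)) H QQ
  let s : ∀ n, ((Sg X) _⦋n⦌ →₀ ℚ) →ₗ[ℚ] ((Sg X) _⦋n + 1⦌ →₀ ℚ) := fun n =>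
    ((cIso (Sg X) n).inv ≫ S.hom n (n + 1) ≫ (cIso (Sg X) (n + 1)).hom).hom
  have hs : ∀ n, ModuleCat.ofHom (s n) =
    (cIso (Sg X) n).inv ≫ S.hom n (n + 1) ≫ (cIso (Sg X) (n + 1)).hom := fun n => rfl
  have hconj : ∀ (F : Sg X ⟶ Sg X) n,
      ModuleCat.ofHom (lmapDomain ℚ ℚ (F.app (Opposite.op ⦋n⦌))) =
      (cIso (Sg X) n).inv ≫ (SSet.chainComplexMap F QQ).f n ≫ (cIso (Sg X) n).hom := by
    intro F n
    rw [cIso_map, Iso.inv_hom_id_assoc]
  have hd : ∀ n, ModuleCat.ofHom (dS (Sg X) n) =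
      (cIso (Sg X) (n + 1)).inv ≫ ((Sg X).chainComplex QQ).d (n + 1) n ≫
        (cIso (Sg X) n).hom := by
    intro n
    rw [← cIso_d, Iso.inv_hom_id_assoc]
  have hid : ∀ n (z : (Sg X) _⦋n⦌ →₀ ℚ),
      lmapDomain ℚ ℚ ((Sg.map (ContinuousMap.id X)).app (Opposite.op ⦋n⦌)) z = z := by
    intro n z
    rw [Sg.map_id]
    exact mapDomain_id
  have hconst : ∀ n (z : (Sg X) _⦋n⦌ →₀ ℚ),
      lmapDomain ℚ ℚ ((Sg.map (ContinuousMap.const X x0)).app (Opposite.op ⦋n⦌)) z =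
        single (κ n) (aug _ z) := by
    intro n z
    have : lmapDomain ℚ ℚ ((Sg.map (ContinuousMap.const X x0)).app (Opposite.op ⦋n⦌)) =
        lsingle (κ n) ∘ₗ aug _ := by
      ext x : 2
      simp only [LinearMap.comp_apply, lsingle_apply, lmapDomain_apply, aug_single]
      erw [mapDomain_single]
      congr 1
    rw [this, LinearMap.comp_apply, lsingle_apply]
  refine ⟨κ, s, hκ, ?_, ?_⟩
  · intro z
    have h1 := S.comm 0
    rw [Homotopy.dNext_zero_chainComplex, Homotopy.prevD_chainComplex, zero_add] at h1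
    have h2 : ModuleCat.ofHom (lmapDomain ℚ ℚ ((Sg.map (ContinuousMap.id X)).app
        (Opposite.op ⦋0⦌))) = ModuleCat.ofHom (s 0) ≫ ModuleCat.ofHom (dS (Sg X) 0) +
        ModuleCat.ofHom (lmapDomain ℚ ℚ ((Sg.map (ContinuousMap.const X x0)).app
        (Opposite.op ⦋0⦌))) := by
      rw [hconj, hconj, hs, hd, h1]
      simp only [Category.assoc, Iso.hom_inv_id_assoc, Preadditive.add_comp, Preadditive.comp_add]
    have h3 := LinearMap.congr_fun (congrArg ModuleCat.Hom.hom h2) z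
    have h4 : z = dS (Sg X) 0 (s 0 z) + lmapDomain ℚ ℚ ((Sg.map (ContinuousMap.const X x0)).app
        (Opposite.op ⦋0⦌)) z := by
      nth_rewrite 1 [← hid 0 z]
      exact h3
    rw [hconst] at h4
    exact h4
  · intro n z
    have h1 := S.comm (n + 1)
    rw [Homotopy.dNext_succ_chainComplex, Homotopy.prevD_chainComplex] at h1
    have h2 : ModuleCat.ofHom (lmapDomain ℚ ℚ ((Sg.map (ContinuousMap.id X)).app
        (Opposite.op ⦋n + 1⦌))) = ModuleCat.ofHom (dS (Sg X) n) ≫ ModuleCat.ofHom (s n) +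
        ModuleCat.ofHom (s (n + 1)) ≫ ModuleCat.ofHom (dS (Sg X) (n + 1)) +
        ModuleCat.ofHom (lmapDomain ℚ ℚ ((Sg.map (ContinuousMap.const X x0)).app
        (Opposite.op ⦋n + 1⦌))) := by
      rw [hconj, hconj, hs, hs, hd, hd, h1]
      simp only [Category.assoc, Iso.hom_inv_id_assoc, Preadditive.add_comp, Preadditive.comp_add]
    have h3 := LinearMap.congr_fun (congrArg ModuleCat.Hom.hom h2) z
    have h4 : z = s n (dS (Sg X) n z) + dS (Sg X) (n + 1) (s (n + 1) z) +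
        lmapDomain ℚ ℚ ((Sg.map (ContinuousMap.const X x0)).app (Opposite.op ⦋n + 1⦌)) z := by
      nth_rewrite 1 [← hid (n + 1) z]
      exact h3
    rw [hconst] at h4
    exact h4

theorem dS_const (X : SSet.{0}) (κ : ∀ n, X _⦋n⦌)
    (hκ : ∀ n (i : Fin (n + 2)), X.δ i (κ (n + 1)) = κ n) (n : ℕ) (hn : Odd n) (c : ℚ) :
    dS X n (single (κ (n + 1)) c) = single (κ n) c := by
  rw [dS_single]
  simp only [hκ]
  rw [← single_finsetSum, ← Finset.sum_mul, alt_sum_odd _ (by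
    obtain ⟨m, rfl⟩ := hn
    exact ⟨m + 1, by ring⟩), one_mul]

theorem exact_sing (X : Type) [TopologicalSpace X] [ContractibleSpace X] (n : ℕ)
    (z : (Sg X) _⦋n + 1⦌ →₀ ℚ) : dS (Sg X) n z = 0 ↔ ∃ y, dS (Sg X) (n + 1) y = z := by
  constructor
  · intro hz
    obtain ⟨κ, s, hκ, -, h⟩ := exists_contr X
    have h1 := h n z
    rw [hz, map_zero, zero_add] at h1
    rcases Nat.even_or_odd n with hn | hn
    · refine ⟨s (n + 1) z + single (κ (n + 2)) (aug _ z), ?_⟩
      rw [map_add, dS_const _ κ hκ (n + 1) hn.add_one]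
      exact h1.symm
    · have h2 := congrArg (dS (Sg X) n) h1
      rw [hz, map_add, dS_dS, zero_add, dS_const _ κ hκ n hn] at h2
      have h3 : aug _ z = 0 := by
        have := congrArg (aug _) h2
        rw [aug_single, map_zero] at this
        exact this.symm
      rw [h3, single_zero, add_zero] at h1
      exact ⟨_, h1.symm⟩
  · rintro ⟨y, rfl⟩
    exact dS_dS _ _ _

theorem exact0_sing (X : Type) [TopologicalSpace X] [ContractibleSpace X]
    (z : (Sg X) _⦋0⦌ →₀ ℚ) : aug _ z = 0 ↔ ∃ y, dS (Sg X) 0 y = z := by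
  constructor
  · intro hz
    obtain ⟨κ, s, hκ, h, -⟩ := exists_contr X
    refine ⟨s 0 z, ?_⟩
    have h1 := h z
    rw [hz, single_zero, add_zero] at h1
    exact h1.symm
  · rintro ⟨y, rfl⟩
    exact aug_dS _ _

end Pool.Agent.Helper87.Hyp6T
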