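import Pool.Agent.Helper87.Hyp6TAlg

/-!
# The complex of orbits of a free resolution as a chain complex

Two free resolutions have homotopy equivalent complexes of orbits.
-/

namespace Pool.Agent.Helper87.Hyp6T

open CategoryTheory Finsupp

/-- a homotopy between chain maps from its components -/
noncomputable def mkHomotopy {V : Type*} [Category* V] [Preadditive V] {C D : ChainComplex V ℕ}
    (f g : C ⟶ D) (h : ∀ n, C.X n ⟶ D.X (n + 1))
    (h0 : h 0 ≫ D.d 1 0 = f.f 0 - g.f 0)
    (hs : ∀ n, h (n + 1) ≫ D.d (n + 2) (n + 1) + C.d (n + 1) n ≫ h n =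
      f.f (n + 1) - g.f (n + 1)) : Homotopy f g :=
  Homotopy.equivSubZero.symm ((Homotopy.ofEq (by
    ext n
    rcases n with - | n
    · rw [Homotopy.nullHomotopicMap'_f_of_not_rel_left (k₁ := 1) (by simp) (by simp)]
      simp [h0]
    · rw [Homotopy.nullHomotopicMap'_f (k₂ := n + 2) (k₀ := n) (by simp) (by simp)]
      simp only [HomologicalComplex.sub_f_apply]
      rw [← hs n]
      simp only [eqToHom_refl, Category.comp_id]
      exact add_comm _ _)).trans
    (Homotopy.nullHomotopy' (C := C) (D := D) (fun i j hij =>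
      h i ≫ eqToHom (by rw [show i + 1 = j from hij]))))

namespace FreeRes

variable {Γ : Type} [Group Γ]

/-- the complex of orbits -/
noncomputable def cc (R : FreeRes Γ) : ChainComplex (ModuleCat.{0} ℚ) ℕ :=
  ChainComplex.of (fun n => ModuleCat.of ℚ (R.Q n →₀ ℚ)) (fun n => ModuleCat.ofHom (R.DQ n))
    (fun n => by
      apply ModuleCat.hom_ext
      apply LinearMap.ext
      intro z
      exact R.DQ_DQ n z)

theorem cc_d (R : FreeRes Γ) (n : ℕ) : R.cc.d (n + 1) n = ModuleCat.ofHom (R.DQ n) := by
  unfold cc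
  simp

/-- two free resolutions have homotopy equivalent complexes of orbits -/
theorem nonempty_homotopyEquiv (R S : FreeRes Γ) : Nonempty (HomotopyEquiv R.cc S.cc) := by
  obtain ⟨f, g, h, k, hf, hg, hh0, hh, hk0, hk⟩ := compare R S
  let F : R.cc ⟶ S.cc := ChainComplex.ofHom (fun n => ModuleCat.ofHom (f n)) (by
    intro n
    rw [cc_d, cc_d]
    apply ModuleCat.hom_ext
    apply LinearMap.ext
    intro z
    exact hf n z)
  let G : S.cc ⟶ R.cc := ChainComplex.ofHom (fun n => ModuleCat.ofHom (g n)) (by
    intro n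
    rw [cc_d, cc_d]
    apply ModuleCat.hom_ext
    apply LinearMap.ext
    intro z
    exact hg n z)
  refine ⟨⟨F, G, ?_, ?_⟩⟩
  · refine mkHomotopy _ _ (fun n => ModuleCat.ofHom (h n)) ?_ ?_
    · rw [cc_d]
      apply ModuleCat.hom_ext
      apply LinearMap.ext
      intro z
      exact hh0 z
    · intro n
      rw [cc_d, cc_d]
      apply ModuleCat.hom_ext
      apply LinearMap.ext
      intro z
      exact hh n z
  · refine mkHomotopy _ _ (fun n => ModuleCat.ofHom (k n)) ?_ ?_
    · rw [cc_d]
      apply ModuleCat.hom_ext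
      apply LinearMap.ext
      intro z
      exact hk0 z
    · intro n
      rw [cc_d, cc_d]
      apply ModuleCat.hom_ext
      apply LinearMap.ext
      intro z
      exact hk n z

end FreeRes

end Pool.Agent.Helper87.Hyp6T
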