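import Pool.Agent.Helper87.Hyp6TCx

/-!
# Chains of a simplicial set as finitely supported functions
-/

namespace Pool.Agent.Helper87.Hyp6T

open CategoryTheory Finsupp Simplicial Limits

/-- the differential on chains of a simplicial set -/
noncomputable def dS (X : SSet.{0}) (n : ℕ) : (X _⦋n + 1⦌ →₀ ℚ) →ₗ[ℚ] (X _⦋n⦌ →₀ ℚ) :=
  ∑ i : Fin (n + 2), ((-1 : ℚ) ^ (i : ℕ)) • lmapDomain ℚ ℚ (X.δ i)

theorem dS_single (X : SSet.{0}) (n : ℕ) (x : X _⦋n + 1⦌) (c : ℚ) :
    dS X n (single x c) = ∑ i : Fin (n + 2), single (X.δ i x) ((-1) ^ (i : ℕ) * c) := by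
  simp only [dS, LinearMap.sum_apply, LinearMap.smul_apply, lmapDomain_apply]
  refine Finset.sum_congr rfl fun i _ => ?_
  erw [mapDomain_single]
  rw [smul_single, smul_eq_mul]

theorem dS_natural {X Y : SSet.{0}} (f : X ⟶ Y) (n : ℕ) (z : X _⦋n + 1⦌ →₀ ℚ) :
    dS Y n (z.mapDomain (f.app (Opposite.op ⦋n + 1⦌))) =
      (dS X n z).mapDomain (f.app (Opposite.op ⦋n⦌)) := by
  have : dS Y n ∘ₗ lmapDomain ℚ ℚ (f.app (Opposite.op ⦋n + 1⦌)) =
      lmapDomain ℚ ℚ (f.app (Opposite.op ⦋n⦌)) ∘ₗ dS X n := by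
    ext x : 2
    simp only [LinearMap.comp_apply, lsingle_apply, lmapDomain_apply]
    erw [mapDomain_single]
    rw [dS_single, dS_single, mapDomain_finsetSum]
    refine Finset.sum_congr rfl fun i _ => ?_
    erw [mapDomain_single]
    congr 1
    exact (congrArg (fun g => g x) (f.naturality (SimplexCategory.δ i).op)).symm
  exact LinearMap.congr_fun this z

/-- the constant coefficients -/
noncomputable abbrev QQ : ModuleCat.{0} ℚ := ModuleCat.of ℚ ℚ

/-- chains to finitely supported functions -/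
noncomputable def cHom (X : SSet.{0}) (n : ℕ) :
    (X.chainComplex QQ).X n ⟶ ModuleCat.of ℚ (X _⦋n⦌ →₀ ℚ) :=
  (X.isColimitChainComplexXCofan QQ n).desc
    (Cofan.mk (ModuleCat.of ℚ (X _⦋n⦌ →₀ ℚ)) (fun x => ModuleCat.ofHom (lsingle x)))

theorem ι_cHom (X : SSet.{0}) (n : ℕ) (x : X _⦋n⦌) :
    X.ιChainComplex (R := QQ) x ≫ cHom X n = ModuleCat.ofHom (lsingle x) :=
  (X.isColimitChainComplexXCofan QQ n).fac
      (Cofan.mk (ModuleCat.of ℚ (X _⦋n⦌ →₀ ℚ)) (fun x => ModuleCat.ofHom (lsingle x))) ⟨x⟩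

/-- finitely supported functions to chains -/
noncomputable def cInv (X : SSet.{0}) (n : ℕ) :
    ModuleCat.of ℚ (X _⦋n⦌ →₀ ℚ) ⟶ (X.chainComplex QQ).X n :=
  ModuleCat.ofHom (Finsupp.linearCombination ℚ (M := (X.chainComplex QQ).X n)
    (fun x => (X.ιChainComplex (R := QQ) x).hom (1 : ℚ)))

theorem single_cInv (X : SSet.{0}) (n : ℕ) (x : X _⦋n⦌) :
    ModuleCat.ofHom (lsingle x) ≫ cInv X n = X.ιChainComplex (R := QQ) x := by
  apply ModuleCat.hom_ext
  apply LinearMap.ext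
  intro c
  change Finsupp.linearCombination ℚ (M := (X.chainComplex QQ).X n)
    (fun x => (X.ιChainComplex (R := QQ) x).hom (1 : ℚ)) (single x c) =
      (X.ιChainComplex (R := QQ) x).hom c
  rw [linearCombination_single]
  erw [← map_smul]
  congr 1
  change c • (1 : ℚ) = c
  simp

/-- identification of the chains -/
noncomputable def cIso (X : SSet.{0}) (n : ℕ) :
    (X.chainComplex QQ).X n ≅ ModuleCat.of ℚ (X _⦋n⦌ →₀ ℚ) where
  hom := cHom X n
  inv := cInv X n
  hom_inv_id := by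
    apply SSet.chainComplex_hom_ext
    intro x
    rw [← Category.assoc, ι_cHom, single_cInv, Category.comp_id]
  inv_hom_id := by
    apply ModuleCat.hom_ext
    apply Finsupp.lhom_ext'
    intro x
    have h : ModuleCat.ofHom (lsingle x) ≫ (cInv X n ≫ cHom X n) =
        ModuleCat.ofHom (lsingle x) ≫ 𝟙 _ := by
      rw [← Category.assoc, single_cInv, ι_cHom, Category.comp_id]
    exact congrArg ModuleCat.Hom.hom h

theorem ι_cIso (X : SSet.{0}) (n : ℕ) (x : X _⦋n⦌) :
    X.ιChainComplex (R := QQ) x ≫ (cIso X n).hom = ModuleCat.ofHom (lsingle x) :=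
  ι_cHom X n x

theorem cIso_d (X : SSet.{0}) (n : ℕ) :
    (cIso X (n + 1)).hom ≫ ModuleCat.ofHom (dS X n) =
      (X.chainComplex QQ).d (n + 1) n ≫ (cIso X n).hom := by
  apply SSet.chainComplex_hom_ext
  intro x
  rw [← Category.assoc, ι_cIso, ← Category.assoc, SSet.ιChainComplex_d, Preadditive.sum_comp]
  apply ModuleCat.hom_ext
  apply LinearMap.ext
  intro c
  simp only [ModuleCat.hom_comp, LinearMap.comp_apply, ModuleCat.hom_ofHom]
  rw [lsingle_apply, dS_single, ModuleCat.hom_sum, LinearMap.sum_apply]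
  refine Finset.sum_congr rfl fun i _ => ?_
  rw [Preadditive.zsmul_comp, ι_cIso]
  simp

theorem cIso_map {X Y : SSet.{0}} (f : X ⟶ Y) (n : ℕ) :
    (SSet.chainComplexMap f QQ).f n ≫ (cIso Y n).hom =
      (cIso X n).hom ≫ ModuleCat.ofHom (lmapDomain ℚ ℚ (f.app (Opposite.op ⦋n⦌))) := by
  apply SSet.chainComplex_hom_ext
  intro x
  rw [← Category.assoc, SSet.ι_chainComplexMap_f, ι_cIso, ← Category.assoc, ι_cIso]
  apply ModuleCat.hom_ext
  apply LinearMap.ext
  intro c
  simp only [ModuleCat.hom_comp, LinearMap.comp_apply, ModuleCat.hom_ofHom, lsingle_apply,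
    lmapDomain_apply]
  erw [mapDomain_single]

end Pool.Agent.Helper87.Hyp6T
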