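import Pool.Agent.Helper63.Hyp6.Defs

/-!
# Cone volume and contractibility of hyperbolic 6-space
-/

namespace Pool.Agent.Helper87.Hyp6V

open Pool.Agent.Helper63.Hyp6
open scoped Matrix

/-- The Gram matrix of the Lorentz form. -/
def JJ : Matrix (Fin 7) (Fin 7) ℝ := Matrix.diagonal (fun i => if i = 0 then -1 else 1)

lemma lor_eq (x y : Fin 7 → ℝ) : lor x y = x ⬝ᵥ (JJ *ᵥ y) := by
  unfold lor JJ dotProduct
  simp only [Matrix.mulVec_diagonal]
  rw [Fin.sum_univ_succ (n := 6)]
  simp only [if_true]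
  have : ∀ i : Fin 6, (if i.succ = (0 : Fin 7) then (-1 : ℝ) else 1) = 1 := fun i => by
    rw [if_neg (Fin.succ_ne_zero i)]
  simp only [this]
  ring_nf

lemma det_JJ : JJ.det = -1 := by
  unfold JJ
  rw [Matrix.det_diagonal, Fin.prod_univ_succ]
  have : ∀ i : Fin 6, (if i.succ = (0 : Fin 7) then (-1 : ℝ) else 1) = 1 := fun i => by
    rw [if_neg (Fin.succ_ne_zero i)]
  simp [this]

lemma det_sq_eq_one {A : Matrix (Fin 7) (Fin 7) ℝ}
    (h : ∀ x y, lor (A.mulVec x) (A.mulVec y) = lor x y) : A.det ^ 2 = 1 := by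
  have h1 : Aᵀ * JJ * A = JJ := by
    ext i j
    have h2 := h (Pi.single i 1) (Pi.single j 1)
    rw [lor_eq, lor_eq, Matrix.mulVec_mulVec, ← Matrix.vecMul_transpose, ← Matrix.dotProduct_mulVec,
      Matrix.mulVec_mulVec, Matrix.mulVec_single_one, Matrix.mulVec_single_one] at h2
    rw [single_one_dotProduct, single_one_dotProduct] at h2
    simpa [Matrix.mul_assoc] using h2
  have h3 := congrArg Matrix.det h1
  rw [Matrix.det_mul, Matrix.det_mul, Matrix.det_transpose, det_JJ] at h3
  nlinarith

/-- MODULE V' : the cone volume is invariant under Lorentz matrices (det = ±1) -/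
theorem volume_cone_image (A : Matrix (Fin 7) (Fin 7) ℝ) (hA : IsIsometry A) (D E : Set H6)
    (h : ∀ y ∈ E, ∃ x ∈ D, A.mulVec x.1 = y.1) :
    MeasureTheory.volume (cone E) ≤ MeasureTheory.volume (cone D) := by
  have h1 : cone E ⊆ (Matrix.toLin' A) '' cone D := by
    rintro v ⟨t, ht0, ht1, y, hy, rfl⟩
    obtain ⟨x, hx, hxy⟩ := h y hy
    refine ⟨t • x.1, ⟨t, ht0, ht1, x, hx, rfl⟩, ?_⟩
    rw [Matrix.toLin'_apply, Matrix.mulVec_smul, hxy]
  refine (MeasureTheory.measure_mono h1).trans ?_
  rw [MeasureTheory.Measure.addHaar_image_linearMap, LinearMap.det_toLin']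
  have h2 : |A.det| = 1 := by
    have := det_sq_eq_one hA.1
    rw [← abs_sq, abs_pow] at this
    nlinarith [abs_nonneg A.det, sq_nonneg (|A.det| - 1)]
  rw [h2, ENNReal.ofReal_one, one_mul]

/-- Hyperbolic space is homeomorphic to `ℝ^6`. -/
noncomputable def homeo : H6 ≃ₜ (Fin 6 → ℝ) where
  toFun x := fun i => x.1 i.succ
  invFun u := ⟨Fin.cons (Real.sqrt (1 + ∑ i, u i * u i)) u, by
    have h1 : 0 ≤ ∑ i, u i * u i := Finset.sum_nonneg fun i _ => mul_self_nonneg _
    constructor
    · unfold lor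
      simp only [Fin.cons_zero, Fin.cons_succ]
      rw [Real.mul_self_sqrt (by linarith)]
      ring
    · simp only [Fin.cons_zero]
      exact Real.sqrt_pos.2 (by linarith)⟩
  left_inv := by
    rintro ⟨x, hx, hx0⟩
    apply Subtype.ext
    funext i
    refine Fin.cases ?_ (fun j => ?_) i
    · simp only [Fin.cons_zero]
      have h1 : 1 + ∑ i : Fin 6, x i.succ * x i.succ = x 0 ^ 2 := by
        unfold lor at hx
        nlinarith
      rw [h1, Real.sqrt_sq hx0.le]
    · simp only [Fin.cons_succ]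
  right_inv := by
    intro u
    funext i
    simp only [Fin.cons_succ]
  continuous_toFun := by
    refine continuous_pi fun i => ?_
    exact (continuous_apply i.succ).comp continuous_subtype_val
  continuous_invFun := by
    refine Continuous.subtype_mk ?_ _
    refine continuous_pi fun i => ?_
    refine Fin.cases ?_ (fun j => ?_) i
    · simp only [Fin.cons_zero]
      fun_prop
    · simp only [Fin.cons_succ]
      fun_prop

instance contractibleSpace_H6 : ContractibleSpace H6 := homeo.contractibleSpace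

end Pool.Agent.Helper87.Hyp6V
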