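import Pool.Agent.Helper87.MobFinal
import Pool.Agent.Helper87.KrullDim

namespace Pool.Agent.Helper87.Mob

open Real Filter Topology Set

set_option linter.unusedSimpArgs false

noncomputable section

section alg

variable (P : Ideal (ℝ × ℝ → ℝ))

/-- generators of the field of definition -/
def gens : Set (ℝ × ℝ → ℝ) := {fun p => sh p.1, fun p => p.2}

/-- algebraic modulo the ideal `P` -/
def Alg (f : ℝ × ℝ → ℝ) : Prop :=
  IsAlgebraic (Algebra.adjoin ℝ ((Ideal.Quotient.mk P) '' gens)) (Ideal.Quotient.mk P f)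

variable {P}
variable {f f' : ℝ × ℝ → ℝ}

lemma Alg.const [P.IsPrime] (c : ℝ) : Alg P (fun _ => c) := by
  have hm : Ideal.Quotient.mk P (fun _ : ℝ × ℝ => c) ∈
      Algebra.adjoin ℝ ((Ideal.Quotient.mk P) '' gens) :=
    (Algebra.adjoin ℝ ((Ideal.Quotient.mk P) '' gens)).algebraMap_mem c
  exact isAlgebraic_algebraMap
    (⟨_, hm⟩ : Algebra.adjoin ℝ ((Ideal.Quotient.mk P) '' gens))

lemma Alg.add [P.IsPrime] (h : Alg P f) (h' : Alg P f') : Alg P (fun p => f p + f' p) := by
  change IsAlgebraic _ (Ideal.Quotient.mk P (f + f'))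
  rw [map_add]; exact IsAlgebraic.add h h'

lemma Alg.sub [P.IsPrime] (h : Alg P f) (h' : Alg P f') : Alg P (fun p => f p - f' p) := by
  change IsAlgebraic _ (Ideal.Quotient.mk P (f - f'))
  rw [map_sub]; exact IsAlgebraic.sub h h'

lemma Alg.neg [P.IsPrime] (h : Alg P f) : Alg P (fun p => - f p) := by
  change IsAlgebraic _ (Ideal.Quotient.mk P (- f))
  rw [map_neg]; exact IsAlgebraic.neg h

lemma Alg.mul [P.IsPrime] (h : Alg P f) (h' : Alg P f') : Alg P (fun p => f p * f' p) := by
  change IsAlgebraic _ (Ideal.Quotient.mk P (f * f'))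
  rw [map_mul]; exact IsAlgebraic.mul h h'

lemma Alg.pow [P.IsPrime] (h : Alg P f) (n : ℕ) : Alg P (fun p => f p ^ n) := by
  change IsAlgebraic _ (Ideal.Quotient.mk P (f ^ n))
  rw [map_pow]; exact IsAlgebraic.pow h n

lemma Alg.of_sq [P.IsPrime] (h : Alg P (fun p => f p ^ 2)) : Alg P f := by
  have h2 : IsAlgebraic (Algebra.adjoin ℝ ((Ideal.Quotient.mk P) '' gens))
    (Ideal.Quotient.mk P (f ^ 2)) := h
  rw [map_pow] at h2
  exact h2.of_pow (by norm_num)

lemma Alg.of_mul [P.IsPrime] (h0 : ∀ p, f p ≠ 0) (h : Alg P f) (h' : Alg P (fun p => f p * f' p)) :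
    Alg P f' := by
  have h2 : IsAlgebraic (Algebra.adjoin ℝ ((Ideal.Quotient.mk P) '' gens))
    (Ideal.Quotient.mk P (f * f')) := h'
  rw [map_mul] at h2
  refine IsAlgebraic.of_mul ?_ h h2
  have hu : IsUnit f := by
    rw [Pi.isUnit_iff]
    exact fun p => (isUnit_iff_ne_zero).mpr (h0 p)
  exact (hu.map (Ideal.Quotient.mk P)).mem_nonZeroDivisors

lemma Alg.of_gen [P.IsPrime] (h : f ∈ gens) : Alg P f := by
  have hm : Ideal.Quotient.mk P f ∈ Algebra.adjoin ℝ ((Ideal.Quotient.mk P) '' gens) :=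
    Algebra.subset_adjoin ⟨f, h, rfl⟩
  exact isAlgebraic_algebraMap
    (⟨_, hm⟩ : Algebra.adjoin ℝ ((Ideal.Quotient.mk P) '' gens))

variable [P.IsPrime]

lemma alg_sh : Alg P (fun p => sh p.1) := Alg.of_gen (by simp [gens])
lemma alg_snd : Alg P (fun p => p.2) := Alg.of_gen (by simp [gens])

lemma alg_ch : Alg P (fun p => ch p.1) := by
  apply Alg.of_sq
  have : (fun p : ℝ × ℝ => ch p.1 ^ 2) = fun p => 1 - sh p.1 ^ 2 := funext fun p => c2 p.1
  rw [this]
  exact (Alg.const 1).sub (alg_sh.pow 2)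

lemma alg_ga (i : Fin 3) : Alg P (fun p => ga i p.1) := by
  match i with
  | 0 => exact ((Alg.const 2).mul alg_sh).mul alg_ch
  | 1 => exact ((Alg.const 4).mul (alg_sh.pow 3)).mul alg_ch
  | 2 => exact (Alg.const (4 / 3)).mul (alg_sh.pow 6)

lemma alg_T (i : Fin 3) : Alg P (fun p => T i p.1) := by
  match i with
  | 0 => exact (Alg.const 1).sub ((Alg.const 2).mul (alg_sh.pow 2))
  | 1 =>
    exact ((Alg.const 2).mul (alg_sh.pow 2)).mul
      ((Alg.const 3).sub ((Alg.const 4).mul (alg_sh.pow 2)))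
  | 2 => exact ((Alg.const 4).mul (alg_sh.pow 5)).mul alg_ch

lemma alg_B (i : Fin 3) : Alg P (fun p => B i p.1) := by
  match i with
  | 0 =>
    exact ((Alg.const 2).mul (alg_sh.pow 5)).mul
      (((Alg.const 9).sub ((Alg.const 16).mul (alg_sh.pow 2))).add ((Alg.const 8).mul (alg_sh.pow 4)))
  | 1 =>
    exact ((alg_sh.pow 3).mul
      (((Alg.const 5).sub ((Alg.const 12).mul (alg_sh.pow 2))).add ((Alg.const 8).mul (alg_sh.pow 4)))).neg
  | 2 =>
    exact alg_ch.mul
      (((Alg.const 3).sub ((Alg.const 8).mul (alg_sh.pow 2))).add ((Alg.const 8).mul (alg_sh.pow 4)))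

lemma alg_tt : Alg P (fun p => tt p.1) := by
  have : (fun p : ℝ × ℝ => tt p.1) = fun p => T 0 p.1 ^ 2 + T 1 p.1 ^ 2 + T 2 p.1 ^ 2 :=
    funext fun p => tt_eq p.1
  rw [this]
  exact (((alg_T 0).pow 2).add ((alg_T 1).pow 2)).add ((alg_T 2).pow 2)

lemma alg_bb : Alg P (fun p => bb p.1) := by
  have : (fun p : ℝ × ℝ => bb p.1) = fun p => B 0 p.1 ^ 2 + B 1 p.1 ^ 2 + B 2 p.1 ^ 2 :=
    funext fun p => bb_eq p.1
  rw [this]
  exact (((alg_B 0).pow 2).add ((alg_B 1).pow 2)).add ((alg_B 2).pow 2)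

lemma alg_nb : Alg P (fun p => nb p.1) := by
  apply Alg.of_sq
  have : (fun p : ℝ × ℝ => nb p.1 ^ 2) = fun p => bb p.1 := funext fun p => nb_sq p.1
  rw [this]
  exact alg_bb

lemma alg_sq : Alg P (fun p => sq p.1) := by
  have : (fun p : ℝ × ℝ => sq p.1) = fun p => (1 / 4) * (sh p.1 *
      (45 - 160 * sh p.1 ^ 2 + 240 * sh p.1 ^ 4 - 192 * sh p.1 ^ 6 + 64 * sh p.1 ^ 8)) :=
    funext fun p => by simp only [sq]; ring
  rw [this]
  exact (Alg.const (1 / 4)).mul (alg_sh.mul
    (((((Alg.const 45).sub ((Alg.const 160).mul (alg_sh.pow 2))).add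
      ((Alg.const 240).mul (alg_sh.pow 4))).sub ((Alg.const 192).mul (alg_sh.pow 6))).add
      ((Alg.const 64).mul (alg_sh.pow 8))))

lemma alg_D (i : Fin 3) : Alg P (fun p => D i p.1) := by
  apply Alg.of_mul (f := fun p => nb p.1 ^ 3) (fun p => pow_ne_zero 3 (nb_pos p.1).ne')
    (alg_nb.pow 3)
  have : (fun p : ℝ × ℝ => nb p.1 ^ 3 * D i p.1)
      = fun p => nb p.1 ^ 2 * B i p.1 + sq p.1 * tt p.1 * T i p.1 := by
    funext p
    have := (nb_pos p.1).ne'
    simp only [D]
    field_simp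
  rw [this]
  exact ((alg_nb.pow 2).mul (alg_B i)).add ((alg_sq.mul alg_tt).mul (alg_T i))

lemma alg_rho (e : ℝ) : Alg P (fun p => rho e p.2) := by
  apply Alg.of_mul (f := fun p => 1 + p.2 ^ 2) (fun p => (one_add_sq_pos p.2).ne')
    ((Alg.const 1).add (alg_snd.pow 2))
  have : (fun p : ℝ × ℝ => (1 + p.2 ^ 2) * rho e p.2) = fun p => e * p.2 := by
    funext p
    have := (one_add_sq_pos p.2).ne'
    simp only [rho]
    field_simp
  rw [this]
  exact (Alg.const e).mul alg_snd

lemma alg_xi (m e : ℝ) (i : Fin 4) : Alg P (fun p => xi m e p i) := by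
  match i with
  | 0 => exact (Alg.const m).mul ((alg_ga 0).add ((alg_rho e).mul (alg_D 0)))
  | 1 => exact (Alg.const m).mul ((alg_ga 1).add ((alg_rho e).mul (alg_D 1)))
  | 2 => exact (Alg.const m).mul ((alg_ga 2).add ((alg_rho e).mul (alg_D 2)))
  | 3 => exact (Alg.const m).mul (alg_snd.pow 2)

end alg

/-- evaluation of polynomials along the surface -/
def ev (m e : ℝ) : MvPolynomial (Fin 4) ℝ →ₐ[ℝ] (ℝ × ℝ → ℝ) :=
  MvPolynomial.aeval (fun i p => xi m e p i)

lemma ev_apply (m e : ℝ) (f : MvPolynomial (Fin 4) ℝ) (p : ℝ × ℝ) :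
    ev m e f p = MvPolynomial.eval (xi m e p) f := by
  induction f using MvPolynomial.induction_on with
  | C a => simp [ev]
  | add f g hf hg => rw [map_add, Pi.add_apply, hf, hg, map_add]
  | mul_X f i hf => rw [map_mul, Pi.mul_apply, hf, map_mul]; simp [ev]

lemma alg_ev {P : Ideal (ℝ × ℝ → ℝ)} [P.IsPrime] (m e : ℝ) (f : MvPolynomial (Fin 4) ℝ) :
    Alg P (ev m e f) := by
  induction f using MvPolynomial.induction_on with
  | C a =>
    have : ev m e (MvPolynomial.C a) = fun _ => a := by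
      funext p; rw [ev_apply]; simp
    rw [this]; exact Alg.const a
  | add f g hf hg => rw [map_add]; exact hf.add hg
  | mul_X f i hf =>
    rw [map_mul]
    have : ev m e (MvPolynomial.X i) = fun p => xi m e p i := by
      funext p; rw [ev_apply]; simp
    rw [this]; exact hf.mul (alg_xi m e i)

lemma exists_box {m e : ℝ} (hm : 0 < m) (he : 0 < e) : ∃ s : Fin 2 → Set ℝ, (∀ i, (s i).Infinite) ∧
    ∀ x ∈ Set.pi Set.univ s, ∃ p, xi m e p 0 = x 0 ∧ xi m e p 3 = x 1 := by
  set M : ℝ := max |D 0 (π / 2)| |D 0 (-(π / 2))| + 1 with hM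
  have hM1 : |D 0 (π / 2)| ≤ M := by rw [hM]; linarith [le_max_left |D 0 (π / 2)| |D 0 (-(π / 2))|]
  have hM2 : |D 0 (-(π / 2))| ≤ M := by
    rw [hM]; linarith [le_max_right |D 0 (π / 2)| |D 0 (-(π / 2))|]
  have hM0 : 0 < M := by
    rw [hM]; linarith [le_max_left |D 0 (π / 2)| |D 0 (-(π / 2))|, abs_nonneg (D 0 (π / 2))]
  set δ : ℝ := 1 / (2 * M * e) with hδ
  have hδ0 : 0 < δ := by positivity
  refine ⟨![Icc (-(m / 2)) (m / 2), (fun r => m * r ^ 2) '' Ioo 0 δ], ?_, ?_⟩
  · intro i
    match i with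
    | 0 => exact Icc_infinite (by linarith)
    | 1 =>
      refine (Ioo_infinite hδ0).image ?_
      intro r hr r' hr' h
      have h' : r ^ 2 = r' ^ 2 := mul_left_cancel₀ hm.ne' h
      exact (pow_left_inj₀ hr.1.le hr'.1.le (by norm_num)).mp h'
  · intro x hx
    have h0 : x 0 ∈ Icc (-(m / 2)) (m / 2) := hx 0 (mem_univ _)
    have h1 : x 1 ∈ (fun r => m * r ^ 2) '' Ioo 0 δ := hx 1 (mem_univ _)
    obtain ⟨r, hr, hr1⟩ := h1
    have hrho : |rho e r| * M ≤ 1 / 2 := by
      have : |rho e r| ≤ e * r := by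
        rw [rho, abs_div, abs_of_pos (one_add_sq_pos r), abs_of_pos (mul_pos he hr.1)]
        apply div_le_self (mul_pos he hr.1).le
        nlinarith [sq_nonneg r]
      have h2 : e * r * M ≤ e * δ * M := by
        have := hr.2.le
        gcongr
      have h3 : e * δ * M = 1 / 2 := by
        rw [hδ]; field_simp
      have h4 : |rho e r| * M ≤ e * r * M := by gcongr
      linarith
    set f : ℝ → ℝ := fun y => m * (ga 0 y + rho e r * D 0 y) with hf
    have hcont : Continuous f :=
      continuous_const.mul ((contDiff_ga 0).continuous.add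
        (continuous_const.mul (contDiff_D 0).continuous))
    have e1 : ga 0 (π / 2) = 1 := by
      have := sin_eq (π / 2)
      rw [Real.sin_pi_div_two] at this
      simp only [ga]; linarith
    have e2 : ga 0 (-(π / 2)) = -1 := by
      have := sin_eq (-(π / 2))
      rw [Real.sin_neg, Real.sin_pi_div_two] at this
      simp only [ga]; linarith
    have b1 : |rho e r * D 0 (π / 2)| ≤ 1 / 2 := by
      rw [abs_mul]
      exact (mul_le_mul_of_nonneg_left hM1 (abs_nonneg _)).trans hrho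
    have b2 : |rho e r * D 0 (-(π / 2))| ≤ 1 / 2 := by
      rw [abs_mul]
      exact (mul_le_mul_of_nonneg_left hM2 (abs_nonneg _)).trans hrho
    have v1 : m / 2 ≤ f (π / 2) := by
      have := (abs_le.mp b1).1
      simp only [hf, e1]
      nlinarith
    have v2 : f (-(π / 2)) ≤ -(m / 2) := by
      have := (abs_le.mp b2).2
      simp only [hf, e2]
      nlinarith
    have hle : -(π / 2) ≤ π / 2 := by linarith [Real.pi_pos]
    obtain ⟨y, -, hy⟩ := intermediate_value_Icc hle hcont.continuousOn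
      (show x 0 ∈ Icc (f (-(π / 2))) (f (π / 2)) from ⟨v2.trans h0.1, h0.2.trans v1⟩)
    exact ⟨(y, r), hy, hr1⟩

/-- the vanishing ideal of the surface -/
lemma mem_ker_ev {m e : ℝ} (f : MvPolynomial (Fin 4) ℝ) :
    f ∈ RingHom.ker (ev m e) ↔ ∀ p, MvPolynomial.eval (xi m e p) f = 0 := by
  rw [RingHom.mem_ker, funext_iff]
  simp only [ev_apply, Pi.zero_apply]

theorem krull_two {m e : ℝ} (hm : 0 < m) (he : 0 < e) :
    ringKrullDim (MvPolynomial (Fin 4) ℝ ⧸ RingHom.ker (ev m e)) = 2 := by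
  have hne : RingHom.ker (ev m e) ≠ ⊤ := RingHom.ker_ne_top _
  have : Nontrivial (MvPolynomial (Fin 4) ℝ ⧸ RingHom.ker (ev m e)) :=
    Ideal.Quotient.nontrivial_iff.mpr hne
  have hft : Algebra.FiniteType ℝ (MvPolynomial (Fin 4) ℝ ⧸ RingHom.ker (ev m e)) := inferInstance
  apply le_antisymm
  · have := KrullDim.ringKrullDim_le (k := ℝ)
      (Ideal.kerLiftAlg (ev m e)) (Ideal.kerLiftAlg_injective _) gens 2 ?_ ?_
    · exact_mod_cast this
    · exact (Set.encard_insert_le _ _).trans (by rw [Set.encard_singleton]; rfl)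
    · intro P hP a
      obtain ⟨f, rfl⟩ := Ideal.Quotient.mk_surjective a
      rw [Ideal.kerLiftAlg_mk]
      exact alg_ev m e f
  · have := KrullDim.le_ringKrullDim (k := ℝ) (n := 2)
      (A := MvPolynomial (Fin 4) ℝ ⧸ RingHom.ker (ev m e))
      ![Ideal.Quotient.mk _ (MvPolynomial.X 0), Ideal.Quotient.mk _ (MvPolynomial.X 3)] ?_
    · exact_mod_cast this
    · rw [algebraicIndependent_iff]
      intro Q hQ
      obtain ⟨s, hs, hbox⟩ := exists_box hm he
      apply MvPolynomial.funext_set s hs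
      intro x hx
      obtain ⟨p, h0, h1⟩ := hbox x hx
      have key : (Ideal.Quotient.mk (RingHom.ker (ev m e))
          (MvPolynomial.aeval ![MvPolynomial.X 0, MvPolynomial.X 3] Q)) = 0 := by
        rw [← hQ]
        have e3 : (Ideal.Quotient.mkₐ ℝ (RingHom.ker (ev m e))).comp
            (MvPolynomial.aeval ![MvPolynomial.X 0, MvPolynomial.X 3])
            = MvPolynomial.aeval ![Ideal.Quotient.mk (RingHom.ker (ev m e)) (MvPolynomial.X 0),
              Ideal.Quotient.mk (RingHom.ker (ev m e)) (MvPolynomial.X 3)] := by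
          ext i
          fin_cases i <;> simp
        exact DFunLike.congr_fun e3 Q
      rw [Ideal.Quotient.eq_zero_iff_mem, mem_ker_ev] at key
      have := key p
      rw [map_zero]
      rw [← this]
      have e4 : ∀ Q : MvPolynomial (Fin 2) ℝ, MvPolynomial.eval (xi m e p)
          (MvPolynomial.aeval ![(MvPolynomial.X 0 : MvPolynomial (Fin 4) ℝ), MvPolynomial.X 3] Q)
          = MvPolynomial.eval x Q := by
        intro Q
        induction Q using MvPolynomial.induction_on with
        | C a => simp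
        | add f g hf hg => rw [map_add, map_add, map_add, hf, hg]
        | mul_X f i hf =>
          rw [map_mul, map_mul, map_mul, hf]
          congr 1
          fin_cases i
          · simp [h0]
          · simp [h1]
      rw [e4]

theorem surface_algebraic {m e : ℝ} (hm : 0 < m) (he : 0 < e) :
    IsAlgebraicSurface (Set.range (fun p : ℝ × ℝ => m • surf e p.1 p.2)) := by
  obtain ⟨S, hS⟩ : (RingHom.ker (ev m e)).FG := (isNoetherianRing_iff_ideal_fg _).mp inferInstance _
  refine ⟨S, ?_, ?_⟩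
  · rintro _ ⟨p, rfl⟩ f hf
    have h1 : f ∈ RingHom.ker (ev m e) := by
      rw [← hS]; exact Ideal.subset_span hf
    have h2 := (mem_ker_ev f).mp h1 p
    have h3 : (fun i => (m • surf e p.1 p.2) i) = xi m e p := by
      funext i
      exact Xi_coord p i
    rw [h3]
    exact h2
  · have h4 : MvPolynomial.vanishingIdeal ℝ (zeroSet (S : Set (MvPolynomial (Fin 4) ℝ)))
        = RingHom.ker (ev m e) := by
      apply le_antisymm
      · intro f hf
        rw [mem_ker_ev]
        intro p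
        rw [MvPolynomial.mem_vanishingIdeal_iff] at hf
        have := hf (xi m e p) (by
          intro g hg
          have h1 : g ∈ RingHom.ker (ev m e) := by
            rw [← hS]; exact Ideal.subset_span hg
          exact (mem_ker_ev g).mp h1 p)
        simpa [MvPolynomial.aeval_eq_eval] using this
      · intro f hf
        rw [MvPolynomial.mem_vanishingIdeal_iff]
        intro x hx
        have hle : Ideal.span (S : Set (MvPolynomial (Fin 4) ℝ)) ≤ RingHom.ker (MvPolynomial.eval x) := by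
          rw [Ideal.span_le]
          intro g hg
          exact hx g hg
        have : f ∈ RingHom.ker (MvPolynomial.eval x) := by
          apply hle
          rw [hS]; exact hf
        simpa [MvPolynomial.aeval_eq_eval] using this
    rw [h4]
    exact krull_two hm he

end

end Pool.Agent.Helper87.Mob
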