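import Pool.Agent.Helper87.MobInt

/-!
The closed curve and the frame used for the algebraic Moebius band.
Everything is a function of `S = sin (x/2)` and `C = cos (x/2)`.
-/

namespace Pool.Agent.Helper87.Mob

open Real

set_option linter.unusedSimpArgs false

noncomputable section

lemma sc (x : ℝ) : sh x ^ 2 + ch x ^ 2 = 1 := by
  unfold sh ch; exact Real.sin_sq_add_cos_sq _

lemma c2 (x : ℝ) : ch x ^ 2 = 1 - sh x ^ 2 := by
  have := sc x; linarith

lemma hasDerivAt_sh (x : ℝ) : HasDerivAt sh (ch x / 2) x := by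
  have h : HasDerivAt (fun x : ℝ => x / 2) (1 / 2) x := (hasDerivAt_id x).div_const 2
  have := (Real.hasDerivAt_sin (x / 2)).comp x h
  refine this.congr_deriv ?_
  unfold ch
  ring

lemma hasDerivAt_ch (x : ℝ) : HasDerivAt ch (-(sh x) / 2) x := by
  have h : HasDerivAt (fun x : ℝ => x / 2) (1 / 2) x := (hasDerivAt_id x).div_const 2
  have := (Real.hasDerivAt_cos (x / 2)).comp x h
  refine this.congr_deriv ?_
  unfold sh
  ring

lemma tt_eq (x : ℝ) : tt x = T 0 x ^ 2 + T 1 x ^ 2 + T 2 x ^ 2 := by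
  simp only [tt, T]
  have := c2 x
  linear_combination (-16 * sh x ^ 10) * this

lemma bb_eq (x : ℝ) : bb x = B 0 x ^ 2 + B 1 x ^ 2 + B 2 x ^ 2 := by
  simp only [bb, B]
  have := c2 x
  linear_combination (-(3 - 8 * sh x ^ 2 + 8 * sh x ^ 4)^2) * this

lemma BT (x : ℝ) : B 0 x * T 0 x + B 1 x * T 1 x + B 2 x * T 2 x = 0 := by
  simp only [B, T]
  have := c2 x
  linear_combination (4 * sh x ^ 5 * (3 - 8 * sh x ^ 2 + 8 * sh x ^ 4)) * this

lemma hasDerivAt_ga (i : Fin 3) (x : ℝ) : HasDerivAt (ga i) (T i x) x := by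
  have hS := hasDerivAt_sh x
  have hC := hasDerivAt_ch x
  have hc := c2 x
  match i with
  | 0 =>
    have : HasDerivAt (ga 0) _ x := (hS.const_mul 2).mul hC
    refine this.congr_deriv ?_
    simp only [T]
    linear_combination hc
  | 1 =>
    have : HasDerivAt (ga 1) _ x := ((hS.pow 3).const_mul 4).mul hC
    refine this.congr_deriv ?_
    simp only [T, Nat.cast_ofNat, Pi.pow_apply]
    linear_combination (6 * sh x ^ 2) * hc
  | 2 =>
    have : HasDerivAt (ga 2) _ x := ((hS.pow 6).const_mul (4/3))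
    refine this.congr_deriv ?_
    simp only [T, Nat.cast_ofNat]
    ring

/-- derivative of `T` -/
def T' (i : Fin 3) (x : ℝ) : ℝ :=
  match i with
  | 0 => - 2 * sh x * ch x
  | 1 => (6 * sh x - 16 * sh x ^ 3) * ch x
  | 2 => 10 * sh x ^ 4 * (1 - sh x ^ 2) - 2 * sh x ^ 6

lemma hasDerivAt_T (i : Fin 3) (x : ℝ) : HasDerivAt (T i) (T' i x) x := by
  have hS := hasDerivAt_sh x
  have hC := hasDerivAt_ch x
  have hc := c2 x
  match i with
  | 0 =>
    have : HasDerivAt (T 0) _ x := ((hS.pow 2).const_mul 2).const_sub 1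
    refine this.congr_deriv ?_
    simp only [T', Nat.cast_ofNat]
    ring
  | 1 =>
    have : HasDerivAt (T 1) _ x := ((hS.pow 2).const_mul 2).mul (((hS.pow 2).const_mul 4).const_sub 3)
    refine this.congr_deriv ?_
    simp only [T', Nat.cast_ofNat]
    ring_nf
    simp only [Pi.pow_apply]
    ring
  | 2 =>
    have : HasDerivAt (T 2) _ x := ((hS.pow 5).const_mul 4).mul hC
    refine this.congr_deriv ?_
    simp only [T', Nat.cast_ofNat, Pi.pow_apply]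
    linear_combination (10 * sh x ^ 4) * hc

/-- derivative of `B` -/
def B' (i : Fin 3) (x : ℝ) : ℝ :=
  match i with
  | 0 => (45 * sh x ^ 4 - 112 * sh x ^ 6 + 72 * sh x ^ 8) * ch x
  | 1 => -(15 * sh x ^ 2 - 60 * sh x ^ 4 + 56 * sh x ^ 6) * ch x / 2
  | 2 => -(sh x) / 2 * (3 - 8 * sh x ^ 2 + 8 * sh x ^ 4) + (1 - sh x ^ 2) * (- 8 * sh x + 16 * sh x ^ 3)

lemma hasDerivAt_B (i : Fin 3) (x : ℝ) : HasDerivAt (B i) (B' i x) x := by
  have hS := hasDerivAt_sh x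
  have hC := hasDerivAt_ch x
  have hc := c2 x
  match i with
  | 0 =>
    have : HasDerivAt (B 0) _ x := ((hS.pow 5).const_mul 2).mul ((((hS.pow 2).const_mul 16).const_sub 9).add ((hS.pow 4).const_mul 8))
    refine this.congr_deriv ?_
    simp only [B', Nat.cast_ofNat, Pi.pow_apply, Pi.mul_apply, Pi.add_apply]
    ring_nf
  | 1 =>
    have : HasDerivAt (B 1) _ x := ((hS.pow 3).mul ((((hS.pow 2).const_mul 12).const_sub 5).add ((hS.pow 4).const_mul 8))).neg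
    refine this.congr_deriv ?_
    simp only [B', Nat.cast_ofNat, Pi.pow_apply, Pi.mul_apply, Pi.add_apply]
    ring
  | 2 =>
    have : HasDerivAt (B 2) _ x := hC.mul ((((hS.pow 2).const_mul 8).const_sub 3).add ((hS.pow 4).const_mul 8))
    refine this.congr_deriv ?_
    simp only [B', Nat.cast_ofNat, Pi.pow_apply, Pi.mul_apply, Pi.add_apply]
    linear_combination (- 8 * sh x + 16 * sh x ^ 3) * hc

/-- polynomial with `tt' = pt * C` -/
def tt' (x : ℝ) : ℝ :=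
  (-4 * sh x + 80 * sh x ^ 3 - 288 * sh x ^ 5 + 256 * sh x ^ 7 + 80 * sh x ^ 9 - 96 * sh x ^ 11) * ch x

lemma tt_poly (x : ℝ) : tt x = 1 - 4 * sh x ^ 2 + 40 * sh x ^ 4 - 96 * sh x ^ 6 + 64 * sh x ^ 8
    + 16 * sh x ^ 10 - 16 * sh x ^ 12 := by
  simp only [tt]; ring

lemma hasDerivAt_pow_sh (n : ℕ) (x : ℝ) :
    HasDerivAt (fun y => sh y ^ n) (n * sh x ^ (n - 1) * (ch x / 2)) x :=
  (hasDerivAt_sh x).pow n

lemma hasDerivAt_tt (x : ℝ) : HasDerivAt tt (tt' x) x := by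
  have e : tt = fun x => 1 - 4 * sh x ^ 2 + 40 * sh x ^ 4 - 96 * sh x ^ 6 + 64 * sh x ^ 8
    + 16 * sh x ^ 10 - 16 * sh x ^ 12 := funext tt_poly
  rw [e]
  have h : HasDerivAt (fun x => 1 - 4 * sh x ^ 2 + 40 * sh x ^ 4 - 96 * sh x ^ 6 + 64 * sh x ^ 8
    + 16 * sh x ^ 10 - 16 * sh x ^ 12) _ x :=
    (((((((hasDerivAt_pow_sh 2 x).const_mul 4).const_sub 1).add ((hasDerivAt_pow_sh 4 x).const_mul 40)).sub
      ((hasDerivAt_pow_sh 6 x).const_mul 96)).add ((hasDerivAt_pow_sh 8 x).const_mul 64)).add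
      ((hasDerivAt_pow_sh 10 x).const_mul 16)).sub ((hasDerivAt_pow_sh 12 x).const_mul 16)
  refine h.congr_deriv ?_
  simp only [tt', Nat.cast_ofNat]
  ring

lemma bb_poly (x : ℝ) : bb x = 9 - 57 * sh x ^ 2 + 160 * sh x ^ 4 - 215 * sh x ^ 6 + 72 * sh x ^ 8
    + 484 * sh x ^ 10 - 1344 * sh x ^ 12 + 1664 * sh x ^ 14 - 1024 * sh x ^ 16 + 256 * sh x ^ 18 := by
  simp only [bb]; ring

/-- derivative of `bb` -/
def bb' (x : ℝ) : ℝ :=
  (-57 * sh x + 320 * sh x ^ 3 - 645 * sh x ^ 5 + 288 * sh x ^ 7 + 2420 * sh x ^ 9 - 8064 * sh x ^ 11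
    + 11648 * sh x ^ 13 - 8192 * sh x ^ 15 + 2304 * sh x ^ 17) * ch x

lemma hasDerivAt_bb (x : ℝ) : HasDerivAt bb (bb' x) x := by
  have e : bb = fun x => 9 - 57 * sh x ^ 2 + 160 * sh x ^ 4 - 215 * sh x ^ 6 + 72 * sh x ^ 8
    + 484 * sh x ^ 10 - 1344 * sh x ^ 12 + 1664 * sh x ^ 14 - 1024 * sh x ^ 16 + 256 * sh x ^ 18 :=
    funext bb_poly
  rw [e]
  have h : HasDerivAt (fun x => 9 - 57 * sh x ^ 2 + 160 * sh x ^ 4 - 215 * sh x ^ 6 + 72 * sh x ^ 8
    + 484 * sh x ^ 10 - 1344 * sh x ^ 12 + 1664 * sh x ^ 14 - 1024 * sh x ^ 16 + 256 * sh x ^ 18) _ x :=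
    ((((((((((hasDerivAt_pow_sh 2 x).const_mul 57).const_sub 9).add
      ((hasDerivAt_pow_sh 4 x).const_mul 160)).sub
      ((hasDerivAt_pow_sh 6 x).const_mul 215)).add ((hasDerivAt_pow_sh 8 x).const_mul 72)).add
      ((hasDerivAt_pow_sh 10 x).const_mul 484)).sub ((hasDerivAt_pow_sh 12 x).const_mul 1344)).add
      ((hasDerivAt_pow_sh 14 x).const_mul 1664)).sub ((hasDerivAt_pow_sh 16 x).const_mul 1024)).add
      ((hasDerivAt_pow_sh 18 x).const_mul 256)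
  refine h.congr_deriv ?_
  simp only [bb', Nat.cast_ofNat]
  ring

/-- derivative of `sq` -/
def sq' (x : ℝ) : ℝ :=
  (45 / 8 - 60 * sh x ^ 2 + 150 * sh x ^ 4 - 168 * sh x ^ 6 + 72 * sh x ^ 8) * ch x

lemma hasDerivAt_sq (x : ℝ) : HasDerivAt sq (sq' x) x := by
  have h : HasDerivAt sq _ x :=
    ((hasDerivAt_sh x).mul ((((((hasDerivAt_pow_sh 2 x).const_mul 160).const_sub 45).add
      ((hasDerivAt_pow_sh 4 x).const_mul 240)).sub
      ((hasDerivAt_pow_sh 6 x).const_mul 192)).add ((hasDerivAt_pow_sh 8 x).const_mul 64))).div_const 4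
  refine h.congr_deriv ?_
  simp only [sq', Nat.cast_ofNat, Pi.add_apply, Pi.sub_apply]
  ring

lemma bb_pos (x : ℝ) : 0 < bb x := by
  rcases lt_or_ge 0 (1 - sh x ^ 2) with h | h
  · have h3 : 0 < (3 - 8 * sh x ^ 2 + 8 * sh x ^ 4) := by nlinarith [sq_nonneg (sh x ^ 2 - 1/2)]
    unfold bb
    positivity
  · have hc := c2 x
    have h0 : ch x ^ 2 = 0 := le_antisymm (by linarith) (sq_nonneg _)
    have h1 : sh x ^ 2 = 1 := by linarith
    have e : bb x = 5 := by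
      have h4 : bb x = 9 - 57 * sh x ^ 2 + 160 * (sh x ^ 2) ^ 2 - 215 * (sh x ^ 2) ^ 3 + 72 * (sh x ^ 2) ^ 4
        + 484 * (sh x ^ 2) ^ 5 - 1344 * (sh x ^ 2) ^ 6 + 1664 * (sh x ^ 2) ^ 7 - 1024 * (sh x ^ 2) ^ 8
        + 256 * (sh x ^ 2) ^ 9 := by
        rw [bb_poly]; ring
      rw [h4, h1]; norm_num
    rw [e]; norm_num

lemma tt_pos (x : ℝ) : 0 < tt x := by
  rw [tt_eq]
  have h0 : 0 ≤ T 2 x ^ 2 := sq_nonneg _
  have h1 : 0 < T 0 x ^ 2 + T 1 x ^ 2 := by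
    simp only [T]
    by_contra hcon
    have a1 : (1 - 2 * sh x ^ 2) ^ 2 = 0 := by
      nlinarith [sq_nonneg (1 - 2 * sh x ^ 2), sq_nonneg (2 * sh x ^ 2 * (3 - 4 * sh x ^ 2))]
    have a2 : sh x ^ 2 = 1 / 2 := by
      have := pow_eq_zero_iff (two_ne_zero) |>.mp a1
      linarith
    rw [a2] at hcon
    norm_num at hcon
  linarith

/-- speed of the curve -/
def nt (x : ℝ) : ℝ := Real.sqrt (tt x)

lemma nt_pos (x : ℝ) : 0 < nt x := Real.sqrt_pos.mpr (tt_pos x)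
lemma nb_pos (x : ℝ) : 0 < nb x := Real.sqrt_pos.mpr (bb_pos x)
lemma nt_sq (x : ℝ) : nt x ^ 2 = tt x := Real.sq_sqrt (tt_pos x).le
lemma nb_sq (x : ℝ) : nb x ^ 2 = bb x := Real.sq_sqrt (bb_pos x).le

lemma hasDerivAt_nt (x : ℝ) : HasDerivAt nt (tt' x / (2 * nt x)) x :=
  (hasDerivAt_tt x).sqrt (tt_pos x).ne'
lemma hasDerivAt_nb (x : ℝ) : HasDerivAt nb (bb' x / (2 * nb x)) x :=
  (hasDerivAt_bb x).sqrt (bb_pos x).ne'

/-- ratio torsion / curvature -/
def q (x : ℝ) : ℝ := sq x * nt x ^ 3 / nb x ^ 3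


/-- the common factor of the derivatives -/
def g (x : ℝ) : ℝ :=
  (sq' x * tt x + 3 / 2 * sq x * tt' x) / nb x ^ 3 - 3 / 2 * sq x * tt x * bb' x / nb x ^ 5

lemma hasDerivAt_q (x : ℝ) : HasDerivAt q (g x * nt x) x := by
  have hn := (nb_pos x).ne'
  have hm := (nt_pos x).ne'
  have h : HasDerivAt q _ x :=
    ((hasDerivAt_sq x).mul ((hasDerivAt_nt x).pow 3)).div ((hasDerivAt_nb x).pow 3)
      (pow_ne_zero 3 hn)
  refine h.congr_deriv ?_
  simp only [g, Nat.cast_ofNat, Pi.pow_apply, Pi.mul_apply]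
  rw [← nt_sq]
  field_simp
  ring

lemma key (i : Fin 3) (x : ℝ) :
    bb x * B' i x - bb' x * B i x / 2 + sq x * tt x * T' i x - sq x * tt' x * T i x / 2 = 0 := by
  have hc := c2 x
  match i with
  | 0 =>
    simp only [bb_poly, B', bb', B, sq, tt_poly, T', tt', T]
    ring
  | 1 =>
    simp only [bb_poly, B', bb', B, sq, tt_poly, T', tt', T]
    ring
  | 2 =>
    simp only [bb_poly, B', bb', B, sq, tt_poly, T', tt', T]
    ring_nf
    rw [hc]
    ring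

lemma hasDerivAt_D (i : Fin 3) (x : ℝ) : HasDerivAt (D i) (g x * T i x) x := by
  have hn := (nb_pos x).ne'
  have hm := (nt_pos x).ne'
  have h : HasDerivAt (D i) _ x :=
    ((((hasDerivAt_nb x).pow 2).mul (hasDerivAt_B i x)).add
      (((hasDerivAt_sq x).mul (hasDerivAt_tt x)).mul (hasDerivAt_T i x))).div ((hasDerivAt_nb x).pow 3)
      (pow_ne_zero 3 hn)
  refine h.congr_deriv ?_
  have k := key i x
  rw [← nb_sq] at k
  simp only [g, Nat.cast_ofNat, Pi.pow_apply, Pi.mul_apply, Pi.add_apply]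
  field_simp
  linear_combination (2 * nb x ^ 4) * k

end

end Pool.Agent.Helper87.Mob
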