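import Mathlib

/-!
# The complete flat Moebius band, isometric embeddings, algebraic surfaces

Definitions used in the statement of `Pool.Agent.Results.MP_1b7163_gt.AlgMobius.result`.
-/

namespace Pool.Agent.Helper87.Mob

open Real
open scoped ContDiff

noncomputable section

/-- The orbit relation of the group generated by the glide reflection `g(v,t) = (v + w, -t)`:
`(v,t)` is equivalent to `(v + k w, (-1)^k t)`, `k` an integer. -/
def moebiusSetoid (w : ℝ) : Setoid (ℝ × ℝ) where
  r p q := ∃ k : ℤ, q = (p.1 + k * w, (-1 : ℝ) ^ k * p.2)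
  iseqv :=
    { refl := fun p => ⟨0, by simp⟩
      symm := by
        rintro p q ⟨k, rfl⟩
        refine ⟨-k, ?_⟩
        have h : (-1 : ℝ) ^ (-k) * ((-1 : ℝ) ^ k * p.2) = p.2 := by
          rw [← mul_assoc, ← zpow_add₀ (by norm_num)]; simp
        ext
        · push_cast; simp
        · exact h.symm
      trans := by
        rintro p q r ⟨k, rfl⟩ ⟨m, rfl⟩
        refine ⟨k + m, ?_⟩
        ext
        · push_cast; ring
        · rw [← mul_assoc, ← zpow_add₀ (by norm_num), add_comm m k] }

/-- The complete flat Moebius band `M_w = ℝ² / ⟨g⟩`, `g(v,t) = (v + w, -t)`. -/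
def FlatMoebius (w : ℝ) : Type := Quotient (moebiusSetoid w)

/-- The universal covering `ℝ² → M_w`, a local isometry for `dv² + dt²`. -/
def FlatMoebius.mk (w : ℝ) (p : ℝ × ℝ) : FlatMoebius w := Quotient.mk (moebiusSetoid w) p

/-- the quotient topology -/
instance (w : ℝ) : TopologicalSpace (FlatMoebius w) :=
  TopologicalSpace.coinduced (FlatMoebius.mk w) inferInstance

/-- Isometric embedding of `M_w` in `ℝ⁴`: in the coordinates `(v,t)` of the universal covering the
map is smooth and pulls the Euclidean metric back to `dv² + dt²` (so it is an immersion), and it is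
a homeomorphism of `M_w` onto its image. -/
structure IsIsometricEmbedding (w : ℝ) (X : FlatMoebius w → EuclideanSpace ℝ (Fin 4)) : Prop where
  smooth : ContDiff ℝ ∞ (fun p : ℝ × ℝ => X (FlatMoebius.mk w p))
  metric : ∀ p a b : ℝ × ℝ,
    inner ℝ (fderiv ℝ (fun p : ℝ × ℝ => X (FlatMoebius.mk w p)) p a)
      (fderiv ℝ (fun p : ℝ × ℝ => X (FlatMoebius.mk w p)) p b) = a.1 * b.1 + a.2 * b.2
  embedding : Topology.IsEmbedding X

/-- The common real zero set in `ℝ⁴` of a set of polynomials. -/
def zeroSet (P : Set (MvPolynomial (Fin 4) ℝ)) : Set (Fin 4 → ℝ) :=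
  {y | ∀ f ∈ P, MvPolynomial.eval y f = 0}

/-- `A` lies in the common zero set `Z` of finitely many real polynomials, with `dim Z = 2`: the
ring of polynomials modulo those vanishing on `Z` has Krull dimension two. -/
def IsAlgebraicSurface (A : Set (EuclideanSpace ℝ (Fin 4))) : Prop :=
  ∃ P : Finset (MvPolynomial (Fin 4) ℝ),
    (∀ x ∈ A, (fun i => x i) ∈ zeroSet P) ∧
    ringKrullDim (MvPolynomial (Fin 4) ℝ ⧸ MvPolynomial.vanishingIdeal ℝ (zeroSet P)) = 2

end

end Pool.Agent.Helper87.Mob
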