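import Pool.Agent.Helper87.MobMap

namespace Pool.Agent.Helper87.Mob

open Real Filter Topology Set
open scoped ContDiff

set_option linter.unusedSimpArgs false

noncomputable section

/-- the change of coordinates `(x,r) ↦ (v,t)` -/
def F (m e : ℝ) (p : ℝ × ℝ) : ℝ × ℝ := (m * (sl p.1 + rho e p.2 * q p.1), m * ta e p.2)

/-- admissible parameters -/
structure Adm (m e : ℝ) : Prop where
  m_pos : 0 < m
  e_pos : 0 < e
  small : ∀ r, (∀ x, |rho e r * g x| < 1 / 2) ∧ ∀ z, Concl (rho e r) z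

lemma exists_adm : ∃ e₀ > 0, ∀ m e : ℝ, 0 < m → 0 < e → e < e₀ → Adm m e := by
  obtain ⟨ε, hε, h⟩ := exists_eps
  refine ⟨ε, hε, fun m e hm he hlt => ⟨hm, he, fun r => h _ ?_⟩⟩
  have := abs_rho_le he r
  linarith

variable {m e : ℝ}

lemma Adm.factor_pos (h : Adm m e) (x r : ℝ) : 1 / 2 ≤ 1 + rho e r * g x := by
  have := (h.small r).1 x
  have := (abs_lt.mp this).1
  linarith

/-- diagonal entry -/
def al (m e : ℝ) (p : ℝ × ℝ) : ℝ := m * (nt p.1 * (1 + rho e p.2 * g p.1))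

lemma al_ne (h : Adm m e) (p : ℝ × ℝ) : al m e p ≠ 0 := by
  have h1 := h.factor_pos p.1 p.2
  have h2 := nt_pos p.1
  have h3 := h.m_pos
  unfold al
  positivity

lemma de_ne (h : Adm m e) (r : ℝ) : m * om e r ≠ 0 :=
  (mul_pos h.m_pos (om_pos h.e_pos r)).ne'

lemma contDiff_F (h : Adm m e) : ContDiff ℝ ∞ (F m e) := by
  have h1 : ContDiff ℝ ∞ (fun p : ℝ × ℝ => sl p.1) := contDiff_sl.comp contDiff_fst
  have h2 : ContDiff ℝ ∞ (fun p : ℝ × ℝ => rho e p.2) := (contDiff_rho e).comp contDiff_snd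
  have h3 : ContDiff ℝ ∞ (fun p : ℝ × ℝ => q p.1) := contDiff_q.comp contDiff_fst
  have h4 : ContDiff ℝ ∞ (fun p : ℝ × ℝ => ta e p.2) := (contDiff_ta h.e_pos).comp contDiff_snd
  unfold F
  exact (contDiff_const.mul (h1.add (h2.mul h3))).prodMk (contDiff_const.mul h4)

lemma hasFDerivAt_F (h : Adm m e) (p : ℝ × ℝ) :
    HasFDerivAt (F m e)
      (tri (al m e p) (m * (rho' e p.2 * q p.1)) (m * om e p.2) (al_ne h p) (de_ne h p.2) :
        (ℝ × ℝ) →L[ℝ] (ℝ × ℝ)) p := by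
  have hf : HasFDerivAt (Prod.fst : ℝ × ℝ → ℝ) (ContinuousLinearMap.fst ℝ ℝ ℝ) p := hasFDerivAt_fst
  have hs : HasFDerivAt (Prod.snd : ℝ × ℝ → ℝ) (ContinuousLinearMap.snd ℝ ℝ ℝ) p := hasFDerivAt_snd
  have h1 : HasFDerivAt (fun p : ℝ × ℝ => sl p.1) _ p :=
    (hasDerivAt_sl p.1).comp_hasFDerivAt p hf
  have h2 : HasFDerivAt (fun p : ℝ × ℝ => rho e p.2) _ p :=
    (hasDerivAt_rho e p.2).comp_hasFDerivAt p hs
  have h3 : HasFDerivAt (fun p : ℝ × ℝ => q p.1) _ p :=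
    (hasDerivAt_q p.1).comp_hasFDerivAt p hf
  have h4 : HasFDerivAt (fun p : ℝ × ℝ => ta e p.2) _ p :=
    (hasDerivAt_ta h.e_pos p.2).comp_hasFDerivAt p hs
  have hF : HasFDerivAt (F m e) _ p :=
    ((h1.add (h2.mul h3)).const_mul m).prodMk (h4.const_mul m)
  refine hF.congr_fderiv ?_
  ext
  · simp [tri, al]
    ring
  · simp [tri]
  · simp [tri]
    left
    ring
  · simp [tri]

lemma F_bijective (h : Adm m e) : Function.Bijective (F m e) := by
  obtain ⟨c, hc, hcn⟩ := exists_nt_lower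
  obtain ⟨c', hc', hcn'⟩ := om_lower h.e_pos
  have hm := h.m_pos
  have b2 : Function.Bijective (fun r => m * ta e r) :=
    bij_of_deriv_ge (fun r => (hasDerivAt_ta h.e_pos r).const_mul m) (mul_pos hm hc')
      (fun r => mul_le_mul_of_nonneg_left (hcn' r) hm.le)
  have b1 : ∀ r, Function.Bijective (fun x => m * (sl x + rho e r * q x)) := by
    intro r
    refine bij_of_deriv_ge (f' := fun x => m * (nt x + rho e r * (g x * nt x))) (fun x =>
      ((hasDerivAt_sl x).add ((hasDerivAt_q x).const_mul (rho e r))).const_mul m)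
      (mul_pos hm (mul_pos hc (half_pos one_pos))) (fun x => ?_)
    refine mul_le_mul_of_nonneg_left ?_ hm.le
    have h1 := h.factor_pos x r
    have h2 : nt x * (1 / 2) ≤ nt x * (1 + rho e r * g x) :=
      mul_le_mul_of_nonneg_left h1 (nt_pos x).le
    have := hcn x
    nlinarith
  constructor
  · rintro ⟨x, r⟩ ⟨x', r'⟩ heq
    have e2 : m * ta e r = m * ta e r' := congrArg Prod.snd heq
    have er : r = r' := b2.1 e2
    subst er
    have e1 : m * (sl x + rho e r * q x) = m * (sl x' + rho e r * q x') := congrArg Prod.fst heq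
    have ex : x = x' := (b1 r).1 e1
    rw [ex]
  · rintro ⟨v, t⟩
    obtain ⟨r, hr⟩ := b2.2 t
    obtain ⟨x, hx⟩ := (b1 r).2 v
    exact ⟨(x, r), Prod.ext hx hr⟩

/-- `F` as a homeomorphism -/
def Fh (h : Adm m e) : (ℝ × ℝ) ≃ₜ (ℝ × ℝ) :=
  (Equiv.ofBijective _ (F_bijective h)).toHomeomorphOfContinuousOpen (contDiff_F h).continuous
    (isOpenMap_of_hasStrictFDerivAt_equiv
      (fun p => (contDiff_F h).contDiffAt.hasStrictFDerivAt' (hasFDerivAt_F h p) (by simp)))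

lemma Fh_apply (h : Adm m e) (p : ℝ × ℝ) : Fh h p = F m e p := rfl

lemma F_symm (h : Adm m e) (p : ℝ × ℝ) : F m e ((Fh h).symm p) = p := (Fh h).apply_symm_apply p

lemma symm_F (h : Adm m e) (p : ℝ × ℝ) : (Fh h).symm (F m e p) = p := (Fh h).symm_apply_apply p

lemma contDiff_symm (h : Adm m e) : ContDiff ℝ ∞ ((Fh h).symm) :=
  (Fh h).contDiff_symm (fun p => hasFDerivAt_F h p) (contDiff_F h)

lemma hasFDerivAt_symm (h : Adm m e) (p : ℝ × ℝ) :
    HasFDerivAt ((Fh h).symm)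
      ((tri (al m e p) (m * (rho' e p.2 * q p.1)) (m * om e p.2) (al_ne h p) (de_ne h p.2)).symm :
        (ℝ × ℝ) →L[ℝ] (ℝ × ℝ)) (F m e p) := by
  apply HasFDerivAt.of_local_left_inverse (f := F m e)
  · exact (Fh h).symm.continuous.continuousAt
  · rw [symm_F]; exact hasFDerivAt_F h p
  · exact Eventually.of_forall (fun y => F_symm h y)

/-! ### the map to four-space -/

/-- the surface in the parameters `(x,r)` -/
def Xi (m e : ℝ) (p : ℝ × ℝ) : EuclideanSpace ℝ (Fin 4) := m • surf e p.1 p.2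

/-- coordinates of `Xi` as a function to `Fin 4 → ℝ` -/
def xi (m e : ℝ) (p : ℝ × ℝ) : Fin 4 → ℝ :=
  ![m * Yf 0 (p.1, rho e p.2), m * Yf 1 (p.1, rho e p.2), m * Yf 2 (p.1, rho e p.2), m * p.2 ^ 2]

lemma Xi_eq (m e : ℝ) (p : ℝ × ℝ) : Xi m e p = WithLp.toLp 2 (xi m e p) := by
  ext i
  fin_cases i <;> simp [Xi, xi, surf, Yf]

lemma contDiff_xi : ContDiff ℝ ∞ (xi m e) := by
  have hp : ContDiff ℝ ∞ (fun p : ℝ × ℝ => (p.1, rho e p.2)) :=
    contDiff_fst.prodMk ((contDiff_rho e).comp contDiff_snd)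
  have h : ∀ i, ContDiff ℝ ∞ (fun p : ℝ × ℝ => m * Yf i (p.1, rho e p.2)) := fun i =>
    contDiff_const.mul ((contDiff_Yf i).comp hp)
  rw [contDiff_pi]
  intro i
  fin_cases i
  · exact h 0
  · exact h 1
  · exact h 2
  · exact contDiff_const.mul (contDiff_snd.pow 2)

lemma contDiff_Xi : ContDiff ℝ ∞ (Xi m e) := by
  have : Xi m e = fun p => WithLp.toLp 2 (xi m e p) := funext (Xi_eq m e)
  rw [this]
  rw [contDiff_euclidean]
  intro i
  exact (contDiff_pi.mp contDiff_xi) i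

lemma hasFDerivAt_strip (i : Fin 3) (p : ℝ × ℝ) :
    HasFDerivAt (fun p : ℝ × ℝ => m * Yf i (p.1, rho e p.2))
      ((m * ((1 + rho e p.2 * g p.1) * T i p.1)) • ContinuousLinearMap.fst ℝ ℝ ℝ
        + (m * (rho' e p.2 * D i p.1)) • ContinuousLinearMap.snd ℝ ℝ ℝ) p := by
  have hf : HasFDerivAt (Prod.fst : ℝ × ℝ → ℝ) (ContinuousLinearMap.fst ℝ ℝ ℝ) p := hasFDerivAt_fst
  have hs : HasFDerivAt (Prod.snd : ℝ × ℝ → ℝ) (ContinuousLinearMap.snd ℝ ℝ ℝ) p := hasFDerivAt_snd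
  have h1 : HasFDerivAt (fun p : ℝ × ℝ => ga i p.1) _ p :=
    (hasDerivAt_ga i p.1).comp_hasFDerivAt p hf
  have h2 : HasFDerivAt (fun p : ℝ × ℝ => rho e p.2) _ p :=
    (hasDerivAt_rho e p.2).comp_hasFDerivAt p hs
  have h3 : HasFDerivAt (fun p : ℝ × ℝ => D i p.1) _ p :=
    (hasDerivAt_D i p.1).comp_hasFDerivAt p hf
  have h4 : HasFDerivAt (fun p : ℝ × ℝ => m * Yf i (p.1, rho e p.2)) _ p :=
    (h1.add (h2.mul h3)).const_mul m
  refine h4.congr_fderiv ?_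
  ext
  · simp
    ring
  · simp
    left
    ring

lemma hasFDerivAt_last (p : ℝ × ℝ) :
    HasFDerivAt (fun p : ℝ × ℝ => m * p.2 ^ 2)
      ((m * (2 * p.2)) • ContinuousLinearMap.snd ℝ ℝ ℝ) p := by
  have hs : HasFDerivAt (Prod.snd : ℝ × ℝ → ℝ) (ContinuousLinearMap.snd ℝ ℝ ℝ) p := hasFDerivAt_snd
  have h1 : HasFDerivAt (fun p : ℝ × ℝ => m * p.2 ^ 2) _ p := (hs.pow 2).const_mul m
  refine h1.congr_fderiv ?_
  ext
  · simp
  · simp

lemma Xi_coord (p : ℝ × ℝ) (i : Fin 4) : Xi m e p i = xi m e p i := by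
  rw [Xi_eq]

/-- the metric identity in the parameters `(x,r)` -/
lemma metric_Xi (h : Adm m e) (p a b : ℝ × ℝ) :
    inner ℝ (fderiv ℝ (Xi m e) p a) (fderiv ℝ (Xi m e) p b)
      = (al m e p * a.1 + m * (rho' e p.2 * q p.1) * a.2)
          * (al m e p * b.1 + m * (rho' e p.2 * q p.1) * b.2)
        + (m * om e p.2 * a.2) * (m * om e p.2 * b.2) := by
  have hL : HasFDerivAt (Xi m e) (fderiv ℝ (Xi m e) p) p :=
    ((contDiff_Xi (m := m) (e := e)).differentiable (by simp) p).hasFDerivAt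
  have hL : ∀ i, HasFDerivAt (fun x => Xi m e x i)
      ((EuclideanSpace.proj (𝕜 := ℝ) i).comp (fderiv ℝ (Xi m e) p)) p := fun i =>
    (EuclideanSpace.proj (𝕜 := ℝ) (ι := Fin 4) i).hasFDerivAt.comp p hL
  have c0 : HasFDerivAt (fun x => Xi m e x 0)
      ((m * ((1 + rho e p.2 * g p.1) * T 0 p.1)) • ContinuousLinearMap.fst ℝ ℝ ℝ
        + (m * (rho' e p.2 * D 0 p.1)) • ContinuousLinearMap.snd ℝ ℝ ℝ) p := by
    have : (fun x => Xi m e x 0) = fun p : ℝ × ℝ => m * Yf 0 (p.1, rho e p.2) :=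
      funext fun x => Xi_coord x 0
    rw [this]; exact hasFDerivAt_strip 0 p
  have c1 : HasFDerivAt (fun x => Xi m e x 1)
      ((m * ((1 + rho e p.2 * g p.1) * T 1 p.1)) • ContinuousLinearMap.fst ℝ ℝ ℝ
        + (m * (rho' e p.2 * D 1 p.1)) • ContinuousLinearMap.snd ℝ ℝ ℝ) p := by
    have : (fun x => Xi m e x 1) = fun p : ℝ × ℝ => m * Yf 1 (p.1, rho e p.2) :=
      funext fun x => Xi_coord x 1
    rw [this]; exact hasFDerivAt_strip 1 p
  have c2 : HasFDerivAt (fun x => Xi m e x 2)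
      ((m * ((1 + rho e p.2 * g p.1) * T 2 p.1)) • ContinuousLinearMap.fst ℝ ℝ ℝ
        + (m * (rho' e p.2 * D 2 p.1)) • ContinuousLinearMap.snd ℝ ℝ ℝ) p := by
    have : (fun x => Xi m e x 2) = fun p : ℝ × ℝ => m * Yf 2 (p.1, rho e p.2) :=
      funext fun x => Xi_coord x 2
    rw [this]; exact hasFDerivAt_strip 2 p
  have c3 : HasFDerivAt (fun x => Xi m e x 3)
      ((m * (2 * p.2)) • ContinuousLinearMap.snd ℝ ℝ ℝ) p := by
    have : (fun x => Xi m e x 3) = fun p : ℝ × ℝ => m * p.2 ^ 2 :=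
      funext fun x => Xi_coord x 3
    rw [this]; exact hasFDerivAt_last p
  have u0 := (hL 0).unique c0
  have u1 := (hL 1).unique c1
  have u2 := (hL 2).unique c2
  have u3 := (hL 3).unique c3
  have v0 : ∀ a : ℝ × ℝ, (fderiv ℝ (Xi m e) p a) 0 = m * ((1 + rho e p.2 * g p.1) * T 0 p.1) * a.1
      + m * (rho' e p.2 * D 0 p.1) * a.2 := fun a => by
    have := DFunLike.congr_fun u0 a
    simpa using this
  have v1 : ∀ a : ℝ × ℝ, (fderiv ℝ (Xi m e) p a) 1 = m * ((1 + rho e p.2 * g p.1) * T 1 p.1) * a.1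
      + m * (rho' e p.2 * D 1 p.1) * a.2 := fun a => by
    have := DFunLike.congr_fun u1 a
    simpa using this
  have v2 : ∀ a : ℝ × ℝ, (fderiv ℝ (Xi m e) p a) 2 = m * ((1 + rho e p.2 * g p.1) * T 2 p.1) * a.1
      + m * (rho' e p.2 * D 2 p.1) * a.2 := fun a => by
    have := DFunLike.congr_fun u2 a
    simpa using this
  have v3 : ∀ a : ℝ × ℝ, (fderiv ℝ (Xi m e) p a) 3 = m * (2 * p.2) * a.2 := fun a => by
    have := DFunLike.congr_fun u3 a
    simpa using this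
  rw [PiLp.inner_apply, Fin.sum_univ_four]
  simp only [v0, v1, v2, v3, al, RCLike.inner_apply, conj_trivial]
  have k1 := tt_eq p.1
  have k2 := TD p.1
  have k3 := DD p.1
  have k4 := nt_sq p.1
  have k5 := om_sq h.e_pos p.2
  rw [← k4] at k1
  linear_combination (-(m ^ 2 * (1 + rho e p.2 * g p.1) ^ 2 * a.1 * b.1)) * k1
    + (m ^ 2 * (1 + rho e p.2 * g p.1) * rho' e p.2 * (a.1 * b.2 + a.2 * b.1)) * k2
    + (m ^ 2 * rho' e p.2 ^ 2 * a.2 * b.2) * k3 - (m ^ 2 * a.2 * b.2) * k5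

/-- the map in flat coordinates -/
def Xt (h : Adm m e) (p : ℝ × ℝ) : EuclideanSpace ℝ (Fin 4) := Xi m e ((Fh h).symm p)

lemma contDiff_Xt (h : Adm m e) : ContDiff ℝ ∞ (Xt h) := contDiff_Xi.comp (contDiff_symm h)

lemma metric_Xt (h : Adm m e) (p a b : ℝ × ℝ) :
    inner ℝ (fderiv ℝ (Xt h) p a) (fderiv ℝ (Xt h) p b) = a.1 * b.1 + a.2 * b.2 := by
  obtain ⟨p0, rfl⟩ := (Fh h).surjective p
  rw [Fh_apply]
  have hL : HasFDerivAt (Xi m e) (fderiv ℝ (Xi m e) p0) ((Fh h).symm (F m e p0)) := by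
    rw [symm_F]
    exact ((contDiff_Xi (m := m) (e := e)).differentiable (by simp) p0).hasFDerivAt
  have hX : HasFDerivAt (Xt h) _ (F m e p0) := hL.comp (F m e p0) (hasFDerivAt_symm h p0)
  rw [hX.fderiv]
  set t := (tri (al m e p0) (m * (rho' e p0.2 * q p0.1)) (m * om e p0.2) (al_ne h p0) (de_ne h p0.2))
    with ht
  simp only [ContinuousLinearMap.comp_apply, ContinuousLinearEquiv.coe_coe]
  rw [metric_Xi h]
  have ea := t.apply_symm_apply a
  have eb := t.apply_symm_apply b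
  rw [ht, tri_apply] at ea eb
  rw [← ht] at ea eb
  have ea1 := congrArg Prod.fst ea
  have ea2 := congrArg Prod.snd ea
  have eb1 := congrArg Prod.fst eb
  have eb2 := congrArg Prod.snd eb
  simp only at ea1 ea2 eb1 eb2
  rw [ea1, eb1, ea2, eb2]

end

end Pool.Agent.Helper87.Mob
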