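import Pool.Agent.Helper87.MobEmb

namespace Pool.Agent.Helper87.Mob

open Real Filter Topology Set
open scoped ContDiff

set_option linter.unusedSimpArgs false

noncomputable section

variable {m e : ℝ}

lemma F_shift (k : ℤ) (x r : ℝ) :
    F m e (x + k * (2 * π), (-1 : ℝ) ^ k * r)
      = ((F m e (x, r)).1 + k * (m * len), (-1 : ℝ) ^ k * (F m e (x, r)).2) := by
  have hk := neg_one_zpow_mul_self k
  ext
  · simp only [F]
    rw [sl_shift_int, rho_zpow, anti_zpow q_shift]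
    linear_combination (m * rho e r * q x) * hk
  · simp only [F]
    rw [ta_zpow]
    ring

lemma zpow_sq (k : ℤ) (r : ℝ) : ((-1 : ℝ) ^ k * r) ^ 2 = r ^ 2 := by
  have hk := neg_one_zpow_mul_self k
  linear_combination (r ^ 2) * hk

lemma Xi_shift (k : ℤ) (x r : ℝ) : Xi m e (x + k * (2 * π), (-1 : ℝ) ^ k * r) = Xi m e (x, r) := by
  rw [Xi_eq, Xi_eq]
  simp only [xi, rho_zpow, Yf_shift, zpow_sq]

lemma Xt_equiv (h : Adm m e) (p q : ℝ × ℝ) (hpq : (moebiusSetoid (m * len)).r p q) :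
    Xt h p = Xt h q := by
  obtain ⟨k, rfl⟩ := hpq
  obtain ⟨⟨x, r⟩, rfl⟩ := (Fh h).surjective p
  rw [Fh_apply, ← F_shift]
  simp only [Xt, symm_F, Xi_shift]

/-- the embedding -/
def X (h : Adm m e) : FlatMoebius (m * len) → EuclideanSpace ℝ (Fin 4) :=
  Quotient.lift (Xt h) (Xt_equiv h)

lemma X_mk (h : Adm m e) (p : ℝ × ℝ) : X h (FlatMoebius.mk (m * len) p) = Xt h p := rfl

lemma X_mk_F (h : Adm m e) (p : ℝ × ℝ) : X h (FlatMoebius.mk (m * len) (F m e p)) = Xi m e p := by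
  rw [X_mk, Xt, symm_F]

lemma mk_surj (h : Adm m e) (y : FlatMoebius (m * len)) :
    ∃ x ∈ Icc (0:ℝ) (2 * π), ∃ r, y = FlatMoebius.mk (m * len) (F m e (x, r)) := by
  obtain ⟨p, rfl⟩ := Quotient.exists_rep y
  obtain ⟨⟨x, r⟩, rfl⟩ := (Fh h).surjective p
  obtain ⟨k, hk, -⟩ := existsUnique_add_zsmul_mem_Ico (show (0:ℝ) < 2 * π by positivity) x 0
  simp only [zsmul_eq_mul, zero_add] at hk
  refine ⟨x + k * (2 * π), ⟨hk.1, hk.2.le⟩, (-1 : ℝ) ^ k * r, ?_⟩
  rw [F_shift]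
  apply Quotient.sound
  exact ⟨k, rfl⟩

lemma Xi_inj (h : Adm m e) {x r x' r' : ℝ} (heq : Xi m e (x, r) = Xi m e (x', r')) :
    ∃ k : ℤ, x' = x + k * (2 * π) ∧ r' = (-1 : ℝ) ^ k * r := by
  have hm := h.m_pos.ne'
  have hi : ∀ i, xi m e (x, r) i = xi m e (x', r') i := fun i => by
    rw [← Xi_coord, ← Xi_coord, heq]
  have h3 : m * r ^ 2 = m * r' ^ 2 := hi 3
  have hr : r ^ 2 = r' ^ 2 := mul_left_cancel₀ hm h3
  have hY : ∀ i : Fin 3, Yf i (x, rho e r) = Yf i (x', rho e r') := by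
    intro i
    match i with
    | 0 => exact mul_left_cancel₀ hm (hi 0)
    | 1 => exact mul_left_cancel₀ hm (hi 1)
    | 2 => exact mul_left_cancel₀ hm (hi 2)
  rcases sq_eq_sq_iff_eq_or_eq_neg.mp hr with hr | hr
  · subst hr
    rcases (h.small r).2 (x, x') hY with ⟨k, hk⟩ | ⟨h0, k, hk⟩
    · refine ⟨2 * k, ?_, ?_⟩
      · simp only at hk; rw [hk]; push_cast; ring
      · rw [Even.neg_one_zpow (even_two_mul k)]; simp
    · have hr0 := rho_eq_zero h.e_pos h0
      refine ⟨k, hk, ?_⟩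
      rw [hr0]; simp
  · have hr' : r' = - r := by linarith
    subst hr'
    have hY' : ∀ i : Fin 3, Yf i (x, rho e r) = Yf i (x' + (1 : ℤ) * (2 * π), rho e r) := by
      intro i
      have := Yf_shift i 1 x' (rho e (-r))
      rw [hY i, ← this]
      congr 2
      simp [rho_neg]
    rcases (h.small r).2 (x, x' + (1 : ℤ) * (2 * π)) hY' with ⟨k, hk⟩ | ⟨h0, k, hk⟩
    · refine ⟨2 * k - 1, ?_, ?_⟩
      · simp only at hk; push_cast at hk ⊢; linarith
      · have : Odd (2 * k - 1) := ⟨k - 1, by ring⟩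
        rw [Odd.neg_one_zpow this]; simp
    · have hr0 := rho_eq_zero h.e_pos h0
      refine ⟨k - 1, ?_, ?_⟩
      · simp only at hk; push_cast at hk ⊢; linarith
      · rw [hr0]; simp

lemma X_injective (h : Adm m e) : Function.Injective (X h) := by
  intro y y' heq
  obtain ⟨x, -, r, rfl⟩ := mk_surj h y
  obtain ⟨x', -, r', rfl⟩ := mk_surj h y'
  rw [X_mk_F, X_mk_F] at heq
  obtain ⟨k, h1, h2⟩ := Xi_inj h heq
  apply Quotient.sound
  refine ⟨k, ?_⟩
  rw [h1, h2, F_shift]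

lemma continuous_X (h : Adm m e) : Continuous (X h) :=
  continuous_coinduced_dom.mpr (contDiff_Xt h).continuous

lemma continuous_mk (w : ℝ) : Continuous (FlatMoebius.mk w) := continuous_coinduced_rng

lemma X_proper (h : Adm m e) : IsProperMap (X h) := by
  rw [isProperMap_iff_isCompact_preimage]
  refine ⟨continuous_X h, fun K hK => ?_⟩
  have hm := h.m_pos
  -- the last coordinate is bounded on K
  obtain ⟨R, hR⟩ := hK.isBounded.exists_norm_le
  have hcl : IsClosed (X h ⁻¹' K) := hK.isClosed.preimage (continuous_X h)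
  set R' : ℝ := Real.sqrt (|R| / m) with hR'
  have hcomp : IsCompact ((fun p => FlatMoebius.mk (m * len) (F m e p)) ''
      (Icc (0:ℝ) (2 * π) ×ˢ Icc (-R') R')) := by
    apply (isCompact_Icc.prod isCompact_Icc).image
    exact (continuous_mk _).comp (contDiff_F h).continuous
  refine hcomp.of_isClosed_subset hcl ?_
  intro y hy
  obtain ⟨x, hx, r, rfl⟩ := mk_surj h y
  refine ⟨(x, r), ⟨hx, ?_⟩, rfl⟩
  have h1 : Xi m e (x, r) ∈ K := by rw [← X_mk_F h]; exact hy
  have h2 := hR _ h1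
  have h3 : ‖(Xi m e (x, r)) 3‖ ≤ ‖Xi m e (x, r)‖ := PiLp.norm_apply_le _ _
  have h4 : (Xi m e (x, r)) 3 = m * r ^ 2 := Xi_coord (x, r) 3
  rw [h4, Real.norm_eq_abs, abs_of_nonneg (by positivity)] at h3
  have h5 : r ^ 2 ≤ |R| / m := by
    rw [le_div_iff₀ hm]
    have := le_abs_self R
    linarith
  have h6 : |r| ≤ R' := by
    rw [hR']; exact Real.abs_le_sqrt h5
  exact ⟨(abs_le.mp h6).1, (abs_le.mp h6).2⟩

lemma X_isEmbedding (h : Adm m e) : Topology.IsEmbedding (X h) :=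
  (Topology.IsClosedEmbedding.of_continuous_injective_isClosedMap (continuous_X h) (X_injective h)
    (X_proper h).isClosedMap).isEmbedding

lemma X_isIsometric (h : Adm m e) : IsIsometricEmbedding (m * len) (X h) where
  smooth := contDiff_Xt h
  metric := metric_Xt h
  embedding := X_isEmbedding h

lemma range_X (h : Adm m e) : Set.range (X h) = Set.range (fun p : ℝ × ℝ => m • surf e p.1 p.2) := by
  ext y
  constructor
  · rintro ⟨z, rfl⟩
    obtain ⟨x, -, r, rfl⟩ := mk_surj h z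
    exact ⟨(x, r), (X_mk_F h _).symm⟩
  · rintro ⟨p, rfl⟩
    exact ⟨_, X_mk_F h p⟩

theorem main_geometric : ∃ e₀ > 0, ∀ e : ℝ, 0 < e → e < e₀ → ∀ w : ℝ, 0 < w →
    ∃ X : FlatMoebius w → EuclideanSpace ℝ (Fin 4), IsIsometricEmbedding w X ∧
      Set.range X = Set.range (fun p : ℝ × ℝ => (w / len) • surf e p.1 p.2) := by
  obtain ⟨e₀, he₀, hadm⟩ := exists_adm
  refine ⟨e₀, he₀, fun e he hlt w hw => ?_⟩
  have h : Adm (w / len) e := hadm _ _ (div_pos hw len_pos) he hlt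
  have hw' : w / len * len = w := div_mul_cancel₀ _ len_pos.ne'
  have h1 := X_isIsometric h
  have h2 := range_X h
  generalize X h = Y at h1 h2
  revert Y
  rw [hw']
  intro Y h1 h2
  exact ⟨Y, h1, h2⟩

end

end Pool.Agent.Helper87.Mob
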