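import Pool.Agent.Helper87.MobDefs

/-!
Internal description of the explicit surface.
-/

namespace Pool.Agent.Helper87.Mob

open Real

noncomputable section

/-- `sin (x/2)` -/
def sh (x : ℝ) : ℝ := Real.sin (x / 2)

/-- `cos (x/2)` -/
def ch (x : ℝ) : ℝ := Real.cos (x / 2)

/-- The closed curve `(sin x, sin x (1 - cos x), (1 - cos x)^3 / 6)`, in terms of `x/2`. -/
def ga (i : Fin 3) (x : ℝ) : ℝ :=
  match i with
  | 0 => 2 * sh x * ch x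
  | 1 => 4 * sh x ^ 3 * ch x
  | 2 => 4 / 3 * sh x ^ 6

/-- The velocity of the curve. -/
def T (i : Fin 3) (x : ℝ) : ℝ :=
  match i with
  | 0 => 1 - 2 * sh x ^ 2
  | 1 => 2 * sh x ^ 2 * (3 - 4 * sh x ^ 2)
  | 2 => 4 * sh x ^ 5 * ch x

/-- A binormal field of the curve (nowhere zero, changing sign after one turn). -/
def B (i : Fin 3) (x : ℝ) : ℝ :=
  match i with
  | 0 => 2 * sh x ^ 5 * (9 - 16 * sh x ^ 2 + 8 * sh x ^ 4)
  | 1 => -(sh x ^ 3 * (5 - 12 * sh x ^ 2 + 8 * sh x ^ 4))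
  | 2 => ch x * (3 - 8 * sh x ^ 2 + 8 * sh x ^ 4)

/-- The squared speed `|T|²`. -/
def tt (x : ℝ) : ℝ :=
  (1 - 2 * sh x ^ 2) ^ 2 + (2 * sh x ^ 2 * (3 - 4 * sh x ^ 2)) ^ 2 + 16 * sh x ^ 10 * (1 - sh x ^ 2)

/-- The squared norm `|B|²`. -/
def bb (x : ℝ) : ℝ :=
  (2 * sh x ^ 5 * (9 - 16 * sh x ^ 2 + 8 * sh x ^ 4)) ^ 2
    + (sh x ^ 3 * (5 - 12 * sh x ^ 2 + 8 * sh x ^ 4)) ^ 2
    + (1 - sh x ^ 2) * (3 - 8 * sh x ^ 2 + 8 * sh x ^ 4) ^ 2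

/-- The norm `|B|`. -/
def nb (x : ℝ) : ℝ := Real.sqrt (bb x)

/-- An auxiliary polynomial in `sin (x/2)`. -/
def sq (x : ℝ) : ℝ :=
  sh x * (45 - 160 * sh x ^ 2 + 240 * sh x ^ 4 - 192 * sh x ^ 6 + 64 * sh x ^ 8) / 4

/-- The ruling vector of the rectifying developable of the curve. -/
def D (i : Fin 3) (x : ℝ) : ℝ := (nb x ^ 2 * B i x + sq x * tt x * T i x) / nb x ^ 3

/-- The bounded odd function `ε r / (1 + r²)`. -/
def rho (e r : ℝ) : ℝ := e * r / (1 + r ^ 2)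

/-- The explicit surface in `ℝ⁴` (up to dilation). -/
def surf (e x r : ℝ) : EuclideanSpace ℝ (Fin 4) :=
  !₂[ga 0 x + rho e r * D 0 x, ga 1 x + rho e r * D 1 x, ga 2 x + rho e r * D 2 x, r ^ 2]

/-- The length of the curve. -/
def len : ℝ := ∫ x in (0 : ℝ)..(2 * π), Real.sqrt (tt x)

end

end Pool.Agent.Helper87.Mob
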