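import Pool.Agent.Helper87.MobCurve

/-!
Smoothness, periodicity, injectivity of the curve and of the ruled strip.
-/

namespace Pool.Agent.Helper87.Mob

open Real Filter Topology
open scoped ContDiff

set_option linter.unusedSimpArgs false

noncomputable section

lemma contDiff_sh : ContDiff ℝ ∞ sh := by
  unfold sh
  exact Real.contDiff_sin.comp (contDiff_id.div_const 2)

lemma contDiff_ch : ContDiff ℝ ∞ ch := by
  unfold ch
  exact Real.contDiff_cos.comp (contDiff_id.div_const 2)

lemma contDiff_ga (i : Fin 3) : ContDiff ℝ ∞ (ga i) := by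
  have hS := contDiff_sh
  have hC := contDiff_ch
  match i with
  | 0 => exact (contDiff_const.mul hS).mul hC
  | 1 => exact (contDiff_const.mul (hS.pow 3)).mul hC
  | 2 => exact contDiff_const.mul (hS.pow 6)

lemma contDiff_T (i : Fin 3) : ContDiff ℝ ∞ (T i) := by
  have hS := contDiff_sh
  have hC := contDiff_ch
  match i with
  | 0 => exact contDiff_const.sub (contDiff_const.mul (hS.pow 2))
  | 1 => exact (contDiff_const.mul (hS.pow 2)).mul (contDiff_const.sub (contDiff_const.mul (hS.pow 2)))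
  | 2 => exact (contDiff_const.mul (hS.pow 5)).mul hC

lemma contDiff_B (i : Fin 3) : ContDiff ℝ ∞ (B i) := by
  have hS := contDiff_sh
  have hC := contDiff_ch
  match i with
  | 0 =>
    exact (contDiff_const.mul (hS.pow 5)).mul
      ((contDiff_const.sub (contDiff_const.mul (hS.pow 2))).add (contDiff_const.mul (hS.pow 4)))
  | 1 =>
    exact ((hS.pow 3).mul
      ((contDiff_const.sub (contDiff_const.mul (hS.pow 2))).add (contDiff_const.mul (hS.pow 4)))).neg
  | 2 =>
    exact hC.mul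
      ((contDiff_const.sub (contDiff_const.mul (hS.pow 2))).add (contDiff_const.mul (hS.pow 4)))

lemma contDiff_tt : ContDiff ℝ ∞ tt := by
  have hS := contDiff_sh
  unfold tt
  fun_prop

lemma contDiff_bb : ContDiff ℝ ∞ bb := by
  have hS := contDiff_sh
  unfold bb
  fun_prop

lemma contDiff_sq : ContDiff ℝ ∞ sq := by
  have hS := contDiff_sh
  unfold sq
  fun_prop

lemma contDiff_tt' : ContDiff ℝ ∞ tt' := by
  have hS := contDiff_sh
  have hC := contDiff_ch
  unfold tt'
  fun_prop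

lemma contDiff_bb' : ContDiff ℝ ∞ bb' := by
  have hS := contDiff_sh
  have hC := contDiff_ch
  unfold bb'
  fun_prop

lemma contDiff_sq' : ContDiff ℝ ∞ sq' := by
  have hS := contDiff_sh
  have hC := contDiff_ch
  unfold sq'
  fun_prop

lemma contDiff_nt : ContDiff ℝ ∞ nt :=
  contDiff_tt.sqrt (fun x => (tt_pos x).ne')

lemma contDiff_nb : ContDiff ℝ ∞ nb :=
  contDiff_bb.sqrt (fun x => (bb_pos x).ne')

lemma contDiff_q : ContDiff ℝ ∞ q :=
  (contDiff_sq.mul (contDiff_nt.pow 3)).div (contDiff_nb.pow 3)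
    (fun x => pow_ne_zero 3 (nb_pos x).ne')

lemma contDiff_D (i : Fin 3) : ContDiff ℝ ∞ (D i) :=
  (((contDiff_nb.pow 2).mul (contDiff_B i)).add ((contDiff_sq.mul contDiff_tt).mul (contDiff_T i))).div
    (contDiff_nb.pow 3) (fun x => pow_ne_zero 3 (nb_pos x).ne')

lemma contDiff_g : ContDiff ℝ ∞ g :=
  (((contDiff_sq'.mul contDiff_tt).add ((contDiff_const.mul contDiff_sq).mul contDiff_tt')).div
    (contDiff_nb.pow 3) (fun x => pow_ne_zero 3 (nb_pos x).ne')).sub
  ((((contDiff_const.mul contDiff_sq).mul contDiff_tt).mul contDiff_bb').div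
    (contDiff_nb.pow 5) (fun x => pow_ne_zero 5 (nb_pos x).ne'))

lemma sh_shift (x : ℝ) : sh (x + 2 * π) = - sh x := by
  unfold sh
  rw [show (x + 2 * π) / 2 = x / 2 + π by ring, Real.sin_add_pi]

lemma ch_shift (x : ℝ) : ch (x + 2 * π) = - ch x := by
  unfold ch
  rw [show (x + 2 * π) / 2 = x / 2 + π by ring, Real.cos_add_pi]

lemma ga_shift (i : Fin 3) (x : ℝ) : ga i (x + 2 * π) = ga i x := by
  match i with
  | 0 => simp only [ga, sh_shift, ch_shift]; ring
  | 1 => simp only [ga, sh_shift, ch_shift]; ring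
  | 2 => simp only [ga, sh_shift, ch_shift]; ring

lemma T_shift (i : Fin 3) (x : ℝ) : T i (x + 2 * π) = T i x := by
  match i with
  | 0 => simp only [T, sh_shift, ch_shift]; ring
  | 1 => simp only [T, sh_shift, ch_shift]; ring
  | 2 => simp only [T, sh_shift, ch_shift]; ring

lemma B_shift (i : Fin 3) (x : ℝ) : B i (x + 2 * π) = - B i x := by
  match i with
  | 0 => simp only [B, sh_shift, ch_shift]; ring
  | 1 => simp only [B, sh_shift, ch_shift]; ring
  | 2 => simp only [B, sh_shift, ch_shift]; ring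

lemma tt_shift (x : ℝ) : tt (x + 2 * π) = tt x := by
  simp only [tt, sh_shift]; ring
lemma bb_shift (x : ℝ) : bb (x + 2 * π) = bb x := by
  simp only [bb, sh_shift]; ring
lemma sq_shift (x : ℝ) : sq (x + 2 * π) = - sq x := by
  simp only [sq, sh_shift]; ring
lemma tt'_shift (x : ℝ) : tt' (x + 2 * π) = tt' x := by
  simp only [tt', sh_shift, ch_shift]; ring
lemma bb'_shift (x : ℝ) : bb' (x + 2 * π) = bb' x := by
  simp only [bb', sh_shift, ch_shift]; ring
lemma sq'_shift (x : ℝ) : sq' (x + 2 * π) = - sq' x := by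
  simp only [sq', sh_shift, ch_shift]; ring
lemma nt_shift (x : ℝ) : nt (x + 2 * π) = nt x := by
  simp only [nt, tt_shift]
lemma nb_shift (x : ℝ) : nb (x + 2 * π) = nb x := by
  simp only [nb, bb_shift]
lemma q_shift (x : ℝ) : q (x + 2 * π) = - q x := by
  simp only [q, sq_shift, nt_shift, nb_shift]; ring
lemma D_shift (i : Fin 3) (x : ℝ) : D i (x + 2 * π) = - D i x := by
  simp only [D, sq_shift, nb_shift, tt_shift, B_shift, T_shift]; ring
lemma g_shift (x : ℝ) : g (x + 2 * π) = - g x := by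
  simp only [g, sq_shift, nb_shift, tt_shift, sq'_shift, tt'_shift, bb'_shift]; ring

lemma TD (x : ℝ) : T 0 x * D 0 x + T 1 x * D 1 x + T 2 x * D 2 x = q x * nt x := by
  have hn := (nb_pos x).ne'
  have h1 := BT x
  have h2 := tt_eq x
  have h3 := nt_sq x
  simp only [D, q]
  field_simp
  rw [← h3] at h2 ⊢
  linear_combination (nb x ^ 2) * h1 - (sq x * nt x ^ 2) * h2

lemma DD (x : ℝ) : D 0 x ^ 2 + D 1 x ^ 2 + D 2 x ^ 2 = 1 + q x ^ 2 := by
  have hn := (nb_pos x).ne'
  have h1 := BT x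
  have h2 := tt_eq x
  have h3 := nt_sq x
  have h4 := bb_eq x
  have h5 := nb_sq x
  simp only [D, q]
  field_simp
  rw [← h3] at h2 ⊢
  rw [← h5] at h4
  linear_combination (2 * nb x ^ 2 * sq x * nt x ^ 2) * h1 - (sq x ^2 * nt x ^ 4) * h2 - nb x ^ 4 * h4

lemma DB (x : ℝ) : D 0 x * B 0 x + D 1 x * B 1 x + D 2 x * B 2 x = nb x := by
  have hn := (nb_pos x).ne'
  have h1 := BT x
  have h4 := bb_eq x
  have h5 := nb_sq x
  simp only [D]
  field_simp
  rw [← h5] at h4
  linear_combination (sq x * tt x) * h1 - nb x ^ 2 * h4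

lemma cos_eq (x : ℝ) : Real.cos x = 1 - 2 * sh x ^ 2 := by
  have : Real.cos x = Real.cos (2 * (x / 2)) := by ring_nf
  rw [this, Real.cos_two_mul]
  have := sc x
  unfold sh ch at *
  linarith

lemma sin_eq (x : ℝ) : Real.sin x = 2 * sh x * ch x := by
  have : Real.sin x = Real.sin (2 * (x / 2)) := by ring_nf
  rw [this, Real.sin_two_mul]
  rfl

lemma ga_inj {x y : ℝ} (h : ∀ i, ga i x = ga i y) : ∃ k : ℤ, y = x + k * (2 * π) := by
  have h0 := h 0
  have h2 := h 2
  simp only [ga] at h0 h2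
  rw [← sin_eq, ← sin_eq] at h0
  have h3 : (sh x ^ 2) = (sh y ^ 2) := by
    have : (sh x ^ 2) ^ 3 = (sh y ^ 2) ^ 3 := by
      have e1 : (sh x ^ 2) ^ 3 = sh x ^ 6 := by ring
      have e2 : (sh y ^ 2) ^ 3 = sh y ^ 6 := by ring
      rw [e1, e2]; linarith
    exact (pow_left_inj₀ (sq_nonneg _) (sq_nonneg _) (by norm_num)).mp this
  have h4 : Real.cos x = Real.cos y := by rw [cos_eq, cos_eq, h3]
  have h5 : Real.cos (y - x) = 1 := by
    rw [Real.cos_sub, ← h4, ← h0]
    have := Real.sin_sq_add_cos_sq x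
    nlinarith
  obtain ⟨k, hk⟩ := (Real.cos_eq_one_iff _).mp h5
  exact ⟨k, by linarith⟩

end

end Pool.Agent.Helper87.Mob
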