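import Pool.Agent.Helper87.MobStrip

namespace Pool.Agent.Helper87.Mob

open Real Filter Topology Set
open scoped ContDiff

set_option linter.unusedSimpArgs false

noncomputable section

/-! ### arc length of the curve -/

/-- arc length -/
def sl (x : ℝ) : ℝ := ∫ y in (0 : ℝ)..x, nt y

lemma hasDerivAt_sl (x : ℝ) : HasDerivAt sl (nt x) x :=
  (contDiff_nt.continuous.integral_hasStrictDerivAt 0 x).hasDerivAt

lemma contDiff_sl : ContDiff ℝ ∞ sl := by
  rw [contDiff_infty_iff_deriv]
  refine ⟨fun x => (hasDerivAt_sl x).differentiableAt, ?_⟩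
  have : deriv sl = nt := funext fun x => (hasDerivAt_sl x).deriv
  rw [this]
  exact contDiff_nt

lemma len_eq : len = ∫ y in (0:ℝ)..(2 * π), nt y := rfl

lemma len_pos : 0 < len := by
  rw [len_eq]
  exact intervalIntegral.intervalIntegral_pos_of_pos
    (contDiff_nt.continuous.intervalIntegrable _ _) (fun x => nt_pos x) (by positivity)

lemma sl_shift (x : ℝ) : sl (x + 2 * π) = sl x + len := by
  have hper : Function.Periodic nt (2 * π) := nt_shift
  have h1 := hper.intervalIntegral_add_eq x 0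
  have hi : ∀ a b : ℝ, IntervalIntegrable nt MeasureTheory.volume a b := fun a b =>
    contDiff_nt.continuous.intervalIntegrable _ _
  have h2 := intervalIntegral.integral_add_adjacent_intervals (hi 0 x) (hi x (x + 2 * π))
  rw [h1, zero_add] at h2
  rw [sl, sl, len_eq]
  linarith

lemma sl_shift_int (k : ℤ) (x : ℝ) : sl (x + k * (2 * π)) = sl x + k * len := by
  induction k using Int.induction_on generalizing x with
  | zero => simp
  | succ n ih =>
    have e : x + ((n : ℤ) + 1 : ℤ) * (2 * π) = (x + (n : ℤ) * (2 * π)) + 2 * π := by push_cast; ring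
    rw [e, sl_shift, ih]
    push_cast; ring
  | pred n ih =>
    have e : x + ((-(n : ℤ)) - 1 : ℤ) * (2 * π) + 2 * π = (x + (-(n : ℤ) : ℤ) * (2 * π)) := by
      push_cast; ring
    have h1 := sl_shift (x + ((-(n : ℤ)) - 1 : ℤ) * (2 * π))
    rw [e, ih] at h1
    push_cast at h1 ⊢
    linarith

lemma exists_nt_lower : ∃ c > 0, ∀ x, c ≤ nt x := by
  have hper : Function.Periodic (fun x => (nt x)⁻¹) (2 * π) := by
    intro x; simp only [nt_shift]
  have hcont : Continuous (fun x => (nt x)⁻¹) :=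
    contDiff_nt.continuous.inv₀ (fun x => (nt_pos x).ne')
  obtain ⟨M, hM⟩ := (hper.isBounded_of_continuous (by positivity) hcont).exists_norm_le
  have hM' : ∀ x, (nt x)⁻¹ ≤ M := fun x => (le_abs_self _).trans (hM _ ⟨x, rfl⟩)
  have hM0 : 0 < M := lt_of_lt_of_le (inv_pos.mpr (nt_pos 0)) (hM' 0)
  refine ⟨M⁻¹, inv_pos.mpr hM0, fun x => ?_⟩
  exact inv_le_of_inv_le₀ (nt_pos x) (hM' x)

/-! ### the function rho and the arc length in the second parameter -/

/-- derivative of `rho e` -/
def rho' (e r : ℝ) : ℝ := e * (1 - r ^ 2) / (1 + r ^ 2) ^ 2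

lemma one_add_sq_pos (r : ℝ) : 0 < 1 + r ^ 2 := by positivity

lemma hasDerivAt_rho (e r : ℝ) : HasDerivAt (rho e) (rho' e r) r := by
  have h : HasDerivAt (rho e) _ r :=
    ((hasDerivAt_id r).const_mul e).div (((hasDerivAt_id r).pow 2).const_add 1)
      (one_add_sq_pos r).ne'
  refine h.congr_deriv ?_
  have := (one_add_sq_pos r).ne'
  simp only [rho', id, Nat.cast_ofNat, mul_one, pow_one, Pi.pow_apply]
  congr 1
  simp
  ring

lemma contDiff_rho (e : ℝ) : ContDiff ℝ ∞ (rho e) := by
  unfold rho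
  exact (contDiff_const.mul contDiff_id).div (contDiff_const.add (contDiff_id.pow 2))
    (fun r => (one_add_sq_pos r).ne')

lemma contDiff_rho' (e : ℝ) : ContDiff ℝ ∞ (rho' e) := by
  unfold rho'
  exact (contDiff_const.mul (contDiff_const.sub (contDiff_id.pow 2))).div
    ((contDiff_const.add (contDiff_id.pow 2)).pow 2)
    (fun r => pow_ne_zero 2 (one_add_sq_pos r).ne')

lemma abs_rho_le {e : ℝ} (he : 0 < e) (r : ℝ) : |rho e r| ≤ e / 2 := by
  have h := one_add_sq_pos r
  rw [rho, abs_div, abs_of_pos h, div_le_iff₀ h, abs_mul, abs_of_pos he]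
  have h1 : |r| ^ 2 = r ^ 2 := sq_abs r
  nlinarith [sq_nonneg (|r| - 1), abs_nonneg r]

lemma rho_neg (e r : ℝ) : rho e (-r) = - rho e r := by
  simp only [rho]
  ring

lemma rho_eq_zero {e : ℝ} (he : 0 < e) {r : ℝ} (h : rho e r = 0) : r = 0 := by
  have h1 := (one_add_sq_pos r).ne'
  rw [rho, div_eq_zero_iff] at h
  rcases h with h | h
  · rcases mul_eq_zero.mp h with h | h
    · exact absurd h he.ne'
    · exact h
  · exact absurd h h1

/-- speed of the plane curve `(rho, r^2)` -/
def om (e r : ℝ) : ℝ := Real.sqrt (rho' e r ^ 2 + (2 * r) ^ 2)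

lemma om_arg_pos {e : ℝ} (he : 0 < e) (r : ℝ) : 0 < rho' e r ^ 2 + (2 * r) ^ 2 := by
  rcases eq_or_ne r 0 with rfl | h
  · simp [rho']; positivity
  · have : 0 < (2 * r) ^ 2 := by positivity
    have := sq_nonneg (rho' e r)
    linarith

lemma om_pos {e : ℝ} (he : 0 < e) (r : ℝ) : 0 < om e r := Real.sqrt_pos.mpr (om_arg_pos he r)

lemma om_sq {e : ℝ} (he : 0 < e) (r : ℝ) : om e r ^ 2 = rho' e r ^ 2 + (2 * r) ^ 2 :=
  Real.sq_sqrt (om_arg_pos he r).le

lemma contDiff_om {e : ℝ} (he : 0 < e) : ContDiff ℝ ∞ (om e) := by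
  have h : ContDiff ℝ ∞ (fun r => rho' e r ^ 2 + (2 * r) ^ 2) :=
    ((contDiff_rho' e).pow 2).add ((contDiff_const.mul contDiff_id).pow 2)
  exact h.sqrt (fun r => (om_arg_pos he r).ne')

lemma om_neg (e r : ℝ) : om e (-r) = om e r := by
  simp only [om, rho']
  ring_nf

lemma om_lower {e : ℝ} (he : 0 < e) : ∃ c > 0, ∀ r, c ≤ om e r := by
  refine ⟨min 1 (12 * e / 25), by positivity, fun r => ?_⟩
  rcases le_or_gt (1 / 4) (r ^ 2) with h | h
  · refine (min_le_left _ _).trans ?_
    rw [om, Real.one_le_sqrt]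
    have := sq_nonneg (rho' e r)
    nlinarith
  · refine (min_le_right _ _).trans ?_
    apply Real.le_sqrt_of_sq_le
    have h1 : 12 * e / 25 ≤ rho' e r := by
      rw [rho', le_div_iff₀ (by positivity)]
      have h2 : (1 + r ^ 2) ^ 2 ≤ (5 / 4) ^ 2 := by
        apply pow_le_pow_left₀ (by positivity); linarith
      have h3 : 12 * e / 25 * (1 + r ^ 2) ^ 2 ≤ 12 * e / 25 * (5 / 4) ^ 2 :=
        mul_le_mul_of_nonneg_left h2 (by positivity)
      have h4 : e * (3 / 4) ≤ e * (1 - r ^ 2) := mul_le_mul_of_nonneg_left (by linarith) he.le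
      nlinarith
    have h5 : (12 * e / 25) ^ 2 ≤ rho' e r ^ 2 := pow_le_pow_left₀ (by positivity) h1 2
    have := sq_nonneg (2 * r)
    linarith

/-- arc length in the second parameter -/
def ta (e r : ℝ) : ℝ := ∫ y in (0 : ℝ)..r, om e y

lemma hasDerivAt_ta {e : ℝ} (he : 0 < e) (r : ℝ) : HasDerivAt (ta e) (om e r) r :=
  ((contDiff_om he).continuous.integral_hasStrictDerivAt 0 r).hasDerivAt

lemma contDiff_ta {e : ℝ} (he : 0 < e) : ContDiff ℝ ∞ (ta e) := by
  rw [contDiff_infty_iff_deriv]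
  refine ⟨fun x => (hasDerivAt_ta he x).differentiableAt, ?_⟩
  have : deriv (ta e) = om e := funext fun x => (hasDerivAt_ta he x).deriv
  rw [this]
  exact contDiff_om he

lemma ta_neg (e r : ℝ) : ta e (-r) = - ta e r := by
  have h := intervalIntegral.integral_comp_neg (a := 0) (b := r) (fun y => om e y)
  simp only [om_neg, neg_zero] at h
  rw [ta, ta, intervalIntegral.integral_symm, h]

lemma ta_zpow (e r : ℝ) (k : ℤ) : ta e ((-1 : ℝ) ^ k * r) = (-1 : ℝ) ^ k * ta e r := by
  rcases Int.even_or_odd k with h | h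
  · rw [Even.neg_one_zpow h]; simp
  · rw [Odd.neg_one_zpow h]; simp [ta_neg]

lemma rho_zpow (e r : ℝ) (k : ℤ) : rho e ((-1 : ℝ) ^ k * r) = (-1 : ℝ) ^ k * rho e r := by
  rcases Int.even_or_odd k with h | h
  · rw [Even.neg_one_zpow h]; simp
  · rw [Odd.neg_one_zpow h]; simp [rho_neg]

/-! ### a bijectivity criterion -/

lemma bij_of_deriv_ge {f f' : ℝ → ℝ} (hf : ∀ x, HasDerivAt f (f' x) x) {c : ℝ} (hc : 0 < c)
    (h : ∀ x, c ≤ f' x) : Function.Bijective f := by
  have hd : Differentiable ℝ f := fun x => (hf x).differentiableAt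
  have hge : ∀ x, c ≤ deriv f x := fun x => by rw [(hf x).deriv]; exact h x
  have key : ∀ x y, x ≤ y → c * (y - x) ≤ f y - f x := fun x y hxy =>
    mul_sub_le_image_sub_of_le_deriv hd hge hxy
  constructor
  · have : StrictMono f := by
      intro x y hxy
      have := key x y hxy.le
      have : 0 < c * (y - x) := mul_pos hc (by linarith)
      linarith
    exact this.injective
  · apply hd.continuous.surjective
    · refine tendsto_atTop_mono' _ (f₁ := fun x => c * x + f 0) ?_ ?_
      · filter_upwards [eventually_ge_atTop 0] with x hx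
        have := key 0 x hx
        linarith
      · exact (tendsto_id.const_mul_atTop hc).atTop_add tendsto_const_nhds
    · refine tendsto_atBot_mono' _ (f₁ := fun x => c * x + f 0) ?_ ?_
      · filter_upwards [eventually_le_atBot 0] with x hx
        have := key x 0 hx
        linarith
      · exact (tendsto_id.const_mul_atBot hc).atBot_add tendsto_const_nhds

end

end Pool.Agent.Helper87.Mob
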