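import Pool.Agent.Helper87.MobLocal

namespace Pool.Agent.Helper87.Mob

open Real Filter Topology Set
open scoped ContDiff

set_option linter.unusedSimpArgs false

noncomputable section

/-- upper triangular linear automorphism of the plane -/
def tri (a b d : ℝ) (ha : a ≠ 0) (hd : d ≠ 0) : (ℝ × ℝ) ≃L[ℝ] (ℝ × ℝ) :=
  ContinuousLinearEquiv.equivOfInverse
    ((a • ContinuousLinearMap.fst ℝ ℝ ℝ + b • ContinuousLinearMap.snd ℝ ℝ ℝ).prod
      (d • ContinuousLinearMap.snd ℝ ℝ ℝ))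
    ((a⁻¹ • ContinuousLinearMap.fst ℝ ℝ ℝ - (a⁻¹ * b * d⁻¹) • ContinuousLinearMap.snd ℝ ℝ ℝ).prod
      (d⁻¹ • ContinuousLinearMap.snd ℝ ℝ ℝ))
    (by
      intro p
      ext
      · simp
        field_simp
        ring
      · simp
        field_simp)
    (by
      intro p
      ext
      · simp
        field_simp
        ring
      · simp
        field_simp)

lemma tri_apply (a b d : ℝ) (ha : a ≠ 0) (hd : d ≠ 0) (p : ℝ × ℝ) :
    tri a b d ha hd p = (a * p.1 + b * p.2, d * p.2) := by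
  simp [tri]

/-- the ruled strip in three-space -/
def Yf (i : Fin 3) (p : ℝ × ℝ) : ℝ := ga i p.1 + p.2 * D i p.1

lemma contDiff_Yf (i : Fin 3) : ContDiff ℝ ∞ (Yf i) := by
  have h1 : ContDiff ℝ ∞ (fun p : ℝ × ℝ => ga i p.1) := (contDiff_ga i).comp contDiff_fst
  have h2 : ContDiff ℝ ∞ (fun p : ℝ × ℝ => D i p.1) := (contDiff_D i).comp contDiff_fst
  exact h1.add (contDiff_snd.mul h2)

lemma hasFDerivAt_Yf (i : Fin 3) (p : ℝ × ℝ) :
    HasFDerivAt (Yf i) ((T i p.1 + p.2 * (g p.1 * T i p.1)) • ContinuousLinearMap.fst ℝ ℝ ℝ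
      + (D i p.1) • ContinuousLinearMap.snd ℝ ℝ ℝ) p := by
  have hf : HasFDerivAt (Prod.fst : ℝ × ℝ → ℝ) (ContinuousLinearMap.fst ℝ ℝ ℝ) p := hasFDerivAt_fst
  have h1 : HasFDerivAt (fun p : ℝ × ℝ => ga i p.1) _ p :=
    (hasDerivAt_ga i p.1).comp_hasFDerivAt p hf
  have h2 : HasFDerivAt (fun p : ℝ × ℝ => D i p.1) _ p :=
    (hasDerivAt_D i p.1).comp_hasFDerivAt p hf
  have h3 : HasFDerivAt (Yf i) _ p := h1.add (hasFDerivAt_snd.mul h2)
  refine h3.congr_fderiv ?_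
  ext <;> simp

/-- projection of the strip to the rectifying plane at `x0` -/
def Pm (x0 : ℝ) (p : ℝ × ℝ) : ℝ × ℝ :=
  (Yf 0 p * T 0 x0 + Yf 1 p * T 1 x0 + Yf 2 p * T 2 x0,
   Yf 0 p * B 0 x0 + Yf 1 p * B 1 x0 + Yf 2 p * B 2 x0)

lemma contDiff_Pm (x0 : ℝ) : ContDiff ℝ ∞ (Pm x0) := by
  have h0 := contDiff_Yf 0
  have h1 := contDiff_Yf 1
  have h2 := contDiff_Yf 2
  unfold Pm
  exact (((h0.mul contDiff_const).add (h1.mul contDiff_const)).add (h2.mul contDiff_const)).prodMk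
    (((h0.mul contDiff_const).add (h1.mul contDiff_const)).add (h2.mul contDiff_const))

lemma hasStrictFDerivAt_Pm (x0 : ℝ) :
    HasStrictFDerivAt (Pm x0)
      (tri (tt x0) (q x0 * nt x0) (nb x0) (tt_pos x0).ne' (nb_pos x0).ne' : (ℝ × ℝ) →L[ℝ] (ℝ × ℝ))
      (x0, 0) := by
  have h0 := hasFDerivAt_Yf 0 (x0, 0)
  have h1 := hasFDerivAt_Yf 1 (x0, 0)
  have h2 := hasFDerivAt_Yf 2 (x0, 0)
  have hF : HasFDerivAt (Pm x0) _ (x0, (0:ℝ)) :=
    (((h0.mul_const (T 0 x0)).add (h1.mul_const (T 1 x0))).add (h2.mul_const (T 2 x0))).prodMk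
    (((h0.mul_const (B 0 x0)).add (h1.mul_const (B 1 x0))).add (h2.mul_const (B 2 x0)))
  refine (contDiff_Pm x0).contDiffAt.hasStrictFDerivAt' ?_ (by simp)
  refine hF.congr_fderiv ?_
  have e1 := tt_eq x0
  have e2 := TD x0
  have e3 := BT x0
  have e4 := DB x0
  ext
  · simp [tri]
    linear_combination -e1
  · simp [tri]
    linear_combination e3
  · simp [tri]
    linear_combination e2
  · simp [tri]
    linear_combination e4

lemma local_inj (x0 : ℝ) : ∃ U ∈ 𝓝 ((x0, 0) : ℝ × ℝ), ∀ p ∈ U, ∀ p' ∈ U,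
    (∀ i, Yf i p = Yf i p') → p = p' := by
  let e := (hasStrictFDerivAt_Pm x0).toOpenPartialHomeomorph (Pm x0)
  refine ⟨e.source, ?_, ?_⟩
  · exact e.open_source.mem_nhds ((hasStrictFDerivAt_Pm x0).mem_toOpenPartialHomeomorph_source)
  · intro p hp p' hp' h
    refine e.injOn hp hp' ?_
    change Pm x0 p = Pm x0 p'
    simp only [Pm, h 0, h 1, h 2]

lemma anti_zpow {f : ℝ → ℝ} {c : ℝ} (h : ∀ x, f (x + c) = - f x) (k : ℤ) (x : ℝ) :
    f (x + k * c) = (-1 : ℝ) ^ k * f x := by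
  induction k using Int.induction_on generalizing x with
  | zero => simp
  | succ n ih =>
    have e : x + ((n : ℤ) + 1 : ℤ) * c = (x + (n : ℤ) * c) + c := by push_cast; ring
    rw [e, h, ih, zpow_add₀ (by norm_num)]
    simp
  | pred n ih =>
    have e : x + ((-(n : ℤ)) - 1 : ℤ) * c + c = (x + (-(n : ℤ) : ℤ) * c) := by push_cast; ring
    have h1 := h (x + ((-(n : ℤ)) - 1 : ℤ) * c)
    rw [e, ih] at h1
    rw [zpow_sub₀ (by norm_num)]
    simp only [zpow_one]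
    linarith

lemma per_int {f : ℝ → ℝ} {c : ℝ} (h : ∀ x, f (x + c) = f x) (k : ℤ) (x : ℝ) :
    f (x + k * c) = f x := by
  have hp : Function.Periodic f c := h
  have := hp.int_mul k x
  simpa using this

lemma neg_one_zpow_mul_self (k : ℤ) : (-1 : ℝ) ^ k * (-1 : ℝ) ^ k = 1 := by
  rw [← mul_zpow]; norm_num

lemma Yf_shift (i : Fin 3) (k : ℤ) (x r : ℝ) :
    Yf i (x + k * (2 * π), (-1 : ℝ) ^ k * r) = Yf i (x, r) := by
  simp only [Yf]
  rw [anti_zpow (D_shift i), per_int (ga_shift i)]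
  have := neg_one_zpow_mul_self k
  linear_combination (r * D i x) * this

/-- the conclusion of the injectivity statement -/
def Concl (r : ℝ) (z : ℝ × ℝ) : Prop :=
  (∀ i, Yf i (z.1, r) = Yf i (z.2, r)) →
    (∃ k : ℤ, z.2 = z.1 + k * (4 * π)) ∨ (r = 0 ∧ ∃ k : ℤ, z.2 = z.1 + k * (2 * π))

lemma concl_near (z : ℝ × ℝ) : ∀ᶠ w : ℝ × (ℝ × ℝ) in 𝓝 ((0 : ℝ), z), Concl w.1 w.2 := by
  obtain ⟨x, y⟩ := z
  by_cases h : ∀ i, ga i x = ga i y
  · obtain ⟨k, hk⟩ := ga_inj h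
    obtain ⟨U, hU, hinj⟩ := local_inj x
    have t1 : Tendsto (fun w : ℝ × (ℝ × ℝ) => (w.2.1, w.1)) (𝓝 ((0 : ℝ), (x, y))) (𝓝 (x, 0)) := by
      have : Continuous (fun w : ℝ × (ℝ × ℝ) => (w.2.1, w.1)) := by fun_prop
      exact this.tendsto ((0 : ℝ), (x, y))
    have t2 : Tendsto (fun w : ℝ × (ℝ × ℝ) => (w.2.2 + (-k : ℤ) * (2 * π), (-1 : ℝ) ^ (-k) * w.1))
        (𝓝 ((0 : ℝ), (x, y))) (𝓝 (x, 0)) := by
      have h2 : Continuous (fun w : ℝ × (ℝ × ℝ) => (w.2.2 + (-k : ℤ) * (2 * π), (-1 : ℝ) ^ (-k) * w.1)) := by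
        fun_prop
      have := h2.tendsto ((0 : ℝ), (x, y))
      have e : (y + (-k : ℤ) * (2 * π), (-1 : ℝ) ^ (-k) * 0) = (x, (0:ℝ)) := by
        rw [hk]; ext
        · push_cast; ring
        · simp
      simp only at this
      rwa [e] at this
    filter_upwards [t1 hU, t2 hU] with w hw1 hw2 hY
    have hY' : ∀ i, Yf i (w.2.1, w.1) = Yf i (w.2.2 + (-k : ℤ) * (2 * π), (-1 : ℝ) ^ (-k) * w.1) := by
      intro i
      rw [Yf_shift, hY i]
    have hp := hinj _ hw1 _ hw2 hY'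
    have hp1 : w.2.1 = w.2.2 + (-k : ℤ) * (2 * π) := congrArg Prod.fst hp
    have hp2 : w.1 = (-1 : ℝ) ^ (-k) * w.1 := congrArg Prod.snd hp
    rcases Int.even_or_odd k with he | ho
    · left
      obtain ⟨m, hm⟩ := he
      refine ⟨m, ?_⟩
      rw [hp1, hm]; push_cast; ring
    · right
      have h3 : (-1 : ℝ) ^ (-k) = -1 := Odd.neg_one_zpow ho.neg
      rw [h3] at hp2
      refine ⟨by linarith, k, ?_⟩
      rw [hp1]; push_cast; ring
  · push Not at h
    obtain ⟨i, hi⟩ := h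
    have hc : Continuous (fun w : ℝ × (ℝ × ℝ) => Yf i (w.2.1, w.1) - Yf i (w.2.2, w.1)) := by
      have := (contDiff_Yf i).continuous
      fun_prop
    have hne : (fun w : ℝ × (ℝ × ℝ) => Yf i (w.2.1, w.1) - Yf i (w.2.2, w.1)) ((0 : ℝ), (x, y)) ≠ 0 := by
      simp only [Yf]
      intro h0
      apply hi
      linarith
    filter_upwards [hc.continuousAt.eventually_ne hne] with w hw hY
    exact absurd (sub_eq_zero.mpr (hY i)) hw

lemma exists_eps : ∃ ε > 0, ∀ r : ℝ, |r| < ε → (∀ x, |r * g x| < 1 / 2) ∧ ∀ z, Concl r z := by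
  -- boundedness of g
  have hper : Function.Periodic g (4 * π) := by
    intro x
    have : x + 4 * π = (x + 2 * π) + 2 * π := by ring
    rw [this, g_shift, g_shift, neg_neg]
  obtain ⟨M, hM⟩ : ∃ M, ∀ x, |g x| ≤ M := by
    have hb := hper.isBounded_of_continuous (by positivity) contDiff_g.continuous
    obtain ⟨M, hM⟩ := hb.exists_norm_le
    exact ⟨M, fun x => hM _ ⟨x, rfl⟩⟩
  have hM0 : 0 ≤ M := le_trans (abs_nonneg _) (hM 0)
  -- compactness
  have hK : IsCompact (Icc (0:ℝ) (4 * π) ×ˢ Icc (0:ℝ) (4 * π)) := isCompact_Icc.prod isCompact_Icc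
  have hev : ∀ᶠ r in 𝓝 (0:ℝ), ∀ z ∈ (Icc (0:ℝ) (4 * π) ×ˢ Icc (0:ℝ) (4 * π)), Concl r z :=
    hK.eventually_forall_of_forall_eventually (fun z _ => concl_near z)
  obtain ⟨ε, hε, hball⟩ := Metric.eventually_nhds_iff.mp hev
  refine ⟨min ε (1 / (2 * (M + 1))), by positivity, ?_⟩
  intro r hr
  have hr1 : |r| < ε := lt_of_lt_of_le hr (min_le_left _ _)
  have hr2 : |r| < 1 / (2 * (M + 1)) := lt_of_lt_of_le hr (min_le_right _ _)
  constructor
  · intro x
    rw [abs_mul]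
    have h1 : |r| * |g x| ≤ |r| * (M + 1) :=
      mul_le_mul_of_nonneg_left ((hM x).trans (by linarith)) (abs_nonneg _)
    have h2 : |r| * (M + 1) < 1 / (2 * (M + 1)) * (M + 1) :=
      mul_lt_mul_of_pos_right hr2 (by linarith)
    have h3 : 1 / (2 * (M + 1)) * (M + 1) = 1 / 2 := by field_simp
    linarith
  · have hc := hball (by simpa [Real.dist_eq] using hr1)
    rintro ⟨x, y⟩ hY
    have h4 : (0:ℝ) < 4 * π := by positivity
    -- reduce to the compact square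
    obtain ⟨m, hm, -⟩ := existsUnique_add_zsmul_mem_Ico h4 x 0
    obtain ⟨n, hn, -⟩ := existsUnique_add_zsmul_mem_Ico h4 y 0
    simp only [zsmul_eq_mul, zero_add] at hm hn
    have sh1 : ∀ i, ∀ (m : ℤ) (x : ℝ), Yf i (x + m * (4 * π), r) = Yf i (x, r) := by
      intro i m x
      have := Yf_shift i (2 * m) x r
      have e2 : (-1 : ℝ) ^ (2 * m) = 1 := Even.neg_one_zpow (even_two_mul m)
      rw [e2, one_mul] at this
      rw [← this]
      congr 2
      push_cast; ring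
    have hY' : ∀ i, Yf i (x + m * (4 * π), r) = Yf i (y + n * (4 * π), r) := by
      intro i; rw [sh1, sh1]; exact hY i
    have := hc (x + m * (4 * π), y + n * (4 * π)) ⟨⟨hm.1, hm.2.le⟩, ⟨hn.1, hn.2.le⟩⟩ hY'
    rcases this with ⟨k, hk⟩ | ⟨hr0, k, hk⟩
    · left
      refine ⟨k + m - n, ?_⟩
      simp only at hk ⊢
      push_cast
      linarith
    · right
      refine ⟨hr0, k + 2 * m - 2 * n, ?_⟩
      simp only at hk ⊢
      push_cast
      linarith

end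

end Pool.Agent.Helper87.Mob
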